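import Pool.Agent.H85.Dend

/-!
Triviality of the higher homotopy groups of all subspaces.
-/

open Set Topology
open scoped unitInterval Topology.Homotopy

namespace Pool.Agent.H85.Cube

theorem lpc_I : LocallyPathConnectedSpace unitInterval :=
  (convex_Icc (0 : ℝ) 1).locallyPathConnectedSpace

theorem lpc_cube (m : ℕ) : LocallyPathConnectedSpace (Fin m → unitInterval) := by
  have := lpc_I
  infer_instance

theorem contractible_cube (m : ℕ) : ContractibleSpace (Fin m → unitInterval) := by
  rw [contractible_iff_id_nullhomotopic]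
  refine ⟨fun _ => 0, ⟨?_⟩⟩
  refine ⟨⟨fun q i => unitInterval.symm q.1 * q.2 i, by fun_prop⟩, ?_, ?_⟩
  · intro x
    funext i
    simp
  · intro x
    funext i
    simp

/-- The boundary of the cube is connected in dimension at least two. -/
theorem boundary_preconnected {m : ℕ} (hm : 2 ≤ m) :
    IsPreconnected (Cube.boundary (Fin m)) := by
  -- the segments used: rescale some of the coordinates
  have seg : ∀ (y : Fin m → unitInterval) (s : Set (Fin m)) [DecidablePred (· ∈ s)],
      IsPreconnected (range (fun t : unitInterval => fun i => if i ∈ s then t * y i else y i)) := by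
    intro y s _
    apply isPreconnected_range
    apply continuous_pi
    intro i
    split_ifs <;> fun_prop
  apply isPreconnected_of_forall (fun _ => 0)
  rintro y ⟨i, hi⟩
  classical
  -- first move: all coordinates except `i` go to zero
  set A := range (fun t : unitInterval => fun k => if k ∈ ({i}ᶜ : Set (Fin m)) then t * y k else y k)
    with hA
  -- second move: coordinate `i` goes to zero
  set y' : Fin m → unitInterval := fun k => if k = i then y i else 0 with hy'
  set B := range (fun t : unitInterval => fun k => if k ∈ ({i} : Set (Fin m)) then t * y' k else y' k)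
    with hB
  have hAy' : y' ∈ A := by
    refine ⟨0, ?_⟩
    funext k
    by_cases hk : k = i
    · subst hk; simp [hy']
    · simp [hy', hk]
  have hBy' : y' ∈ B := by
    refine ⟨1, ?_⟩
    funext k
    simp
  obtain ⟨j, hj⟩ : ∃ j : Fin m, j ≠ i := by
    have : Nontrivial (Fin m) := Fin.nontrivial_iff_two_le.2 hm
    exact exists_ne i
  refine ⟨A ∪ B, ?_, Or.inr ⟨0, ?_⟩, Or.inl ⟨1, ?_⟩, ?_⟩
  · apply union_subset
    · rintro _ ⟨t, rfl⟩
      refine ⟨i, ?_⟩
      simpa using hi
    · rintro _ ⟨t, rfl⟩
      refine ⟨j, Or.inl ?_⟩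
      simp [hj, hy']
  · funext k
    by_cases hk : k = i
    · subst hk; simp
    · simp [hk, hy']
  · funext k
    simp
  · exact IsPreconnected.union y' hAy' hBy' (seg y _) (seg y' _)

theorem boundary_zero {m : ℕ} (hm : 2 ≤ m) : (fun _ => 0 : Fin m → unitInterval) ∈
    Cube.boundary (Fin m) := ⟨⟨0, by omega⟩, Or.inl rfl⟩

/-- All higher homotopy groups of all subspaces vanish. -/
theorem trivial_pi {X : Type*} [TopologicalSpace X] [T2Space X] {C : Set X}
    (hC : IsClosed C)
    (hpath : ∀ γ : C(unitInterval, X), (∀ t, γ t ∈ C) → ∀ s t, γ s = γ t)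
    (hrim : ∀ x, x ∉ C → ∀ U ∈ 𝓝 x, ∃ A, IsOpen A ∧ x ∈ A ∧ closure A ⊆ U ∧ (frontier A).Finite)
    (M : Set X) (x : M) {m : ℕ} (hm : 2 ≤ m) : Subsingleton (π_ m M x) := by
  have i1 := lpc_cube m
  have i2 := contractible_cube m
  have key : ∀ g : GenLoop (Fin m) M x, GenLoop.Homotopic GenLoop.const g := by
    intro g
    set f : (Fin m → unitInterval) → X := fun z => (g z : X) with hf
    have hfc : Continuous f := continuous_subtype_val.comp g.1.continuous
    have S : Fib.Setup f C := ⟨hfc, hC, hpath, hrim⟩
    set p0 : Fin m → unitInterval := fun _ => 0 with hp0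
    have hp0b : p0 ∈ Cube.boundary (Fin m) := boundary_zero hm
    have hbd : ∀ z ∈ Cube.boundary (Fin m), g z = x := g.2
    obtain ⟨F, hFc, hF0, hF1, hFr, hFb⟩ := Dend.contract S p0
    have hfp0 : f p0 = x := by rw [hf]; simp only; rw [hbd p0 hp0b]
    have hb : Cube.boundary (Fin m) ⊆ Fib.fib f p0 := by
      apply (boundary_preconnected hm).subset_connectedComponentIn hp0b
      intro z hz
      show f z = f p0
      rw [hfp0]
      show ((g z : M) : X) = x
      rw [hbd z hz]
    have hFM : ∀ q, F q ∈ M := by
      intro q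
      obtain ⟨z, hz⟩ := hFr q
      rw [← hz]
      exact (g z).2
    refine ⟨⟨⟨⟨fun q => ⟨F (q.2, q.1), hFM _⟩, ?_⟩, ?_, ?_⟩, ?_⟩⟩
    · exact Continuous.subtype_mk (hFc.comp (by fun_prop)) _
    · intro z
      apply Subtype.ext
      show F (z, 0) = ((GenLoop.const z : M) : X)
      rw [hF0, hfp0]
      rfl
    · intro z
      apply Subtype.ext
      show F (z, 1) = ((g z : M) : X)
      rw [hF1]
    · intro t z hz
      apply Subtype.ext
      show F (z, t) = ((GenLoop.const z : M) : X)
      rw [hFb z (hb hz), hfp0]
      rfl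
  constructor
  intro a b
  induction a using Quotient.inductionOn with
  | _ a =>
    induction b using Quotient.inductionOn with
    | _ b =>
      exact Quotient.sound ((key a).symm.trans (key b))

end Pool.Agent.H85.Cube
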