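import Mathlib

/-!
Kuhn's cubical Sperner lemma.
-/

open Finset

namespace Pool.Agent.H85.Kuhn

open Classical in
/-- The indicator of a proposition, mod 2. -/
noncomputable def ind (p : Prop) : ZMod 2 := if p then 1 else 0

theorem ind_pos {p : Prop} (h : p) : ind p = 1 := if_pos h

theorem ind_neg {p : Prop} (h : ¬ p) : ind p = 0 := if_neg h

/-- Combinatorial parity lemma for a single simplex. -/
theorem parity (n : ℕ) (L : ℕ → ℕ) (hL : ∀ j, j ≤ n → L j ≤ n) :
    (∑ k ∈ range (n + 1), ind (∀ c, 1 ≤ c → c ≤ n → ∃ j, j ≤ n ∧ j ≠ k ∧ L j = c))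
      = ind (∀ c, c ≤ n → ∃ j, j ≤ n ∧ L j = c) := by
  classical
  by_cases hall : ∀ c, 1 ≤ c → c ≤ n → ∃ j, j ≤ n ∧ L j = c
  swap
  · have h1 : ¬ (∀ c, c ≤ n → ∃ j, j ≤ n ∧ L j = c) := fun h => hall (fun c _ hc => h c hc)
    rw [ind_neg h1]
    apply Finset.sum_eq_zero
    intro k _
    rw [ind_neg]
    intro h
    apply hall
    intro c h1 h2
    obtain ⟨j, hj, _, hjc⟩ := h c h1 h2
    exact ⟨j, hj, hjc⟩
  by_cases hF : ∀ c, c ≤ n → ∃ j, j ≤ n ∧ L j = c
  · rw [ind_pos hF]
    -- `L` is injective on `range (n + 1)`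
    have hinj : Set.InjOn L (range (n + 1)) := by
      apply Finset.injOn_of_surjOn_of_card_le (t := range (n + 1)) L
      · intro j hj
        have := hL j (by simpa [Nat.lt_succ_iff] using hj)
        simpa [Nat.lt_succ_iff] using this
      · intro c hc
        obtain ⟨j, hj, hjc⟩ := hF c (by simpa [Nat.lt_succ_iff] using hc)
        exact ⟨j, by simpa [Nat.lt_succ_iff] using hj, hjc⟩
      · exact le_rfl
    obtain ⟨j0, hj0, hL0⟩ := hF 0 (Nat.zero_le _)
    rw [Finset.sum_eq_single j0]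
    · rw [ind_pos]
      intro c h1 h2
      obtain ⟨j, hj, hjc⟩ := hF c h2
      refine ⟨j, hj, ?_, hjc⟩
      rintro rfl
      omega
    · intro k hk hkj
      have hk' : k ≤ n := by simpa [Nat.lt_succ_iff] using hk
      rw [ind_neg]
      intro h
      have hLk : L k ≠ 0 := by
        intro h0
        apply hkj
        exact hinj (by simpa [Nat.lt_succ_iff] using hk') (by simpa [Nat.lt_succ_iff] using hj0)
          (h0.trans hL0.symm)
      obtain ⟨j, hj, hjk, hjc⟩ := h (L k) (by omega) (hL k hk')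
      exact hjk (hinj (by simpa [Nat.lt_succ_iff] using hj) (by simpa [Nat.lt_succ_iff] using hk') hjc)
    · intro h
      exact absurd (by simpa [Nat.lt_succ_iff] using hj0) h
  · rw [ind_neg hF]
    -- zero is not attained
    have hno : ∀ j, j ≤ n → L j ≠ 0 := by
      intro j hj h0
      apply hF
      intro c hc
      rcases Nat.eq_zero_or_pos c with rfl | hc'
      · exact ⟨j, hj, h0⟩
      · exact hall c hc' hc
    obtain ⟨j1, hj1, j2, hj2, hne, he⟩ : ∃ j1 ∈ range (n + 1), ∃ j2 ∈ range (n + 1),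
        j1 ≠ j2 ∧ L j1 = L j2 := by
      apply Finset.exists_ne_map_eq_of_card_lt_of_maps_to (t := Icc 1 n)
      · simp
      · intro j hj
        have hj' : j ≤ n := by simpa [Nat.lt_succ_iff] using hj
        have h1 := hno j hj'
        have h2 := hL j hj'
        simp only [coe_Icc, Set.mem_Icc]
        omega
    have hj1' : j1 ≤ n := by simpa [Nat.lt_succ_iff] using hj1
    have hj2' : j2 ≤ n := by simpa [Nat.lt_succ_iff] using hj2
    have hD1 : ∀ c, 1 ≤ c → c ≤ n → ∃ j, j ≤ n ∧ j ≠ j1 ∧ L j = c := by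
      intro c h1 h2
      obtain ⟨j, hj, hjc⟩ := hall c h1 h2
      by_cases hjj : j = j1
      · exact ⟨j2, hj2', hne.symm, by rw [← he, ← hjj, hjc]⟩
      · exact ⟨j, hj, hjj, hjc⟩
    have hD2 : ∀ c, 1 ≤ c → c ≤ n → ∃ j, j ≤ n ∧ j ≠ j2 ∧ L j = c := by
      intro c h1 h2
      obtain ⟨j, hj, hjc⟩ := hall c h1 h2
      by_cases hjj : j = j2
      · exact ⟨j1, hj1', hne, by rw [he, ← hjj, hjc]⟩
      · exact ⟨j, hj, hjj, hjc⟩
    have hsub : ({j1, j2} : Finset ℕ) ⊆ range (n + 1) := by
      intro x hx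
      simp only [mem_insert, mem_singleton] at hx
      rcases hx with rfl | rfl <;> assumption
    rw [← Finset.sum_subset hsub]
    · rw [Finset.sum_pair hne, ind_pos hD1, ind_pos hD2]
      decide
    · intro k hk hk2
      simp only [mem_insert, mem_singleton, not_or] at hk2
      have hk' : k ≤ n := by simpa [Nat.lt_succ_iff] using hk
      rw [ind_neg]
      intro h
      have hcov : Icc 1 n ⊆ (((range (n + 1)).erase k).erase j1).image L := by
        intro c hc
        rw [mem_Icc] at hc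
        obtain ⟨j, hj, hjk, hjc⟩ := h c hc.1 hc.2
        rw [mem_image]
        by_cases hjj : j = j1
        · exact ⟨j2, by simp [hne.symm, Ne.symm hk2.2, hj2'],
            by rw [← he, ← hjj, hjc]⟩
        · exact ⟨j, by simp [hjj, hjk, hj], hjc⟩
      have hcard := Finset.card_le_card hcov
      have h1 : (((range (n + 1)).erase k).erase j1).card = n - 1 := by
        rw [card_erase_of_mem, card_erase_of_mem, card_range]
        · omega
        · simpa [Nat.lt_succ_iff] using hk'
        · simp [Ne.symm hk2.1, hj1']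
      have h2 := Finset.card_image_le (s := ((range (n + 1)).erase k).erase j1) (f := L)
      rw [Nat.card_Icc] at hcard
      have hn : 1 ≤ n := by omega
      omega

/-- The vertices of a Kuhn simplex. -/
def vx {n : ℕ} (x : Fin n → ℕ) (τ : Equiv.Perm (Fin n)) (j : ℕ) : Fin n → ℕ :=
  fun i => x i + if (τ i : ℕ) < j then 1 else 0

/-- The facet opposite to vertex `k` carries all labels `1, …, n`. -/
def Door {n : ℕ} (r : (Fin n → ℕ) → ℕ) (x : Fin n → ℕ) (τ : Equiv.Perm (Fin n)) (k : ℕ) : Prop :=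
  ∀ c, 1 ≤ c → c ≤ n → ∃ j, j ≤ n ∧ j ≠ k ∧ r (vx x τ j) = c

/-- The simplex carries all labels. -/
def Full {n : ℕ} (r : (Fin n → ℕ) → ℕ) (x : Fin n → ℕ) (τ : Equiv.Perm (Fin n)) : Prop :=
  ∀ c, c ≤ n → ∃ j, j ≤ n ∧ r (vx x τ j) = c

/-- The grid of base points. -/
def X (n M : ℕ) : Finset (Fin n → ℕ) := Fintype.piFinset (fun _ => range M)

theorem mem_X {n M : ℕ} {x : Fin n → ℕ} : x ∈ X n M ↔ ∀ i, x i < M := by
  simp [X]

theorem vx_le {n M : ℕ} {x : Fin n → ℕ} (hx : x ∈ X n M) (τ : Equiv.Perm (Fin n)) (j : ℕ)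
    (i : Fin n) : vx x τ j i ≤ M := by
  rw [mem_X] at hx
  have := hx i
  unfold vx
  split_ifs <;> omega

/-- Swapping across an inner vertex. -/
theorem vx_swap {n : ℕ} (x : Fin n → ℕ) (τ : Equiv.Perm (Fin n)) {k : ℕ} (h0 : 0 < k) (hk : k < n)
    {j : ℕ} (hj : j ≠ k) :
    vx x (τ.trans (Equiv.swap ⟨k - 1, by omega⟩ ⟨k, hk⟩)) j = vx x τ j := by
  funext i
  unfold vx
  rw [Equiv.trans_apply]
  by_cases h1 : τ i = ⟨k - 1, by omega⟩
  · rw [h1, Equiv.swap_apply_left]
    simp only
    split_ifs <;> omega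
  by_cases h2 : τ i = ⟨k, hk⟩
  · rw [h2, Equiv.swap_apply_right]
    simp only
    split_ifs <;> omega
  · rw [Equiv.swap_apply_of_ne_of_ne h1 h2]

/-- Rotating: moving to the neighbouring simplex. -/
theorem vx_rot {n : ℕ} (x : Fin (n + 1) → ℕ) (τ : Equiv.Perm (Fin (n + 1))) {j : ℕ} (hj : j ≤ n) :
    vx (Function.update x (τ.symm 0) (x (τ.symm 0) + 1)) (τ.trans (finRotate (n + 1)).symm) j =
      vx x τ (j + 1) := by
  funext i
  unfold vx
  rw [Equiv.trans_apply]
  by_cases hi : i = τ.symm 0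
  · subst hi
    rw [Function.update_self, Equiv.apply_symm_apply]
    have h1 : (finRotate (n + 1)).symm 0 = Fin.last n := by
      rw [Equiv.symm_apply_eq, finRotate_last]
    rw [h1, if_neg (by rw [Fin.val_last]; omega), if_pos (by rw [Fin.val_zero]; omega)]
  · rw [Function.update_of_ne hi]
    have hne : τ i ≠ 0 := fun h => hi (by rw [← h, Equiv.symm_apply_apply])
    rw [coe_finRotate_symm_of_ne_zero hne]
    have : 0 < (τ i : ℕ) := Nat.pos_of_ne_zero (fun h => hne (Fin.ext h))
    congr 1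
    apply if_congr _ rfl rfl
    omega

theorem door_rot {n : ℕ} (r : (Fin (n + 1) → ℕ) → ℕ) (x : Fin (n + 1) → ℕ)
    (τ : Equiv.Perm (Fin (n + 1))) :
    Door r (Function.update x (τ.symm 0) (x (τ.symm 0) + 1))
      (τ.trans (finRotate (n + 1)).symm) (n + 1) ↔ Door r x τ 0 := by
  unfold Door
  constructor
  · intro h c h1 h2
    obtain ⟨j, hj, hjn, hjc⟩ := h c h1 h2
    refine ⟨j + 1, by omega, by omega, ?_⟩
    rw [← vx_rot x τ (by omega), hjc]
  · intro h c h1 h2
    obtain ⟨j, hj, hj0, hjc⟩ := h c h1 h2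
    refine ⟨j - 1, by omega, by omega, ?_⟩
    rw [vx_rot x τ (by omega)]
    have : j - 1 + 1 = j := by omega
    rw [this, hjc]

open Classical in
theorem sum_ind {α : Type*} (s : Finset α) (p : α → Prop) :
    ∑ q ∈ s, ind (p q) = ((s.filter p).card : ZMod 2) := by
  rw [Finset.card_eq_sum_ones, Finset.sum_filter]
  push_cast
  rfl

theorem sum_inner {n : ℕ} (r : (Fin n → ℕ) → ℕ) {k : ℕ} (h0 : 0 < k) (hk : k < n) (M : ℕ) :
    ∑ q ∈ X n M ×ˢ (univ : Finset (Equiv.Perm (Fin n))), ind (Door r q.1 q.2 k) = 0 := by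
  classical
  have key : ∀ (x : Fin n → ℕ) (τ : Equiv.Perm (Fin n)),
      Door r x (τ.trans (Equiv.swap ⟨k - 1, by omega⟩ ⟨k, hk⟩)) k ↔ Door r x τ k := by
    intro x τ
    unfold Door
    constructor
    · intro h c h1 h2
      obtain ⟨j, hj, hjk, hjc⟩ := h c h1 h2
      exact ⟨j, hj, hjk, by rwa [vx_swap x τ h0 hk hjk] at hjc⟩
    · intro h c h1 h2
      obtain ⟨j, hj, hjk, hjc⟩ := h c h1 h2
      exact ⟨j, hj, hjk, by rwa [vx_swap x τ h0 hk hjk]⟩
  apply Finset.sum_involution
    (fun q _ => (q.1, q.2.trans (Equiv.swap ⟨k - 1, by omega⟩ ⟨k, hk⟩)))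
  · rintro ⟨x, τ⟩ _
    simp only
    rw [propext (key x τ)]
    exact CharTwo.add_self_eq_zero _
  · rintro ⟨x, τ⟩ _ _ h
    have h1 := (Prod.ext_iff.1 h).2
    simp only at h1
    have h2 : τ.trans (Equiv.swap ⟨k - 1, by omega⟩ ⟨k, hk⟩) (τ.symm ⟨k, hk⟩) =
      τ (τ.symm ⟨k, hk⟩) := by rw [h1]
    rw [Equiv.trans_apply, Equiv.apply_symm_apply, Equiv.swap_apply_right] at h2
    have := congrArg Fin.val h2
    simp only at this
    omega
  · rintro ⟨x, τ⟩ _
    simp only
    rw [Equiv.trans_assoc]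
    congr 1
    ext i
    simp
  · rintro ⟨x, τ⟩ hq
    simpa using hq

/-- Facets opposite to the last vertex are facets opposite to the first vertex of a neighbour. -/
theorem sum_last {n : ℕ} (r : (Fin (n + 1) → ℕ) → ℕ) (M : ℕ)
    (H2 : ∀ x : Fin (n + 1) → ℕ, (∀ i, x i ≤ M) → ∀ i, x i = 0 → r x ≠ i + 1) :
    ∑ q ∈ X (n + 1) M ×ˢ (univ : Finset (Equiv.Perm (Fin (n + 1)))), ind (Door r q.1 q.2 (n + 1)) =
    ∑ q ∈ X (n + 1) M ×ˢ (univ : Finset (Equiv.Perm (Fin (n + 1)))),
      ind (Door r q.1 q.2 0 ∧ q.1 (q.2.symm 0) + 1 < M) := by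
  classical
  rw [sum_ind, sum_ind]
  congr 1
  symm
  apply Finset.card_nbij'
    (fun q => (Function.update q.1 (q.2.symm 0) (q.1 (q.2.symm 0) + 1),
      q.2.trans (finRotate (n + 1)).symm))
    (fun q => (Function.update q.1 (q.2.symm (Fin.last n)) (q.1 (q.2.symm (Fin.last n)) - 1),
      q.2.trans (finRotate (n + 1))))
  · rintro ⟨x, τ⟩ hq
    simp only [coe_filter, mem_product, mem_univ, and_true, mem_X, Set.mem_ofPred_eq] at hq ⊢
    obtain ⟨hx, hD, hlt⟩ := hq
    refine ⟨?_, (door_rot r x τ).2 hD⟩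
    intro i
    by_cases hi : i = τ.symm 0
    · subst hi; rw [Function.update_self]; exact hlt
    · rw [Function.update_of_ne hi]; exact hx i
  · rintro ⟨y, τ⟩ hq
    simp only [coe_filter, mem_product, mem_univ, and_true, mem_X, Set.mem_ofPred_eq] at hq ⊢
    obtain ⟨hy, hD⟩ := hq
    set i0 := τ.symm (Fin.last n) with hi0
    -- `y i0` is positive
    have hpos : 0 < y i0 := by
      by_contra hz
      have hz' : y i0 = 0 := by omega
      obtain ⟨j, hj, hjn, hjc⟩ := hD (i0 + 1) (by omega) (by have := i0.2; omega)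
      apply H2 (vx y τ j) (fun i => vx_le (mem_X.2 hy) τ j i) i0 _ hjc
      unfold vx
      rw [hz', hi0, Equiv.apply_symm_apply, if_neg (by rw [Fin.val_last]; omega)]
    have hs : (τ.trans (finRotate (n + 1))).symm 0 = i0 := by
      rw [Equiv.symm_apply_eq, Equiv.trans_apply, hi0, Equiv.apply_symm_apply, finRotate_last]
    have hback : Function.update (Function.update y i0 (y i0 - 1)) i0 (y i0 - 1 + 1) = y := by
      rw [Function.update_idem, Nat.sub_add_cancel hpos, Function.update_eq_self]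
    have hτ : (τ.trans (finRotate (n + 1))).trans (finRotate (n + 1)).symm = τ := by
      ext i; simp
    refine ⟨?_, ?_, ?_⟩
    · intro i
      by_cases hi : i = i0
      · subst hi; rw [Function.update_self]; have := hy i0; omega
      · rw [Function.update_of_ne hi]; exact hy i
    · have := door_rot r (Function.update y i0 (y i0 - 1)) (τ.trans (finRotate (n + 1)))
      rw [hs, Function.update_self, hback, hτ] at this
      exact this.1 hD
    · rw [hs, Function.update_self]
      have := hy i0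
      omega
  · rintro ⟨x, τ⟩ hq
    simp only
    have h1 : (τ.trans (finRotate (n + 1)).symm).symm (Fin.last n) = τ.symm 0 := by
      rw [Equiv.symm_apply_eq, Equiv.trans_apply, Equiv.apply_symm_apply, eq_comm,
        Equiv.symm_apply_eq, finRotate_last]
    rw [h1, Function.update_self, Nat.add_sub_cancel, Function.update_idem,
      Function.update_eq_self]
    congr 1
    ext i; simp
  · rintro ⟨y, τ⟩ hq
    simp only [coe_filter, mem_product, mem_univ, and_true, mem_X, Set.mem_ofPred_eq] at hq ⊢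
    obtain ⟨hy, hD⟩ := hq
    set i0 := τ.symm (Fin.last n) with hi0
    have hpos : 0 < y i0 := by
      by_contra hz
      have hz' : y i0 = 0 := by omega
      obtain ⟨j, hj, hjn, hjc⟩ := hD (i0 + 1) (by omega) (by have := i0.2; omega)
      apply H2 (vx y τ j) (fun i => vx_le (mem_X.2 hy) τ j i) i0 _ hjc
      unfold vx
      rw [hz', hi0, Equiv.apply_symm_apply, if_neg (by rw [Fin.val_last]; omega)]
    have hs : (τ.trans (finRotate (n + 1))).symm 0 = i0 := by
      rw [Equiv.symm_apply_eq, Equiv.trans_apply, hi0, Equiv.apply_symm_apply, finRotate_last]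
    rw [hs, Function.update_self, Function.update_idem, Nat.sub_add_cancel hpos,
      Function.update_eq_self]
    congr 1
    ext i; simp

/-- Doors on the face `x 0 = M` are full simplices of the lower dimensional grid. -/
theorem sum_face {n : ℕ} (r : (Fin (n + 1) → ℕ) → ℕ) (M : ℕ) (hM : 0 < M)
    (H3 : ∀ x : Fin (n + 1) → ℕ, (∀ i, x i ≤ M) → ∀ i, x i = M → i + 1 ≤ r x) :
    ∑ q ∈ X (n + 1) M ×ˢ (univ : Finset (Equiv.Perm (Fin (n + 1)))),
      ind (Door r q.1 q.2 0 ∧ q.1 (q.2.symm 0) + 1 = M) =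
    ∑ q ∈ X n M ×ˢ (univ : Finset (Equiv.Perm (Fin n))),
      ind (Full (fun z => r (Fin.cons M z) - 1) q.1 q.2) := by
  classical
  rw [sum_ind, sum_ind]
  congr 1
  symm
  have hvx : ∀ (x : Fin n → ℕ) (τ : Equiv.Perm (Fin n)) (j : ℕ),
      vx (Fin.cons (M - 1) x) (Equiv.Perm.decomposeFin.symm (0, τ)) (j + 1) =
        Fin.cons M (vx x τ j) := by
    intro x τ j
    funext i
    refine Fin.cases ?_ (fun i => ?_) i
    · simp only [vx, Fin.cons_zero]
      rw [Equiv.Perm.decomposeFin_symm_apply_zero, if_pos (by rw [Fin.val_zero]; omega)]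
      omega
    · simp only [vx, Fin.cons_succ]
      rw [Equiv.Perm.decomposeFin_symm_apply_succ, Equiv.swap_self, Equiv.refl_apply,
        Fin.val_succ]
      congr 1
      apply if_congr _ rfl rfl
      omega
  have hdoor : ∀ (x : Fin n → ℕ) (τ : Equiv.Perm (Fin n)), x ∈ X n M →
      (Door r (Fin.cons (M - 1) x) (Equiv.Perm.decomposeFin.symm (0, τ)) 0 ↔
        Full (fun z => r (Fin.cons M z) - 1) x τ) := by
    intro x τ hx
    have hpos : ∀ j, 1 ≤ r (Fin.cons M (vx x τ j)) := by
      intro j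
      have := H3 (Fin.cons M (vx x τ j)) (by
        intro i
        refine Fin.cases ?_ (fun i => ?_) i
        · simp
        · simpa using vx_le hx τ j i) 0 (by simp)
      simpa using this
    constructor
    · intro h c hc
      obtain ⟨j, hj, hj0, hjc⟩ := h (c + 1) (by omega) (by omega)
      obtain ⟨j, rfl⟩ : ∃ k, j = k + 1 := ⟨j - 1, by omega⟩
      rw [hvx] at hjc
      exact ⟨j, by omega, by simp only; rw [hjc]; rfl⟩
    · intro h c h1 h2
      obtain ⟨j, hj, hjc⟩ := h (c - 1) (by omega)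
      refine ⟨j + 1, by omega, by omega, ?_⟩
      rw [hvx]
      have := hpos j
      simp only at hjc
      omega
  apply Finset.card_nbij'
    (fun q : (Fin n → ℕ) × Equiv.Perm (Fin n) =>
      ((Fin.cons (M - 1) q.1 : Fin (n + 1) → ℕ), Equiv.Perm.decomposeFin.symm (0, q.2)))
    (fun q : (Fin (n + 1) → ℕ) × Equiv.Perm (Fin (n + 1)) =>
      ((Fin.tail q.1 : Fin n → ℕ), (Equiv.Perm.decomposeFin q.2).2))
  · rintro ⟨x, τ⟩ hq
    simp only [coe_filter, mem_product, mem_univ, and_true, Set.mem_ofPred_eq] at hq ⊢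
    obtain ⟨hx, hF⟩ := hq
    refine ⟨?_, (hdoor x τ hx).2 hF, ?_⟩
    · rw [mem_X] at hx ⊢
      intro i
      refine Fin.cases ?_ (fun i => ?_) i
      · rw [Fin.cons_zero]; omega
      · rw [Fin.cons_succ]; exact hx i
    · have : (Equiv.Perm.decomposeFin.symm (0, τ)).symm 0 = 0 := by
        rw [Equiv.symm_apply_eq, Equiv.Perm.decomposeFin_symm_apply_zero]
      rw [this, Fin.cons_zero]
      omega
  · rintro ⟨x, τ⟩ hq
    simp only [coe_filter, mem_product, mem_univ, and_true, Set.mem_ofPred_eq] at hq ⊢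
    obtain ⟨hx, hD, hxM⟩ := hq
    have hx' : Fin.tail x ∈ X n M := by
      rw [mem_X] at hx ⊢
      intro i
      exact hx i.succ
    refine ⟨hx', ?_⟩
    -- the special coordinate is `0`
    have hi0 : τ.symm 0 = 0 := by
      obtain ⟨j, hj, hj0, hjc⟩ := hD 1 le_rfl (by omega)
      have h1 := H3 (vx x τ j) (fun i => vx_le hx τ j i) (τ.symm 0) (by
        unfold vx
        rw [Equiv.apply_symm_apply, if_pos (by rw [Fin.val_zero]; omega)]
        exact hxM)
      rw [hjc] at h1
      apply Fin.ext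
      rw [Fin.val_zero]
      omega
    rw [hi0] at hxM
    have hτ0 : τ 0 = 0 := by
      rw [← hi0, Equiv.apply_symm_apply, hi0]
    have hxe : Fin.cons (M - 1) (Fin.tail x) = x := by
      have : M - 1 = x 0 := by omega
      rw [this]
      exact Fin.cons_self_tail x
    have hτe : Equiv.Perm.decomposeFin.symm (0, (Equiv.Perm.decomposeFin τ).2) = τ := by
      have h1 : Equiv.Perm.decomposeFin.symm ((Equiv.Perm.decomposeFin τ).1,
        (Equiv.Perm.decomposeFin τ).2) = τ := Equiv.symm_apply_apply _ τ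
      have h2 : (Equiv.Perm.decomposeFin τ).1 = 0 := by
        have h3 := Equiv.Perm.decomposeFin_symm_apply_zero (Equiv.Perm.decomposeFin τ).1
          (Equiv.Perm.decomposeFin τ).2
        rw [h1, hτ0] at h3
        exact h3.symm
      rw [h2] at h1
      exact h1
    have := hdoor (Fin.tail x) (Equiv.Perm.decomposeFin τ).2 hx'
    rw [hxe, hτe] at this
    exact this.1 hD
  · rintro ⟨x, τ⟩ hq
    simp
  · rintro ⟨x, τ⟩ hq
    simp only [coe_filter, mem_product, mem_univ, and_true, Set.mem_ofPred_eq] at hq ⊢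
    obtain ⟨hx, hD, hxM⟩ := hq
    have hi0 : τ.symm 0 = 0 := by
      obtain ⟨j, hj, hj0, hjc⟩ := hD 1 le_rfl (by omega)
      have h1 := H3 (vx x τ j) (fun i => vx_le hx τ j i) (τ.symm 0) (by
        unfold vx
        rw [Equiv.apply_symm_apply, if_pos (by rw [Fin.val_zero]; omega)]
        exact hxM)
      rw [hjc] at h1
      apply Fin.ext
      rw [Fin.val_zero]
      omega
    rw [hi0] at hxM
    have hτ0 : τ 0 = 0 := by
      rw [← hi0, Equiv.apply_symm_apply, hi0]
    have hxe : Fin.cons (M - 1) (Fin.tail x) = x := by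
      have : M - 1 = x 0 := by omega
      rw [this]
      exact Fin.cons_self_tail x
    have hτe : Equiv.Perm.decomposeFin.symm (0, (Equiv.Perm.decomposeFin τ).2) = τ := by
      have h1 : Equiv.Perm.decomposeFin.symm ((Equiv.Perm.decomposeFin τ).1,
        (Equiv.Perm.decomposeFin τ).2) = τ := Equiv.symm_apply_apply _ τ
      have h2 : (Equiv.Perm.decomposeFin τ).1 = 0 := by
        have h3 := Equiv.Perm.decomposeFin_symm_apply_zero (Equiv.Perm.decomposeFin τ).1
          (Equiv.Perm.decomposeFin τ).2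
        rw [h1, hτ0] at h3
        exact h3.symm
      rw [h2] at h1
      exact h1
    rw [hxe, hτe]

/-- Kuhn's cubical Sperner lemma, in counting form. -/
theorem kuhn_sum (M : ℕ) (hM : 0 < M) (n : ℕ) : ∀ (r : (Fin n → ℕ) → ℕ)
    (_ : ∀ x : Fin n → ℕ, (∀ i, x i ≤ M) → r x ≤ n)
    (_ : ∀ x : Fin n → ℕ, (∀ i, x i ≤ M) → ∀ i, x i = 0 → r x ≠ i + 1)
    (_ : ∀ x : Fin n → ℕ, (∀ i, x i ≤ M) → ∀ i, x i = M → i + 1 ≤ r x),
    ∑ q ∈ X n M ×ˢ (univ : Finset (Equiv.Perm (Fin n))), ind (Full r q.1 q.2) = 1 := by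
  induction n with
  | zero =>
    intro r H1 _ _
    have hX : X 0 M = {fun i => i.elim0} := by
      ext x
      simp only [mem_X, mem_singleton]
      constructor
      · intro _; funext i; exact i.elim0
      · intro _ i; exact i.elim0
    have hU : (univ : Finset (Equiv.Perm (Fin 0))) = {1} := by
      ext τ
      simp only [mem_univ, mem_singleton, true_iff]
      exact Subsingleton.elim _ _
    rw [hX, hU, Finset.singleton_product_singleton, Finset.sum_singleton, ind_pos]
    intro c hc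
    obtain rfl : c = 0 := by omega
    exact ⟨0, le_rfl, Nat.le_zero.1 (H1 _ (fun i => i.elim0))⟩
  | succ n ih =>
    intro r H1 H2 H3
    have hP : ∀ q ∈ X (n + 1) M ×ˢ (univ : Finset (Equiv.Perm (Fin (n + 1)))),
        ind (Full r q.1 q.2) = ∑ k ∈ range (n + 2), ind (Door r q.1 q.2 k) := by
      rintro ⟨x, τ⟩ hq
      simp only [mem_product, mem_univ, and_true] at hq
      exact (parity (n + 1) (fun j => r (vx x τ j))
        (fun j _ => H1 _ (fun i => vx_le hq τ j i))).symm
    rw [Finset.sum_congr rfl hP, Finset.sum_comm, Finset.sum_range_succ, Finset.sum_range_succ']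
    have hinner : ∑ k ∈ range n, ∑ q ∈ X (n + 1) M ×ˢ (univ : Finset (Equiv.Perm (Fin (n + 1)))),
        ind (Door r q.1 q.2 (k + 1)) = 0 := by
      apply Finset.sum_eq_zero
      intro k hk
      have := mem_range.1 hk
      exact sum_inner r (Nat.succ_pos k) (by omega) M
    rw [hinner, zero_add, sum_last r M H2, ← Finset.sum_add_distrib]
    have hcomb : ∀ q ∈ X (n + 1) M ×ˢ (univ : Finset (Equiv.Perm (Fin (n + 1)))),
        ind (Door r q.1 q.2 0) + ind (Door r q.1 q.2 0 ∧ q.1 (q.2.symm 0) + 1 < M) =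
        ind (Door r q.1 q.2 0 ∧ q.1 (q.2.symm 0) + 1 = M) := by
      rintro ⟨x, τ⟩ hq
      simp only [mem_product, mem_univ, and_true, mem_X] at hq ⊢
      have hx := hq (τ.symm 0)
      by_cases hD : Door r x τ 0
      · by_cases hlt : x (τ.symm 0) + 1 < M
        · rw [ind_pos hD, ind_pos ⟨hD, hlt⟩, ind_neg (fun h => by omega)]
          decide
        · rw [ind_pos hD, ind_neg (fun h => hlt h.2), ind_pos ⟨hD, by omega⟩]
          decide
      · rw [ind_neg hD, ind_neg (fun h => hD h.1), ind_neg (fun h => hD h.1)]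
        decide
    rw [Finset.sum_congr rfl hcomb, sum_face r M hM H3]
    apply ih
    · intro x hx
      have := H1 (Fin.cons M x) (by
        intro i
        refine Fin.cases ?_ (fun i => ?_) i
        · simp
        · simpa using hx i)
      show r (Fin.cons M x) - 1 ≤ n
      omega
    · intro x hx i hi
      have hle : ∀ i, (Fin.cons M x : Fin (n + 1) → ℕ) i ≤ M := by
        intro i
        refine Fin.cases ?_ (fun i => ?_) i
        · simp
        · simpa using hx i
      have h1 := H2 (Fin.cons M x) hle i.succ (by rw [Fin.cons_succ]; exact hi)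
      have h2 := H3 (Fin.cons M x) hle 0 (by rw [Fin.cons_zero])
      rw [Fin.val_succ] at h1
      rw [Fin.val_zero] at h2
      show r (Fin.cons M x) - 1 ≠ i + 1
      omega
    · intro x hx i hi
      have hle : ∀ i, (Fin.cons M x : Fin (n + 1) → ℕ) i ≤ M := by
        intro i
        refine Fin.cases ?_ (fun i => ?_) i
        · simp
        · simpa using hx i
      have h1 := H3 (Fin.cons M x) hle i.succ (by rw [Fin.cons_succ]; exact hi)
      rw [Fin.val_succ] at h1
      show i + 1 ≤ r (Fin.cons M x) - 1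
      omega

/-- Kuhn's cubical Sperner lemma. -/
theorem kuhn {n M : ℕ} (hM : 0 < M) (r : (Fin n → ℕ) → ℕ)
    (H1 : ∀ x : Fin n → ℕ, (∀ i, x i ≤ M) → r x ≤ n)
    (H2 : ∀ x : Fin n → ℕ, (∀ i, x i ≤ M) → ∀ i, x i = 0 → r x ≠ i + 1)
    (H3 : ∀ x : Fin n → ℕ, (∀ i, x i ≤ M) → ∀ i, x i = M → i + 1 ≤ r x) :
    ∃ (x : Fin n → ℕ) (τ : Equiv.Perm (Fin n)), (∀ i, x i < M) ∧
      ∀ c, c ≤ n → ∃ j, j ≤ n ∧ r (vx x τ j) = c := by
  have h := kuhn_sum M hM n r H1 H2 H3
  obtain ⟨q, hq, hne⟩ := Finset.exists_ne_zero_of_sum_ne_zero (by rw [h]; decide)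
  simp only [mem_product, mem_univ, and_true, mem_X] at hq
  refine ⟨q.1, q.2, hq, ?_⟩
  by_contra hF
  exact hne (ind_neg hF)

end Pool.Agent.H85.Kuhn
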