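import Mathlib

/-!
Covering dimension.
-/

namespace Pool.Agent.H85

/-- `CovDimLE X n`: the covering dimension of `X` is at most `n`, i.e. every finite open cover of
`X` has a finite open refinement (covering `X`) of which no point of `X` lies in more than `n + 1`
members. -/
def CovDimLE (X : Type) [TopologicalSpace X] (n : ℕ) : Prop :=
  ∀ 𝒰 : Set (Set X), 𝒰.Finite → (∀ U ∈ 𝒰, IsOpen U) → ⋃₀ 𝒰 = Set.univ →
    ∃ 𝒱 : Set (Set X), 𝒱.Finite ∧ (∀ V ∈ 𝒱, IsOpen V) ∧ ⋃₀ 𝒱 = Set.univ ∧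
      (∀ V ∈ 𝒱, ∃ U ∈ 𝒰, V ⊆ U) ∧ ∀ x : X, {V | V ∈ 𝒱 ∧ x ∈ V}.ncard ≤ n + 1

end Pool.Agent.H85
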