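import Pool.Agent.H85.Kuhn
import Pool.Agent.H85.PeanoDefs

/-!
A lower bound for the covering dimension by grid maps.
-/

open Set Topology Uniformity

namespace Pool.Agent.H85.CoverDim

/-- the largest missing index plus one -/
def rho {N : ℕ} (s : Finset (Fin N)) : ℕ := sᶜ.sup (fun i => (i : ℕ) + 1)

theorem rho_le {N : ℕ} (s : Finset (Fin N)) : rho s ≤ N := by
  unfold rho
  apply Finset.sup_le
  intro i _
  exact i.2

theorem rho_ne {N : ℕ} {s : Finset (Fin N)} {i : Fin N} (hi : i ∈ s) : rho s ≠ i + 1 := by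
  intro h
  unfold rho at h
  have hne : sᶜ.Nonempty := by
    rw [Finset.nonempty_iff_ne_empty]
    intro he
    rw [he] at h
    simp at h
  obtain ⟨j, hj, hje⟩ := Finset.exists_mem_eq_sup sᶜ hne (fun i => (i : ℕ) + 1)
  rw [h] at hje
  have : i = j := Fin.ext (by omega)
  rw [Finset.mem_compl] at hj
  exact hj (this ▸ hi)

theorem le_rho {N : ℕ} {s : Finset (Fin N)} {i : Fin N} (hi : i ∉ s) : (i : ℕ) + 1 ≤ rho s :=
  Finset.le_sup (f := fun i : Fin N => (i : ℕ) + 1) (by simpa using hi)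

/-- Grid maps bound the covering dimension from below. -/
theorem not_covDimLE {Y : Type} [UniformSpace Y] [CompactSpace Y] {n : ℕ}
    (A B : Fin (n + 1) → Set Y) (hA : ∀ i, IsClosed (A i)) (hB : ∀ i, IsClosed (B i))
    (hAB : ∀ i, Disjoint (A i) (B i))
    (hG : ∀ W ∈ 𝓤 Y, ∃ (M : ℕ) (g : (Fin (n + 1) → ℕ) → Y), 0 < M ∧
      (∀ x : Fin (n + 1) → ℕ, (∀ i, x i ≤ M) → ∀ i, x i = 0 → g x ∈ A i) ∧
      (∀ x : Fin (n + 1) → ℕ, (∀ i, x i ≤ M) → ∀ i, x i = M → g x ∈ B i) ∧
      ∀ x y : Fin (n + 1) → ℕ, (∀ i, x i ≤ M) → (∀ i, y i ≤ M) →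
        (∀ i, x i ≤ y i + 1 ∧ y i ≤ x i + 1) → (g x, g y) ∈ W) :
    ¬ CovDimLE Y n := by
  classical
  intro hdim
  let U : Finset (Fin (n + 1)) → Set Y := fun s =>
    (⋂ i ∈ s, (B i)ᶜ) ∩ ⋂ i ∈ sᶜ, (A i)ᶜ
  have hUo : ∀ s, IsOpen (U s) := by
    intro s
    apply IsOpen.inter
    · exact isOpen_biInter_finset (fun i _ => (hB i).isOpen_compl)
    · exact isOpen_biInter_finset (fun i _ => (hA i).isOpen_compl)
  have hUc : ⋃₀ (range U) = univ := by
    rw [eq_univ_iff_forall]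
    intro y
    refine ⟨_, ⟨Finset.univ.filter (fun i => y ∉ B i), rfl⟩, ?_, ?_⟩
    · simp only [Finset.mem_filter, Finset.mem_univ, true_and, mem_iInter, mem_compl_iff]
      exact fun i hi => hi
    · simp only [Finset.mem_compl, Finset.mem_filter, Finset.mem_univ, true_and, not_not,
        mem_iInter, mem_compl_iff]
      exact fun i hi hiA => Set.disjoint_left.1 (hAB i) hiA hi
  obtain ⟨𝒱, hVf, hVo, hVc, hVr, hVn⟩ := hdim (range U) (finite_range U)
    (by rintro _ ⟨s, rfl⟩; exact hUo s) hUc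
  have hVs : ∀ V ∈ 𝒱, ∃ s, V ⊆ U s := by
    intro V hV
    obtain ⟨_, ⟨s, rfl⟩, hs⟩ := hVr V hV
    exact ⟨s, hs⟩
  choose! s hs using hVs
  obtain ⟨W, hW, hWV⟩ := lebesgue_number_lemma_sUnion (isCompact_univ (X := Y)) hVo
    (by rw [hVc])
  have hWV' : ∀ y : Y, ∃ V ∈ 𝒱, UniformSpace.ball y W ⊆ V := fun y => hWV y trivial
  choose v hv1 hv2 using hWV'
  have hvy : ∀ y, y ∈ v y := fun y => hv2 y (UniformSpace.mem_ball_self y hW)
  obtain ⟨M, g, hM, hgA, hgB, hgW⟩ := hG W hW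
  obtain ⟨x, τ, hx, hfull⟩ := Kuhn.kuhn hM (fun x => rho (s (v (g x))))
    (fun x _ => rho_le _)
    (by
      intro x hx i hi
      apply rho_ne
      by_contra his
      have h1 := hs _ (hv1 (g x)) (hvy (g x))
      have h2 := h1.2
      simp only [Finset.mem_compl, mem_iInter, mem_compl_iff] at h2
      exact h2 i his (hgA x hx i hi))
    (by
      intro x hx i hi
      apply le_rho
      intro his
      have h1 := hs _ (hv1 (g x)) (hvy (g x))
      have h2 := h1.1
      simp only [mem_iInter, mem_compl_iff] at h2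
      exact h2 i his (hgB x hx i hi))
  choose! j hj1 hj2 using hfull
  set y0 := g x with hy0
  -- the members `v (g (vx x τ (j c)))`, `c ≤ n + 1`, are distinct and contain `y0`
  have hinj : Set.InjOn (fun c => v (g (Kuhn.vx x τ (j c)))) (Finset.range (n + 2)) := by
    intro c hc c' hc' he
    simp only [Finset.coe_range, mem_Iio] at hc hc'
    simp only at he
    have h1 := hj2 c (by omega)
    have h2 := hj2 c' (by omega)
    rw [he] at h1
    exact h1.symm.trans h2
  have hmem : ∀ c ∈ Finset.range (n + 2), v (g (Kuhn.vx x τ (j c))) ∈ {V | V ∈ 𝒱 ∧ y0 ∈ V} := by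
    intro c _
    refine ⟨hv1 _, hv2 _ ?_⟩
    apply hgW
    · intro i
      unfold Kuhn.vx
      have := hx i
      split_ifs <;> omega
    · intro i
      exact (hx i).le
    · intro i
      unfold Kuhn.vx
      split_ifs <;> omega
  have hfin : {V | V ∈ 𝒱 ∧ y0 ∈ V}.Finite := hVf.subset (fun V hV => hV.1)
  have hcard : n + 2 ≤ {V | V ∈ 𝒱 ∧ y0 ∈ V}.ncard := by
    have h1 : ((Finset.range (n + 2)).image (fun c => v (g (Kuhn.vx x τ (j c))))).card = n + 2 := by
      rw [Finset.card_image_of_injOn hinj, Finset.card_range]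
    rw [← h1, ← Set.ncard_coe_finset]
    apply Set.ncard_le_ncard _ hfin
    intro V hV
    rw [Finset.coe_image] at hV
    obtain ⟨c, hc, rfl⟩ := hV
    exact hmem c (by exact_mod_cast hc)
  have := hVn y0
  omega

end Pool.Agent.H85.CoverDim
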