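import Mathlib

/-!
Crooked maps of the interval onto itself.
-/

open Set

namespace Pool.Agent.H85.Crook

/-- `c` is crooked on `[a, b]`. -/
def Cr (c : ℕ → ℤ) (a b : ℕ) : Prop :=
  ∀ i j, a ≤ i → i ≤ j → j ≤ b →
    ∃ u v, i ≤ u ∧ u ≤ v ∧ v ≤ j ∧ |c u - c j| ≤ 1 ∧ |c v - c i| ≤ 1

/-- `c` has steps at most one on `[a, b]`. -/
def St (c : ℕ → ℤ) (a b : ℕ) : Prop := ∀ i, a ≤ i → i < b → |c (i + 1) - c i| ≤ 1

theorem ivt_up {c : ℕ → ℤ} {a : ℕ} (k : ℕ) : St c a (a + k) → ∀ h : ℤ, c a ≤ h → h ≤ c (a + k) →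
    ∃ i, a ≤ i ∧ i ≤ a + k ∧ c i = h := by
  induction k with
  | zero =>
    intro _ h h1 h2
    exact ⟨a, le_rfl, le_rfl, le_antisymm h1 h2⟩
  | succ k ih =>
    intro hs h h1 h2
    by_cases hk : h ≤ c (a + k)
    · obtain ⟨i, hi1, hi2, hi3⟩ := ih (fun i h1 h2 => hs i h1 (by omega)) h h1 hk
      exact ⟨i, hi1, by omega, hi3⟩
    · push Not at hk
      have h3 := hs (a + k) (by omega) (by omega)
      rw [abs_le] at h3
      have h4 : c (a + (k + 1)) = c (a + k + 1) := rfl
      refine ⟨a + (k + 1), by omega, le_rfl, ?_⟩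
      omega

theorem ivt {c : ℕ → ℤ} {a b : ℕ} (hab : a ≤ b) (hs : St c a b) {h : ℤ}
    (hh : (c a ≤ h ∧ h ≤ c b) ∨ (c b ≤ h ∧ h ≤ c a)) : ∃ i, a ≤ i ∧ i ≤ b ∧ c i = h := by
  obtain ⟨k, rfl⟩ := Nat.exists_eq_add_of_le hab
  rcases hh with ⟨h1, h2⟩ | ⟨h1, h2⟩
  · exact ivt_up k hs h h1 h2
  · have hs' : St (fun i => -c i) a (a + k) := by
      intro i h1 h2
      have := hs i h1 h2
      rw [abs_le] at this ⊢
      constructor <;> simp only <;> omega
    obtain ⟨i, hi1, hi2, hi3⟩ := ivt_up k hs' (-h) (by simpa using h2) (by simpa using h1)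
    exact ⟨i, hi1, hi2, by simpa using hi3⟩

/-- Gluing three crooked pieces. -/
theorem glue {c : ℕ → ℤ} {m₁ m₂ b : ℕ} {n : ℤ} (h12 : m₁ ≤ m₂) (h2b : m₂ ≤ b)
    (hm1 : c m₁ = n - 1) (hm2 : c m₂ = 1)
    (r1 : ∀ i, i ≤ m₁ → 0 ≤ c i ∧ c i ≤ n - 1)
    (r2 : ∀ i, m₁ ≤ i → i ≤ m₂ → 1 ≤ c i ∧ c i ≤ n - 1)
    (r3 : ∀ i, m₂ ≤ i → i ≤ b → 1 ≤ c i ∧ c i ≤ n)
    (s : St c 0 b) (c1 : Cr c 0 m₁) (c2 : Cr c m₁ m₂) (c3 : Cr c m₂ b) : Cr c 0 b := by
  intro i j _ hij hjb
  have hsub : ∀ x y, y ≤ b → St c x y := fun x y hy k h1 h2 => s k (by omega) (by omega)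
  have hn2 := r2 m₁ le_rfl h12
  rcases le_or_gt j m₁ with hj1 | hj1
  · exact c1 i j (by omega) hij hj1
  rcases le_or_gt j m₂ with hj2 | hj2
  · -- `j` in the second piece
    rcases le_or_gt m₁ i with hi1 | hi1
    · exact c2 i j hi1 hij hj2
    have ri := r1 i hi1.le
    have rj := r2 j hj1.le hj2
    rcases le_or_gt (c i) (c j) with hc | hc
    · obtain ⟨x, hx1, hx2, hx3⟩ := ivt hi1.le (hsub i m₁ (by omega)) (h := c j)
        (Or.inl ⟨hc, by omega⟩)
      obtain ⟨u, v, h1, h2, h3, h4, h5⟩ := c1 i x (by omega) hx1 hx2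
      exact ⟨u, v, h1, h2, by omega, by rwa [← hx3], h5⟩
    · obtain ⟨x, hx1, hx2, hx3⟩ := ivt hj1.le (hsub m₁ j (by omega)) (h := c i)
        (Or.inr ⟨by omega, by omega⟩)
      obtain ⟨u, v, h1, h2, h3, h4, h5⟩ := c2 x j hx1 hx2 hj2
      exact ⟨u, v, by omega, h2, h3, h4, by rwa [← hx3]⟩
  · -- `j` in the third piece
    rcases le_or_gt m₂ i with hi2 | hi2
    · exact c3 i j hi2 hij hjb
    have rj := r3 j hj2.le hjb
    rcases le_or_gt m₁ i with hi1 | hi1
    · have ri := r2 i hi1 hi2.le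
      rcases le_or_gt (c i) (c j) with hc | hc
      · obtain ⟨x, hx1, hx2, hx3⟩ := ivt hj2.le (hsub m₂ j hjb) (h := c i)
          (Or.inl ⟨by omega, hc⟩)
        obtain ⟨u, v, h1, h2, h3, h4, h5⟩ := c3 x j hx1 hx2 hjb
        exact ⟨u, v, by omega, h2, h3, h4, by rwa [← hx3]⟩
      · obtain ⟨x, hx1, hx2, hx3⟩ := ivt hi2.le (hsub i m₂ h2b) (h := c j)
          (Or.inr ⟨by omega, by omega⟩)
        obtain ⟨u, v, h1, h2, h3, h4, h5⟩ := c2 i x hi1 hx1 hx2
        exact ⟨u, v, h1, h2, by omega, by rwa [← hx3], h5⟩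
    · have ri := r1 i hi1.le
      rcases le_or_gt (c i) (c j) with hc | hc
      · -- rise to `min (c j) (n - 1)` in the first piece, fall to `max (c i) 1` in the second
        obtain ⟨x, hx1, hx2, hx3⟩ := ivt hi1.le (hsub i m₁ (by omega)) (h := min (c j) (n - 1))
          (Or.inl ⟨by omega, by omega⟩)
        obtain ⟨y, hy1, hy2, hy3⟩ := ivt h12 (hsub m₁ m₂ (by omega)) (h := max (c i) 1)
          (Or.inr ⟨by omega, by omega⟩)
        refine ⟨x, y, hx1, by omega, by omega, ?_, ?_⟩
        · rw [hx3, abs_le]; omega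
        · rw [hy3, abs_le]; omega
      · obtain ⟨x, hx1, hx2, hx3⟩ := ivt h12 (hsub m₁ m₂ (by omega)) (h := c i)
          (Or.inr ⟨by omega, by omega⟩)
        obtain ⟨y, hy1, hy2, hy3⟩ := ivt hx2 (hsub x m₂ (by omega)) (h := c j)
          (Or.inr ⟨by omega, by omega⟩)
        obtain ⟨u, v, h1, h2, h3, h4, h5⟩ := c2 x y hx1 hy1 hy2
        exact ⟨u, v, by omega, h2, by omega, by rwa [← hy3], by rwa [← hx3]⟩

/-- A crooked word from `0` to `n`. -/
structure Word (n : ℕ) (l : ℕ) (c : ℕ → ℤ) : Prop where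
  zero : c 0 = 0
  last : c l = n
  range : ∀ i, i ≤ l → 0 ≤ c i ∧ c i ≤ n
  step : St c 0 l
  crook : Cr c 0 l

theorem exists_word (n : ℕ) : ∃ l c, Word n l c := by
  induction n using Nat.strong_induction_on with
  | _ n ih =>
    rcases Nat.lt_or_ge n 3 with hn | hn
    · -- the identity works
      refine ⟨n, fun i => (i : ℤ), ⟨by simp, rfl, fun i hi => ⟨by omega, by simpa using hi⟩, ?_, ?_⟩⟩
      · intro i _ _
        simp
      · intro i j _ hij hj
        by_cases h : j ≤ i + 1
        · refine ⟨i, j, le_rfl, hij, le_rfl, ?_, ?_⟩ <;> rw [abs_le] <;> simp only <;> omega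
        · refine ⟨i + 1, i + 1, by omega, le_rfl, by omega, ?_, ?_⟩ <;> rw [abs_le] <;>
            simp only <;> omega
    · obtain ⟨l₁, c₁, w₁⟩ := ih (n - 1) (by omega)
      obtain ⟨l₂, c₂, w₂⟩ := ih (n - 2) (by omega)
      have hn1 : ((n - 1 : ℕ) : ℤ) = n - 1 := by omega
      have hn2 : ((n - 2 : ℕ) : ℤ) = n - 2 := by omega
      have hl1 := w₁.last
      have hl2 := w₂.last
      rw [hn1] at hl1
      rw [hn2] at hl2
      set c : ℕ → ℤ := fun i => if i ≤ l₁ then c₁ i else
        if i ≤ l₁ + l₂ then 1 + c₂ (l₁ + l₂ - i) else 1 + c₁ (i - (l₁ + l₂)) with hc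
      have e1 : ∀ i, i ≤ l₁ → c i = c₁ i := fun i hi => by simp only [hc]; rw [if_pos hi]
      have e2 : ∀ i, l₁ ≤ i → i ≤ l₁ + l₂ → c i = 1 + c₂ (l₁ + l₂ - i) := by
        intro i h1 h2
        rcases h1.eq_or_lt with rfl | h1
        · rw [e1 _ le_rfl, hl1]
          have : l₁ + l₂ - l₁ = l₂ := by omega
          rw [this, hl2]; ring
        · simp only [hc]
          rw [if_neg (by omega), if_pos h2]
      have e3 : ∀ i, l₁ + l₂ ≤ i → c i = 1 + c₁ (i - (l₁ + l₂)) := by
        intro i h1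
        rcases h1.eq_or_lt with rfl | h1
        · rw [e2 _ (by omega) le_rfl, Nat.sub_self, w₂.zero, w₁.zero]
        · simp only [hc]
          rw [if_neg (by omega), if_neg (by omega)]
      refine ⟨l₁ + l₂ + l₁, c, ⟨?_, ?_, ?_, ?_, ?_⟩⟩
      · rw [e1 _ (by omega), w₁.zero]
      · rw [e3 _ (by omega)]
        have : l₁ + l₂ + l₁ - (l₁ + l₂) = l₁ := by omega
        rw [this, hl1]; ring
      · intro i hi
        rcases le_total i l₁ with h | h
        · rw [e1 _ h]
          have := w₁.range i h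
          omega
        rcases le_total i (l₁ + l₂) with h' | h'
        · rw [e2 _ h h']
          have := w₂.range (l₁ + l₂ - i) (by omega)
          omega
        · rw [e3 _ h']
          have := w₁.range (i - (l₁ + l₂)) (by omega)
          omega
      · intro i _ hi
        rcases Nat.lt_or_ge i l₁ with h | h
        · rw [e1 _ (by omega), e1 _ (by omega)]
          exact w₁.step i (by omega) h
        rcases Nat.lt_or_ge i (l₁ + l₂) with h' | h'
        · rw [e2 _ (by omega) (by omega), e2 _ h (by omega)]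
          have := w₂.step (l₁ + l₂ - (i + 1)) (by omega) (by omega)
          have e : l₁ + l₂ - (i + 1) + 1 = l₁ + l₂ - i := by omega
          rw [e] at this
          rw [abs_le] at this ⊢
          omega
        · rw [e3 _ (by omega), e3 _ h']
          have := w₁.step (i - (l₁ + l₂)) (by omega) (by omega)
          have e : i - (l₁ + l₂) + 1 = i + 1 - (l₁ + l₂) := by omega
          rw [e] at this
          rw [abs_le] at this ⊢
          omega
      · apply glue (m₁ := l₁) (m₂ := l₁ + l₂) (n := n) (by omega) (by omega)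
        · rw [e1 _ le_rfl, hl1]
        · rw [e3 _ le_rfl, Nat.sub_self, w₁.zero]; ring
        · intro i hi
          rw [e1 _ hi]
          have := w₁.range i hi
          omega
        · intro i h1 h2
          rw [e2 _ h1 h2]
          have := w₂.range (l₁ + l₂ - i) (by omega)
          omega
        · intro i h1 h2
          rw [e3 _ h1]
          have := w₁.range (i - (l₁ + l₂)) (by omega)
          omega
        · intro i _ hi
          rcases Nat.lt_or_ge i l₁ with h | h
          · rw [e1 _ (by omega), e1 _ (by omega)]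
            exact w₁.step i (by omega) h
          rcases Nat.lt_or_ge i (l₁ + l₂) with h' | h'
          · rw [e2 _ (by omega) (by omega), e2 _ h (by omega)]
            have := w₂.step (l₁ + l₂ - (i + 1)) (by omega) (by omega)
            have e : l₁ + l₂ - (i + 1) + 1 = l₁ + l₂ - i := by omega
            rw [e] at this
            rw [abs_le] at this ⊢
            omega
          · rw [e3 _ (by omega), e3 _ h']
            have := w₁.step (i - (l₁ + l₂)) (by omega) (by omega)
            have e : i - (l₁ + l₂) + 1 = i + 1 - (l₁ + l₂) := by omega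
            rw [e] at this
            rw [abs_le] at this ⊢
            omega
        · intro i j h0 hij hj
          obtain ⟨u, v, h1, h2, h3, h4, h5⟩ := w₁.crook i j h0 hij hj
          refine ⟨u, v, h1, h2, h3, ?_, ?_⟩
          · rwa [e1 _ (by omega), e1 _ (by omega)]
          · rwa [e1 _ (by omega), e1 _ (by omega)]
        · intro i j h0 hij hj
          obtain ⟨u, v, h1, h2, h3, h4, h5⟩ := w₂.crook (l₁ + l₂ - j) (l₁ + l₂ - i)
            (by omega) (by omega) (by omega)
          refine ⟨l₁ + l₂ - v, l₁ + l₂ - u, by omega, by omega, by omega, ?_, ?_⟩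
          · rw [e2 _ (by omega) (by omega), e2 _ (by omega) (by omega)]
            have e : l₁ + l₂ - (l₁ + l₂ - v) = v := by omega
            rw [e]
            rw [abs_le] at h5 ⊢
            omega
          · rw [e2 _ (by omega) (by omega), e2 _ (by omega) (by omega)]
            have e : l₁ + l₂ - (l₁ + l₂ - u) = u := by omega
            rw [e]
            rw [abs_le] at h4 ⊢
            omega
        · intro i j h0 hij hj
          obtain ⟨u, v, h1, h2, h3, h4, h5⟩ := w₁.crook (i - (l₁ + l₂)) (j - (l₁ + l₂))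
            (by omega) (by omega) (by omega)
          refine ⟨l₁ + l₂ + u, l₁ + l₂ + v, by omega, by omega, by omega, ?_, ?_⟩
          · rw [e3 _ (by omega), e3 _ (by omega)]
            have e : l₁ + l₂ + u - (l₁ + l₂) = u := by omega
            rw [e]
            rw [abs_le] at h4 ⊢
            omega
          · rw [e3 _ (by omega), e3 _ (by omega)]
            have e : l₁ + l₂ + v - (l₁ + l₂) = v := by omega
            rw [e]
            rw [abs_le] at h5 ⊢
            omega

end Pool.Agent.H85.Crook
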