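import Mathlib

/-!
Closed preorders on compact Hausdorff spaces: monotone Urysohn functions, strictly monotone
functions, and the contraction of a compact space along a closed tree-like preorder.
-/

open Set Topology

namespace Pool.Agent.H85.Nach

variable {Z : Type*} [TopologicalSpace Z]

/-- A closed preorder. -/
structure ClosedPre (le : Z → Z → Prop) : Prop where
  refl : ∀ a, le a a
  trans : ∀ a b c, le a b → le b c → le a c
  closed : IsClosed {q : Z × Z | le q.1 q.2}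

variable {le : Z → Z → Prop}

theorem ClosedPre.down [CompactSpace Z] (h : ClosedPre le) {c : Set Z} (hc : IsClosed c) :
    IsClosed {a | ∃ b ∈ c, le a b} := by
  have h1 : IsClosed ({q : Z × Z | le q.1 q.2} ∩ Prod.snd ⁻¹' c) :=
    h.closed.inter (hc.preimage continuous_snd)
  have h2 := isClosedMap_fst_of_compactSpace (X := Z) (Y := Z) _ h1
  convert h2 using 1
  ext a
  constructor
  · rintro ⟨b, hb, hab⟩
    exact ⟨(a, b), ⟨hab, hb⟩, rfl⟩
  · rintro ⟨⟨a', b⟩, ⟨hab, hb⟩, rfl⟩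
    exact ⟨b, hb, hab⟩

theorem ClosedPre.up [CompactSpace Z] (h : ClosedPre le) {c : Set Z} (hc : IsClosed c) :
    IsClosed {a | ∃ b ∈ c, le b a} := by
  have h1 : IsClosed ({q : Z × Z | le q.1 q.2} ∩ Prod.fst ⁻¹' c) :=
    h.closed.inter (hc.preimage continuous_fst)
  have h2 := isClosedMap_snd_of_compactSpace (X := Z) (Y := Z) _ h1
  convert h2 using 1
  ext a
  constructor
  · rintro ⟨b, hb, hab⟩
    exact ⟨(b, a), ⟨hab, hb⟩, rfl⟩
  · rintro ⟨⟨b, a'⟩, ⟨hab, hb⟩, rfl⟩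
    exact ⟨b, hb, hab⟩

/-- Approximations are monotone. -/
theorem approx_mono {P : Set Z → Set Z → Prop}
    (hP : ∀ c u, P c u → ∀ a b, le a b → b ∈ u → a ∈ u) (n : ℕ) :
    ∀ (c : Urysohns.CU P) (a b : Z), le a b → c.approx n a ≤ c.approx n b := by
  induction n with
  | zero =>
    intro c a b hab
    simp only [Urysohns.CU.approx]
    by_cases hb : b ∈ c.U
    · have ha : a ∈ c.U := hP _ _ c.P_C_U a b hab hb
      rw [indicator_of_notMem (by simpa using ha), indicator_of_notMem (by simpa using hb)]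
    · rw [indicator_of_mem (show b ∈ c.Uᶜ from hb)]
      exact indicator_apply_le' (fun _ => le_rfl) fun _ => zero_le_one
  | succ n ih =>
    intro c a b hab
    simp only [Urysohns.CU.approx]
    exact midpoint_le_midpoint (ih _ a b hab) (ih _ a b hab)

/-- Monotone Urysohn lemma (Nachbin). -/
theorem exists_mono [CompactSpace Z] [T2Space Z] (h : ClosedPre le) {c u : Set Z}
    (hc : IsClosed c) (hu : IsOpen u) (hlow : ∀ a b, le a b → b ∈ u → a ∈ u) (hcu : c ⊆ u) :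
    ∃ g : C(Z, ℝ), (∀ a b, le a b → g a ≤ g b) ∧ (∀ x ∈ c, g x = 0) ∧ (∀ x, x ∉ u → g x = 1) ∧
      ∀ x, g x ∈ Icc (0 : ℝ) 1 := by
  let P : Set Z → Set Z → Prop := fun _ u => ∀ a b, le a b → b ∈ u → a ∈ u
  let C : Urysohns.CU P :=
  { C := c
    U := u
    P_C_U := hlow
    closed_C := hc
    open_U := hu
    subset := hcu
    hP := by
      intro c u hc hlow hu hcu
      have hc' : IsClosed {a | ∃ b ∈ c, le a b} := h.down hc
      have hc'u : {a | ∃ b ∈ c, le a b} ⊆ u := by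
        rintro a ⟨b, hb, hab⟩
        exact hlow a b hab (hcu hb)
      obtain ⟨w, hwo, hcw, hwu⟩ := normal_exists_closure_subset hc' hu hc'u
      have hv : IsClosed {a | ∃ b ∈ wᶜ, le b a} := h.up hwo.isClosed_compl
      have hvw : {a | ∃ b ∈ wᶜ, le b a}ᶜ ⊆ w := by
        intro a ha
        by_contra haw
        exact ha ⟨a, haw, h.refl a⟩
      have hvlow : ∀ a b, le a b → b ∈ {a | ∃ b ∈ wᶜ, le b a}ᶜ → a ∈ {a | ∃ b ∈ wᶜ, le b a}ᶜ := by
        rintro a b hab hb ⟨x, hx, hxa⟩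
        exact hb ⟨x, hx, h.trans _ _ _ hxa hab⟩
      refine ⟨{a | ∃ b ∈ wᶜ, le b a}ᶜ, hv.isOpen_compl, ?_, ?_, hvlow, hlow⟩
      · rintro a ha ⟨b, hb, hba⟩
        exact hb (hcw ⟨a, ha, hba⟩)
      · exact (closure_mono hvw).trans hwu }
  refine ⟨⟨C.lim, C.continuous_lim⟩, ?_, C.lim_of_mem_C, fun x hx => C.lim_of_notMem_U x hx,
    C.lim_mem_Icc⟩
  intro a b hab
  exact le_of_tendsto_of_tendsto' (C.tendsto_approx_atTop a) (C.tendsto_approx_atTop b)
    (fun n => approx_mono (fun _ _ h => h) n C a b hab)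

/-- Separating a pair. -/
theorem exists_mono_pair [CompactSpace Z] [T2Space Z] (h : ClosedPre le) {a b : Z}
    (hab : ¬ le b a) : ∃ g : C(Z, ℝ), (∀ x y, le x y → g x ≤ g y) ∧ (∀ x, g x ∈ Icc (0 : ℝ) 1) ∧
      g a < g b := by
  have hd : IsClosed {x | ∃ y ∈ ({a} : Set Z), le x y} := h.down isClosed_singleton
  have hu : IsClosed {x | ∃ y ∈ ({b} : Set Z), le y x} := h.up isClosed_singleton
  obtain ⟨g, hg1, hg2, hg3, hg4⟩ := exists_mono h hd hu.isOpen_compl (by
    rintro x y hxy hy ⟨z, hz, hzx⟩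
    exact hy ⟨z, hz, h.trans _ _ _ hzx hxy⟩) (by
    rintro x ⟨y, hy, hxy⟩ ⟨z, hz, hzx⟩
    rw [mem_singleton_iff] at hy hz
    subst hy; subst hz
    exact hab (h.trans _ _ _ hzx hxy))
  refine ⟨g, hg1, hg4, ?_⟩
  rw [hg2 a ⟨a, rfl, h.refl a⟩, hg3 b (fun hb => hb ⟨b, rfl, h.refl b⟩)]
  exact zero_lt_one

/-- A countable family of monotone functions separating all pairs. -/
theorem exists_seq [CompactSpace Z] [T2Space Z] [SecondCountableTopology Z] (h : ClosedPre le) :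
    ∃ g : ℕ → C(Z, ℝ), (∀ n x y, le x y → g n x ≤ g n y) ∧ (∀ n x, g n x ∈ Icc (0 : ℝ) 1) ∧
      ∀ a b, ¬ le b a → ∃ n, g n a < g n b := by
  classical
  have key : ∀ q : {q : Z × Z // ¬ le q.2 q.1}, ∃ g : C(Z, ℝ),
      (∀ x y, le x y → g x ≤ g y) ∧ (∀ x, g x ∈ Icc (0 : ℝ) 1) ∧ g q.1.1 < g q.1.2 :=
    fun q => exists_mono_pair h q.2
  choose g hg1 hg2 hg3 using key
  obtain ⟨T, hT, hTe⟩ := TopologicalSpace.isOpen_iUnion_countable
    (fun q : {q : Z × Z // ¬ le q.2 q.1} => {r : Z × Z | g q r.1 < g q r.2})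
    (fun q => isOpen_lt (by fun_prop) (by fun_prop))
  rcases T.eq_empty_or_nonempty with rfl | hne
  · refine ⟨fun _ => 0, fun _ _ _ _ => le_rfl, fun _ _ => by simp, ?_⟩
    intro a b hab
    exfalso
    have : (a, b) ∈ ⋃ q : {q : Z × Z // ¬ le q.2 q.1}, {r : Z × Z | g q r.1 < g q r.2} :=
      mem_iUnion.2 ⟨⟨(a, b), hab⟩, hg3 _⟩
    rw [← hTe] at this
    simp at this
  · obtain ⟨e, he⟩ := hT.exists_eq_range hne
    refine ⟨fun n => g (e n), fun n => hg1 _, fun n => hg2 _, ?_⟩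
    intro a b hab
    have : (a, b) ∈ ⋃ q : {q : Z × Z // ¬ le q.2 q.1}, {r : Z × Z | g q r.1 < g q r.2} :=
      mem_iUnion.2 ⟨⟨(a, b), hab⟩, hg3 _⟩
    rw [← hTe] at this
    simp only [mem_iUnion] at this
    obtain ⟨q, hq, hlt⟩ := this
    rw [he] at hq
    obtain ⟨n, rfl⟩ := hq
    exact ⟨n, hlt⟩

/-- A strictly monotone continuous function. -/
theorem exists_strict [CompactSpace Z] [T2Space Z] [SecondCountableTopology Z]
    (h : ClosedPre le) : ∃ μ : C(Z, ℝ), (∀ x y, le x y → μ x ≤ μ y) ∧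
      (∀ x y, le x y → μ x = μ y → le y x) ∧ ∀ x, μ x ∈ Icc (0 : ℝ) 1 := by
  obtain ⟨g, hg1, hg2, hg3⟩ := exists_seq h
  have hsum : Summable (fun n : ℕ => (1 / 2 : ℝ) ^ (n + 1)) := by
    have := (summable_geometric_of_lt_one (r := (1 / 2 : ℝ)) (by norm_num) (by norm_num))
    exact (summable_nat_add_iff 1).2 this
  have hterm : ∀ n x, 0 ≤ (1 / 2 : ℝ) ^ (n + 1) * g n x ∧
      (1 / 2 : ℝ) ^ (n + 1) * g n x ≤ (1 / 2 : ℝ) ^ (n + 1) := by
    intro n x
    have h1 := (hg2 n x).1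
    have h2 := (hg2 n x).2
    have h3 : (0 : ℝ) < (1 / 2 : ℝ) ^ (n + 1) := by positivity
    exact ⟨by positivity, by nlinarith⟩
  have hs : ∀ x, Summable (fun n : ℕ => (1 / 2 : ℝ) ^ (n + 1) * g n x) := fun x =>
    Summable.of_nonneg_of_le (fun n => (hterm n x).1) (fun n => (hterm n x).2) hsum
  have hcont : Continuous (fun x => ∑' n : ℕ, (1 / 2 : ℝ) ^ (n + 1) * g n x) := by
    apply continuous_tsum (u := fun n : ℕ => (1 / 2 : ℝ) ^ (n + 1))
    · intro n; fun_prop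
    · exact hsum
    · intro n x
      rw [Real.norm_of_nonneg (hterm n x).1]
      exact (hterm n x).2
  have htot : ∑' n : ℕ, (1 / 2 : ℝ) ^ (n + 1) = 1 := by
    have h1 : ∑' n : ℕ, (1 / 2 : ℝ) ^ (n + 1) = ∑' n : ℕ, (1 / 2 : ℝ) ^ n * (1 / 2) := by
      congr 1
    rw [h1, tsum_mul_right, tsum_geometric_two]
    norm_num
  refine ⟨⟨_, hcont⟩, ?_, ?_, ?_⟩
  · intro x y hxy
    apply Summable.tsum_le_tsum _ (hs x) (hs y)
    intro n
    have := hg1 n x y hxy
    gcongr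
  · intro x y hxy he
    by_contra hyx
    obtain ⟨n, hn⟩ := hg3 x y hyx
    have : (∑' n : ℕ, (1 / 2 : ℝ) ^ (n + 1) * g n x) < ∑' n : ℕ, (1 / 2 : ℝ) ^ (n + 1) * g n y := by
      apply Summable.tsum_lt_tsum (i := n) _ _ (hs x) (hs y)
      · intro m
        have := hg1 m x y hxy
        dsimp only
        gcongr
      · gcongr
    exact absurd he this.ne
  · intro x
    constructor
    · exact tsum_nonneg (fun n => (hterm n x).1)
    · calc (∑' n : ℕ, (1 / 2 : ℝ) ^ (n + 1) * g n x) ≤ ∑' n : ℕ, (1 / 2 : ℝ) ^ (n + 1) :=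
            Summable.tsum_le_tsum (fun n => (hterm n x).2) (hs x) hsum
        _ = 1 := htot

/-- Contraction along a closed tree-like preorder. -/
theorem contract [CompactSpace Z] [T2Space Z] [SecondCountableTopology Z]
    (h : ClosedPre le) {p0 : Z} (hp0 : ∀ b, le p0 b)
    (chain : ∀ a b c, le a c → le b c → le a b ∨ le b a)
    (dense : ∀ a b, le a b → ¬ le b a → ∃ l, le a l ∧ le l b ∧ ¬ le l a ∧ ¬ le b l)
    {X : Type*} [TopologicalSpace X] {f : Z → X} (hf : Continuous f)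
    (hfeq : ∀ a b, le a b → le b a → f a = f b) :
    ∃ F : Z × unitInterval → X, Continuous F ∧ (∀ z, F (z, 0) = f p0) ∧ (∀ z, F (z, 1) = f z) ∧
      (∀ q, F q ∈ range f) ∧ ∀ z, le z p0 → ∀ t, F (z, t) = f p0 := by
  obtain ⟨μ, hμ1, hμ2, hμ3⟩ := exists_strict h
  -- existence
  have hex : ∀ (b : Z) (t : unitInterval), ∃ a, le a b ∧
      μ a - μ p0 = min (t : ℝ) (μ b - μ p0) := by
    intro b t
    set s : ℝ := min (t : ℝ) (μ b - μ p0) with hs
    have hb0 : 0 ≤ μ b - μ p0 := sub_nonneg.2 (hμ1 _ _ (hp0 b))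
    have hs0 : 0 ≤ s := le_min t.2.1 hb0
    have hsb : s ≤ μ b - μ p0 := min_le_right _ _
    by_contra hno
    push Not at hno
    have hdb : IsClosed {a | le a b} :=
      h.closed.preimage (f := fun a : Z => (a, b)) (by fun_prop)
    have hF : IsCompact {a | le a b ∧ μ a - μ p0 ≤ s} :=
      (hdb.inter (isClosed_le (f := fun a => μ a - μ p0) (g := fun _ => s) (by fun_prop)
        (by fun_prop))).isCompact
    have hG : IsCompact {a | le a b ∧ s ≤ μ a - μ p0} :=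
      (hdb.inter (isClosed_le (f := fun _ => s) (g := fun a => μ a - μ p0) (by fun_prop)
        (by fun_prop))).isCompact
    obtain ⟨a0, ⟨ha0b, ha0s⟩, ha0⟩ := hF.exists_isMaxOn (f := μ) ⟨p0, hp0 b, by simpa using hs0⟩
      μ.continuous.continuousOn
    obtain ⟨a1, ⟨ha1b, ha1s⟩, ha1⟩ := hG.exists_isMinOn (f := μ) ⟨b, h.refl b, hsb⟩
      μ.continuous.continuousOn
    have h0 : μ a0 - μ p0 < s := lt_of_le_of_ne ha0s (hno a0 ha0b)
    have h1 : s < μ a1 - μ p0 := lt_of_le_of_ne ha1s (Ne.symm (hno a1 ha1b))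
    have hn10 : ¬ le a1 a0 := by
      intro hle
      have := hμ1 _ _ hle
      linarith
    have h01 : le a0 a1 := (chain a0 a1 b ha0b ha1b).resolve_right hn10
    obtain ⟨l, hl1, hl2, hl3, hl4⟩ := dense a0 a1 h01 hn10
    have hlb : le l b := h.trans _ _ _ hl2 ha1b
    rcases le_total (μ l - μ p0) s with hls | hls
    · have h2 : μ l ≤ μ a0 := ha0 (show l ∈ {a | le a b ∧ μ a - μ p0 ≤ s} from ⟨hlb, hls⟩)
      exact hl3 (hμ2 _ _ hl1 (le_antisymm (hμ1 _ _ hl1) h2))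
    · have h2 : μ a1 ≤ μ l := ha1 (show l ∈ {a | le a b ∧ s ≤ μ a - μ p0} from ⟨hlb, hls⟩)
      exact hl4 (hμ2 _ _ hl2 (le_antisymm (hμ1 _ _ hl2) h2))
  have huniq : ∀ a a' b, le a b → le a' b → μ a = μ a' → f a = f a' := by
    intro a a' b hab ha'b he
    rcases chain a a' b hab ha'b with h1 | h1
    · exact hfeq _ _ h1 (hμ2 _ _ h1 he)
    · exact hfeq _ _ (hμ2 _ _ h1 he.symm) h1
  choose H hH1 hH2 using hex
  refine ⟨fun q => f (H q.1 q.2), ?_, ?_, ?_, ?_, ?_⟩
  · rw [continuous_iff_isClosed]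
    intro D hD
    have hS : IsClosed {r : (Z × unitInterval) × Z | le r.2 r.1.1 ∧
        μ r.2 - μ p0 = min (r.1.2 : ℝ) (μ r.1.1 - μ p0) ∧ f r.2 ∈ D} := by
      apply IsClosed.inter
      · exact h.closed.preimage (f := fun r : (Z × unitInterval) × Z => (r.2, r.1.1))
          (by fun_prop)
      · apply IsClosed.inter
        · exact isClosed_eq (by fun_prop) (by fun_prop)
        · exact hD.preimage (by fun_prop)
    have h2 := isClosedMap_fst_of_compactSpace (X := Z × unitInterval) (Y := Z) _ hS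
    convert h2 using 1
    ext ⟨b, t⟩
    constructor
    · intro hbt
      exact ⟨((b, t), H b t), ⟨hH1 b t, hH2 b t, hbt⟩, rfl⟩
    · rintro ⟨⟨⟨b', t'⟩, a⟩, ⟨ha1, ha2, ha3⟩, he⟩
      obtain ⟨rfl, rfl⟩ : b' = b ∧ t' = t := by simpa using he
      have : f (H b' t') = f a := by
        apply huniq _ _ b' (hH1 b' t') ha1
        have := hH2 b' t'
        simp only at ha2
        linarith
      show f (H b' t') ∈ D
      rw [this]
      exact ha3
  · intro z
    apply huniq _ _ z (hH1 z 0) (hp0 z)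
    have := hH2 z 0
    have hb0 : 0 ≤ μ z - μ p0 := sub_nonneg.2 (hμ1 _ _ (hp0 z))
    rw [Set.Icc.coe_zero, min_eq_left hb0] at this
    linarith
  · intro z
    apply huniq _ _ z (hH1 z 1) (h.refl z)
    have := hH2 z 1
    have hb0 : μ z - μ p0 ≤ 1 := by
      have h1 := (hμ3 z).2
      have h2 := (hμ3 p0).1
      linarith
    rw [Set.Icc.coe_one, min_eq_right hb0] at this
    linarith
  · intro q
    exact ⟨_, rfl⟩
  · intro z hz t
    apply huniq _ _ z (hH1 z t) (hp0 z)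
    have := hH2 z t
    have hz0 : μ z = μ p0 := le_antisymm (hμ1 _ _ hz) (hμ1 _ _ (hp0 z))
    rw [hz0, sub_self, min_eq_right t.2.1] at this
    linarith

end Pool.Agent.H85.Nach
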