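import Pool.Agent.H85.Fib
import Pool.Agent.H85.Nach

/-!
The tree-like order on the fibre components, and the contraction theorem.
-/

open Set Topology

namespace Pool.Agent.H85.Dend

open Fib

variable {Z : Type*} [TopologicalSpace Z] {X : Type*} [TopologicalSpace X]
  {f : Z → X} {C : Set X}

omit [TopologicalSpace X] in
theorem J_symm {l x y : Z} (h : J f l x y) : J f l y x := by
  obtain ⟨T, h1, h2, h3, h4⟩ := h
  exact ⟨T, h1, h3, h2, h4⟩

omit [TopologicalSpace X] in
theorem J_trans {l x y z : Z} (h : J f l x y) (h' : J f l y z) : J f l x z := by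
  obtain ⟨T, h1, h2, h3, h4⟩ := h
  obtain ⟨T', h1', h2', h3', h4'⟩ := h'
  exact ⟨T ∪ T', h1.union y h3 h2' h1', Or.inl h2, Or.inr h3', h4.union_left h4'⟩

omit [TopologicalSpace X] in
theorem J_left {l x y : Z} (h : J f l x y) : x ∉ fib f l := by
  obtain ⟨T, h1, h2, h3, h4⟩ := h
  exact Set.disjoint_left.1 h4 h2

omit [TopologicalSpace X] in
theorem J_right {l x y : Z} (h : J f l x y) : y ∉ fib f l := J_left (J_symm h)

omit [TopologicalSpace X] in
theorem J_fib {l x y : Z} (h : x ∉ fib f l) (hy : y ∈ fib f x) : J f l x y :=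
  ⟨fib f x, isPreconnected_fib f x, mem_fib f x, hy, fib_disj h⟩

omit [TopologicalSpace X] in
theorem J_congr {l l' x y : Z} (h : fib f l = fib f l') (hJ : J f l x y) : J f l' x y := by
  obtain ⟨T, h1, h2, h3, h4⟩ := hJ
  exact ⟨T, h1, h2, h3, by rwa [← h]⟩

omit [TopologicalSpace X] in
theorem not_mem_symm {p q : Z} (h : q ∉ fib f p) : p ∉ fib f q := by
  intro hp
  apply h
  rw [fib_eq hp]
  exact mem_fib f q

/-- The closure of a component of the complement of a closed set meets the closed set. -/
theorem closure_meets [ConnectedSpace Z] [LocallyConnectedSpace Z] {F : Set Z} (hF : IsClosed F)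
    (hne : F.Nonempty) {y : Z} (hy : y ∉ F) : (closure (connectedComponentIn Fᶜ y) ∩ F).Nonempty := by
  by_contra hno
  rw [not_nonempty_iff_eq_empty] at hno
  have hyF : y ∈ Fᶜ := hy
  have hsub : closure (connectedComponentIn Fᶜ y) ⊆ Fᶜ := by
    intro t ht htV
    have : t ∈ closure (connectedComponentIn Fᶜ y) ∩ F := ⟨ht, htV⟩
    rw [hno] at this
    exact this
  have hle : closure (connectedComponentIn Fᶜ y) ⊆ connectedComponentIn Fᶜ y :=
    (isPreconnected_connectedComponentIn.closure).subset_connectedComponentIn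
      (subset_closure (mem_connectedComponentIn hyF)) hsub
  have hclopen : IsClopen (connectedComponentIn Fᶜ y) :=
    ⟨closure_subset_iff_isClosed.1 hle, hF.isOpen_compl.connectedComponentIn⟩
  have huniv := hclopen.eq_univ ⟨y, mem_connectedComponentIn hyF⟩
  obtain ⟨v, hv⟩ := hne
  have : v ∈ connectedComponentIn Fᶜ y := by rw [huniv]; trivial
  exact connectedComponentIn_subset _ _ this hv

variable [CompactSpace Z] [T2Space Z] [SimplyConnectedSpace Z] [LocallyPathConnectedSpace Z]
  [T2Space X]

theorem K (S : Setup f C) {l x y : Z} (h : ¬ J f l x y) (hx : x ∉ fib f l) (hy : y ∉ fib f l) :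
    J f x l y := by
  have hcl := S.isClosed_fib l
  have hm := closure_meets hcl ⟨l, mem_fib f l⟩ hy
  set W := connectedComponentIn (fib f l)ᶜ y with hW
  have hyW : y ∈ W := mem_connectedComponentIn hy
  obtain ⟨t, ht1, ht2⟩ := hm
  refine ⟨closure W ∪ fib f l, ?_, Or.inr (mem_fib f l), Or.inl (subset_closure hyW), ?_⟩
  · exact IsPreconnected.union t ht1 ht2 isPreconnected_connectedComponentIn.closure
      (isPreconnected_fib f l)
  · apply Disjoint.union_left
    · have hxW : connectedComponentIn (fib f l)ᶜ x ∩ W = ∅ := by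
        rw [← not_nonempty_iff_eq_empty]
        rintro ⟨s, hs1, hs2⟩
        apply h
        refine ⟨connectedComponentIn (fib f l)ᶜ x, isPreconnected_connectedComponentIn,
          mem_connectedComponentIn hx, ?_, ?_⟩
        · rw [connectedComponentIn_eq hs1, ← connectedComponentIn_eq hs2]
          exact hyW
        · rw [Set.disjoint_left]
          intro s hs
          exact connectedComponentIn_subset _ _ hs
      have hxo : IsOpen (connectedComponentIn (fib f l)ᶜ x) :=
        hcl.isOpen_compl.connectedComponentIn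
      have hd : Disjoint (closure W) (connectedComponentIn (fib f l)ᶜ x) := by
        apply Disjoint.closure_left _ hxo
        rw [Set.disjoint_iff_inter_eq_empty, inter_comm]
        exact hxW
      apply hd.mono_right
      apply (isPreconnected_fib f x).subset_connectedComponentIn (mem_fib f x)
      intro s hs hsl
      exact Set.disjoint_left.1 (fib_disj hx) hs hsl
    · exact (fib_disj hx).symm

/-- The order: `a` lies between `p0` and `b`. -/
def le (f : Z → X) (p0 a b : Z) : Prop := ¬ J f a p0 b

variable {p0 : Z}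

omit [TopologicalSpace X] [CompactSpace Z] [T2Space Z] [SimplyConnectedSpace Z]
  [LocallyPathConnectedSpace Z] [T2Space X] in
theorem le_refl (a : Z) : le f p0 a a := fun h => J_right h (mem_fib f a)

omit [TopologicalSpace X] [CompactSpace Z] [T2Space Z] [SimplyConnectedSpace Z]
  [LocallyPathConnectedSpace Z] [T2Space X] in
theorem le_bot (b : Z) : le f p0 p0 b := fun h => J_left h (mem_fib f p0)

omit [TopologicalSpace X] [CompactSpace Z] [T2Space Z] [SimplyConnectedSpace Z]
  [LocallyPathConnectedSpace Z] [T2Space X] in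
theorem le_trans {a b c : Z} (hab : le f p0 a b) (hbc : le f p0 b c) : le f p0 a c := by
  rintro ⟨T, h1, h2, h3, h4⟩
  by_cases hTb : Disjoint T (fib f b)
  · exact hbc ⟨T, h1, h2, h3, hTb⟩
  · rw [Set.not_disjoint_iff] at hTb
    obtain ⟨x, hxT, hxb⟩ := hTb
    have hba : b ∉ fib f a := by
      intro hba
      rw [fib_eq hba] at hxb
      exact Set.disjoint_left.1 h4 hxT hxb
    apply hab
    exact ⟨T ∪ fib f b, h1.union x hxT hxb (isPreconnected_fib f b), Or.inl h2,
      Or.inr (mem_fib f b), h4.union_left (fib_disj hba)⟩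

theorem le_antisymm (S : Setup f C) {a b : Z} (hab : le f p0 a b) (hba : le f p0 b a) :
    b ∈ fib f a := by
  by_contra hne
  obtain ⟨l, hal, hbl, hJ⟩ := S.separate hne
  by_cases hp : p0 ∈ fib f l
  · have h1 : J f a l b := K S hJ hal hbl
    apply hab
    have h2 : J f a l p0 := J_fib (not_mem_symm hal) hp
    exact J_trans (J_symm h2) h1
  · by_cases h : J f l a p0
    · have h' : ¬ J f l b p0 := fun h' => hJ (J_trans h (J_symm h'))
      have h1 : J f b l p0 := K S h' hbl hp
      have h2 : J f b l a := K S (fun h => hJ (J_symm h)) hbl hal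
      exact hba (J_trans (J_symm h1) h2)
    · have h1 : J f a l p0 := K S h hal hp
      have h2 : J f a l b := K S hJ hal hbl
      exact hab (J_trans (J_symm h1) h2)

theorem le_chain (S : Setup f C) {a b c : Z} (hac : le f p0 a c) (hbc : le f p0 b c) :
    le f p0 a b ∨ le f p0 b a := by
  by_contra hno
  rw [not_or] at hno
  obtain ⟨h1, h2⟩ := hno
  have h1 : J f a p0 b := not_not.1 h1
  have h2 : J f b p0 a := not_not.1 h2
  by_cases hca : c ∈ fib f a
  · exact hbc (J_trans h2 (J_fib (J_right h2) hca))
  by_cases hcb : c ∈ fib f b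
  · exact hac (J_trans h1 (J_fib (J_right h1) hcb))
  have h3 : ¬ J f a b c := fun h => hac (J_trans h1 h)
  have h4 : J f b a c := K S h3 (J_right h1) hca
  exact hbc (J_trans h2 h4)

theorem le_dense (S : Setup f C) {a b : Z} (hab : le f p0 a b) (hba : ¬ le f p0 b a) :
    ∃ l, le f p0 a l ∧ le f p0 l b ∧ ¬ le f p0 l a ∧ ¬ le f p0 b l := by
  have hne : b ∉ fib f a := by
    intro h
    apply hba
    intro hJ
    exact J_right hJ (by rw [fib_eq h]; exact mem_fib f a)
  obtain ⟨l, hal, hbl, hJ⟩ := S.separate hne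
  have h1 : J f a l b := K S hJ hal hbl
  have hlb : le f p0 l b := by
    intro h
    have hp : p0 ∉ fib f l := J_left h
    have h2 : ¬ J f l a p0 := fun h' => hJ (J_trans h' h)
    have h3 : J f a l p0 := K S h2 hal hp
    exact hab (J_trans (J_symm h3) h1)
  have hal' : le f p0 a l := fun h => hab (J_trans h h1)
  refine ⟨l, hal', hlb, ?_, ?_⟩
  · intro h
    exact not_mem_symm hal (le_antisymm S hal' h)
  · intro h
    exact hbl (le_antisymm S hlb h)

/-- The relation of being in the same fibre component is closed. -/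
theorem closed_rel (S : Setup f C) : IsClosed {q : Z × Z | q.2 ∈ fib f q.1} := by
  rw [← isOpen_compl_iff, isOpen_iff_mem_nhds]
  rintro ⟨x, y⟩ hxy
  obtain ⟨l, hxl, hyl, hJ⟩ := S.separate hxy
  have hcl := S.isClosed_fib l
  have hU : IsOpen (connectedComponentIn (fib f l)ᶜ x) := hcl.isOpen_compl.connectedComponentIn
  have hV : IsOpen (connectedComponentIn (fib f l)ᶜ y) := hcl.isOpen_compl.connectedComponentIn
  filter_upwards [prod_mem_nhds (hU.mem_nhds (mem_connectedComponentIn hxl))
    (hV.mem_nhds (mem_connectedComponentIn hyl))]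
  rintro ⟨x', y'⟩ ⟨hx', hy'⟩ h
  apply hJ
  have h1 : J f l x x' := ⟨_, isPreconnected_connectedComponentIn, mem_connectedComponentIn hxl,
    hx', by
      rw [Set.disjoint_left]
      intro s hs
      exact connectedComponentIn_subset _ _ hs⟩
  have h2 : J f l y y' := ⟨_, isPreconnected_connectedComponentIn, mem_connectedComponentIn hyl,
    hy', by
      rw [Set.disjoint_left]
      intro s hs
      exact connectedComponentIn_subset _ _ hs⟩
  have h3 : J f l x' y' := J_fib (J_right h1) h
  exact J_trans (J_trans h1 h3) (J_symm h2)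

theorem le_closed (S : Setup f C) : IsClosed {q : Z × Z | le f p0 q.1 q.2} := by
  rw [← isOpen_compl_iff, isOpen_iff_mem_nhds]
  rintro ⟨a, b⟩ hab
  have hJ : J f a p0 b := not_not.1 hab
  have hcl := S.isClosed_fib a
  have ho : IsOpen (fib f a)ᶜ := hcl.isOpen_compl
  -- the component containing `p0` and `b`
  have hp0 : p0 ∈ (fib f a)ᶜ := J_left hJ
  set W := connectedComponentIn (fib f a)ᶜ p0 with hW
  have hWo : IsOpen W := ho.connectedComponentIn
  have hbW : b ∈ W := by
    obtain ⟨T, h1, h2, h3, h4⟩ := hJ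
    exact h1.subset_connectedComponentIn h2 (fun s hs => Set.disjoint_left.1 h4 hs) h3
  have hWc : IsConnected W := ⟨⟨b, hbW⟩, isPreconnected_connectedComponentIn⟩
  have hWp : IsPathConnected W := hWo.isConnected_iff_isPathConnected.1 hWc
  obtain ⟨γ, hγ⟩ := hWp.joinedIn p0 (mem_connectedComponentIn hp0) b hbW
  -- a connected neighbourhood of `b` with closure in `W`
  obtain ⟨V, hVo, hbV, hVW⟩ := normal_exists_closure_subset (isClosed_singleton (x := b)) hWo
    (by simpa using hbW)
  have hbV : b ∈ V := hbV rfl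
  set N := connectedComponentIn V b with hN
  have hNo : IsOpen N := hVo.connectedComponentIn
  have hbN : b ∈ N := mem_connectedComponentIn hbV
  set T : Set Z := range γ ∪ closure N with hT
  have hTW : T ⊆ W := by
    apply union_subset
    · rintro _ ⟨t, rfl⟩
      exact hγ t
    · exact (closure_mono (connectedComponentIn_subset _ _)).trans hVW
  have hTc : IsPreconnected T := by
    apply IsPreconnected.union b
    · exact ⟨1, γ.target⟩
    · exact subset_closure hbN
    · exact isPreconnected_range γ.continuous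
    · exact isPreconnected_connectedComponentIn.closure
  have hTcl : IsClosed T := (isCompact_range γ.continuous).isClosed.union isClosed_closure
  have hp0T : p0 ∈ T := Or.inl ⟨0, γ.source⟩
  -- the set of `a'` whose fibre component meets `T` is closed
  have hE : IsClosed {x : Z | ∃ y ∈ T, y ∈ fib f x} := by
    have h1 : IsClosed ({q : Z × Z | q.2 ∈ fib f q.1} ∩ Prod.snd ⁻¹' T) :=
      (closed_rel S).inter (hTcl.preimage continuous_snd)
    have h2 := isClosedMap_fst_of_compactSpace (X := Z) (Y := Z) _ h1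
    convert h2 using 1
    ext x
    constructor
    · rintro ⟨y, hy, hxy⟩
      exact ⟨(x, y), ⟨hxy, hy⟩, rfl⟩
    · rintro ⟨⟨x', y⟩, ⟨hxy, hy⟩, rfl⟩
      exact ⟨y, hy, hxy⟩
  have haE : a ∈ {x : Z | ∃ y ∈ T, y ∈ fib f x}ᶜ := by
    rintro ⟨y, hyT, hya⟩
    exact connectedComponentIn_subset _ _ (hTW hyT) hya
  filter_upwards [prod_mem_nhds (hE.isOpen_compl.mem_nhds haE) (hNo.mem_nhds hbN)]
  rintro ⟨a', b'⟩ ⟨ha', hb'⟩ h
  apply h
  refine ⟨T, hTc, hp0T, Or.inr (subset_closure hb'), ?_⟩
  rw [Set.disjoint_left]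
  intro s hs hsa
  exact ha' ⟨s, hs, hsa⟩

/-- The contraction theorem. -/
theorem contract [SecondCountableTopology Z] (S : Setup f C) (p0 : Z) :
    ∃ F : Z × unitInterval → X, Continuous F ∧ (∀ z, F (z, 0) = f p0) ∧ (∀ z, F (z, 1) = f z) ∧
      (∀ q, F q ∈ range f) ∧ ∀ z ∈ fib f p0, ∀ t, F (z, t) = f p0 := by
  obtain ⟨F, h1, h2, h3, h4, h5⟩ := Nach.contract (le := le f p0)
    ⟨le_refl, fun a b c => le_trans, le_closed S⟩ (p0 := p0) le_bot
    (fun a b c => le_chain S) (fun a b => le_dense S) S.cont
    (fun a b hab hba => (fib_const (le_antisymm S hab hba)).symm)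
  refine ⟨F, h1, h2, h3, h4, fun z hz t => h5 z (fun hJ => ?_) t⟩
  have : z ∉ fib f p0 ∨ z ∈ fib f p0 := (em _).symm
  -- `z ≤ p0`: any connected set containing `p0` meets the component of `z`
  exact J_left hJ (by rw [fib_eq hz]; exact mem_fib f p0)

end Pool.Agent.H85.Dend
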