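import Mathlib

/-!
The gap lemma: a continuous function on the line that takes equal values at the ends of the gaps
of a closed set can be made locally constant on the gaps.
-/

open Set Topology

namespace Pool.Agent.H85.Gap

variable {X : Type*} [TopologicalSpace X]

theorem gap {T : Set ℝ} (hT : IsClosed T) {a b : ℝ} (haT : a ∈ T)
    {h : ℝ → X} (hc : Continuous h)
    (hgap : ∀ s ∈ T, ∀ t ∈ T, s < t → (∀ u, s < u → u < t → u ∉ T) → h s = h t) :
    ContinuousOn (fun t => h (sSup (T ∩ Iic t))) (Icc a b) := by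
  have hne : ∀ t ∈ Icc a b, (T ∩ Iic t).Nonempty := fun t ht => ⟨a, haT, ht.1⟩
  have hbdd : ∀ t : ℝ, BddAbove (T ∩ Iic t) := fun t => ⟨t, fun x hx => hx.2⟩
  have hmem : ∀ t ∈ Icc a b, sSup (T ∩ Iic t) ∈ T ∩ Iic t := fun t ht =>
    (hT.inter isClosed_Iic).csSup_mem (hne t ht) (hbdd t)
  have hle : ∀ t, ∀ x ∈ T, x ≤ t → x ≤ sSup (T ∩ Iic t) := fun t x hx hxt =>
    le_csSup (hbdd t) ⟨hx, hxt⟩
  intro t ht
  rw [ContinuousWithinAt, Filter.tendsto_def]
  intro U hU
  by_cases htT : t ∈ T
  · have hst : sSup (T ∩ Iic t) = t :=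
      le_antisymm (hmem t ht).2 (hle t t htT le_rfl)
    simp only [hst] at hU
    have hU' : h ⁻¹' U ∈ 𝓝 t := hc.continuousAt hU
    obtain ⟨ε, hε, hεU⟩ := Metric.mem_nhds_iff.1 hU'
    rw [mem_nhdsWithin_iff_exists_mem_nhds_inter]
    by_cases hl : ∃ y ∈ T, t - ε < y ∧ y < t
    · obtain ⟨y, hyT, hy1, hy2⟩ := hl
      refine ⟨Ioo y (t + ε), Ioo_mem_nhds hy2 (by linarith), ?_⟩
      rintro x ⟨⟨hx1, hx2⟩, hx⟩
      have h1 := hle x y hyT hx1.le
      have h2 := (hmem x hx).2
      rw [mem_Iic] at h2
      apply hεU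
      rw [Metric.mem_ball, Real.dist_eq, abs_lt]
      constructor <;> linarith
    · push Not at hl
      refine ⟨Ioo (t - ε) (t + ε), Ioo_mem_nhds (by linarith) (by linarith), ?_⟩
      rintro x ⟨⟨hx1, hx2⟩, hx⟩
      have h2 := (hmem x hx).2
      rw [mem_Iic] at h2
      rcases le_or_gt t x with htx | htx
      · have h1 := hle x t htT htx
        apply hεU
        rw [Metric.mem_ball, Real.dist_eq, abs_lt]
        constructor <;> linarith
      · -- `x < t` : `sSup` is the left end of a gap
        have hs := hmem x hx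
        set s := sSup (T ∩ Iic x) with hsdef
        have hgapst : ∀ u, s < u → u < t → u ∉ T := by
          intro u hu1 hu2 huT
          rcases le_or_gt u x with hux | hux
          · have := hle x u huT hux
            linarith
          · have := hl u huT (by linarith)
            linarith
        have he : h s = h t := hgap s hs.1 t htT (by linarith) hgapst
        show h s ∈ U
        rw [he]
        exact mem_of_mem_nhds hU
  · -- `t` in a gap
    have hs := hmem t ht
    set s := sSup (T ∩ Iic t) with hsdef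
    have hst : s < t := lt_of_le_of_ne hs.2 (fun he => htT (he ▸ hs.1))
    have hTc : Tᶜ ∈ 𝓝 t := hT.isOpen_compl.mem_nhds htT
    obtain ⟨ε, hε, hεT⟩ := Metric.mem_nhds_iff.1 hTc
    rw [mem_nhdsWithin_iff_exists_mem_nhds_inter]
    refine ⟨Ioo (max s (t - ε)) (t + ε), Ioo_mem_nhds (by simp [hst, hε]) (by linarith), ?_⟩
    rintro x ⟨⟨hx1, hx2⟩, hx⟩
    rw [max_lt_iff] at hx1
    have he : sSup (T ∩ Iic x) = s := by
      apply le_antisymm
      · have h3 := hmem x hx
        have h4 : sSup (T ∩ Iic x) ≤ t := by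
          by_contra hlt
          push Not at hlt
          have : sSup (T ∩ Iic x) ∈ Tᶜ := by
            apply hεT
            rw [Metric.mem_ball, Real.dist_eq, abs_lt]
            have := h3.2
            rw [mem_Iic] at this
            constructor <;> linarith
          exact this h3.1
        exact hle t _ h3.1 h4
      · exact hle x s hs.1 hx1.1.le
    show h (sSup (T ∩ Iic x)) ∈ U
    rw [he]
    exact mem_of_mem_nhds hU

end Pool.Agent.H85.Gap
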