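import Pool.Agent.H85.Sep
import Pool.Agent.H85.Gap

/-!
Fibre components of a map into a space which is rim-finite away from a closed set without paths.
-/

open Set Topology

namespace Pool.Agent.H85.Fib

variable {Z : Type*} [TopologicalSpace Z] {X : Type*} [TopologicalSpace X]

/-- The standing hypotheses. -/
structure Setup (f : Z → X) (C : Set X) : Prop where
  cont : Continuous f
  closedC : IsClosed C
  path : ∀ γ : C(unitInterval, X), (∀ t, γ t ∈ C) → ∀ s t, γ s = γ t
  rim : ∀ x, x ∉ C → ∀ U ∈ 𝓝 x, ∃ A, IsOpen A ∧ x ∈ A ∧ closure A ⊆ U ∧ (frontier A).Finite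

/-- The component of the fibre through `p`. -/
def fib (f : Z → X) (p : Z) : Set Z := connectedComponentIn (f ⁻¹' {f p}) p

/-- `x` and `y` are joined off the fibre component of `l`. -/
def J (f : Z → X) (l x y : Z) : Prop :=
  ∃ T : Set Z, IsPreconnected T ∧ x ∈ T ∧ y ∈ T ∧ Disjoint T (fib f l)

variable {f : Z → X} {C : Set X}

theorem closed_component {K : Set Z} (hK : IsClosed K) (p : Z) :
    IsClosed (connectedComponentIn K p) := by
  by_cases hp : p ∈ K
  · rw [← closure_subset_iff_isClosed]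
    apply isPreconnected_connectedComponentIn.closure.subset_connectedComponentIn
    · exact subset_closure (mem_connectedComponentIn hp)
    · exact closure_minimal (connectedComponentIn_subset _ _) hK
  · rw [connectedComponentIn_eq_empty hp]
    exact isClosed_empty

theorem Setup.rimC [T2Space X] (S : Setup f C) : Sep.RimFin C := by
  intro B hB hCB
  have key : ∀ b ∈ B, ∃ A, IsOpen A ∧ b ∈ A ∧ closure A ⊆ Cᶜ ∧ (frontier A).Finite :=
    fun b hb => S.rim b (fun hbC => Set.disjoint_left.1 hCB hbC hb) _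
      (S.closedC.isOpen_compl.mem_nhds (fun hbC => Set.disjoint_left.1 hCB hbC hb))
  choose! A hA1 hA2 hA3 hA4 using key
  obtain ⟨t, htc⟩ := hB.elim_nhds_subcover' (fun b hb => A b)
    (fun b hb => (hA1 b hb).mem_nhds (hA2 b hb))
  have hfin : ∀ s : Finset B, (frontier (⋃ b ∈ s, closure (A b))).Finite := by
    classical
    intro s
    induction s using Finset.induction_on with
    | empty => simp
    | insert a s ha ih =>
      rw [Finset.set_biUnion_insert]
      apply (((hA4 a a.2).subset frontier_closure_subset).union ih).subset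
      refine (frontier_union_subset _ _).trans ?_
      exact union_subset_union inter_subset_left inter_subset_right
  refine ⟨(⋃ b ∈ t, closure (A b))ᶜ, ?_, ?_, ?_, ?_⟩
  · exact (isClosed_biUnion_finset (fun b _ => isClosed_closure)).isOpen_compl
  · intro x hx hxU
    simp only [mem_iUnion] at hxU
    obtain ⟨b, _, hxb⟩ := hxU
    exact hA3 b b.2 hxb hx
  · rw [Set.disjoint_left]
    intro x hx hxB
    apply hx
    have := htc hxB
    simp only [mem_iUnion] at this ⊢
    obtain ⟨b, hb, hxb⟩ := this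
    exact ⟨b, hb, subset_closure hxb⟩
  · rw [frontier_compl]
    exact hfin t

theorem Setup.rimPt [T2Space X] (S : Setup f C) {x : X} (hx : x ∉ C) : Sep.RimFin {x} := by
  intro B hB hxB
  obtain ⟨A, hA1, hA2, hA3, hA4⟩ := S.rim x hx Bᶜ
    (hB.isClosed.isOpen_compl.mem_nhds (fun h => Set.disjoint_left.1 hxB rfl h))
  refine ⟨A, hA1, by simpa using hA2, ?_, hA4⟩
  rw [Set.disjoint_left]
  intro y hy
  exact hA3 (subset_closure hy)

omit [TopologicalSpace X] in
theorem mem_fib (f : Z → X) (p : Z) : p ∈ fib f p := mem_connectedComponentIn rfl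

omit [TopologicalSpace X] in
theorem fib_const {p q : Z} (h : q ∈ fib f p) : f q = f p :=
  connectedComponentIn_subset (f ⁻¹' {f p}) p h

omit [TopologicalSpace X] in
theorem fib_eq {p q : Z} (h : q ∈ fib f p) : fib f q = fib f p := by
  unfold fib
  rw [fib_const h]
  exact (connectedComponentIn_eq h).symm

omit [TopologicalSpace X] in
theorem fib_disj {p q : Z} (h : q ∉ fib f p) : Disjoint (fib f q) (fib f p) := by
  rw [Set.disjoint_left]
  intro x hx hx'
  apply h
  rw [← fib_eq hx', fib_eq hx]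
  exact mem_fib f q

omit [TopologicalSpace X] in
theorem isPreconnected_fib (f : Z → X) (p : Z) : IsPreconnected (fib f p) :=
  isPreconnected_connectedComponentIn

theorem Setup.isClosed_fib [T2Space X] (S : Setup f C) (p : Z) : IsClosed (fib f p) :=
  closed_component (isClosed_singleton.preimage S.cont) p

variable [CompactSpace Z] [T2Space Z] [SimplyConnectedSpace Z] [LocallyPathConnectedSpace Z]
  [T2Space X]

/-- `f` is constant on the components of the preimage of `C`. -/
theorem Setup.const_comp (S : Setup f C) {p : Z} (hp : f p ∈ C) {q : Z}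
    (hq : q ∈ connectedComponentIn (f ⁻¹' C) p) : f q = f p := by
  set Q := connectedComponentIn (f ⁻¹' C) p with hQ
  have hQc : IsClosed Q := closed_component (S.closedC.preimage S.cont) p
  have hpQ : p ∈ Q := mem_connectedComponentIn hp
  let γ : Path p q := (PathConnectedSpace.joined p q).somePath
  have hγc : Continuous γ.extend := γ.continuous_extend
  set T : Set ℝ := Icc 0 1 ∩ γ.extend ⁻¹' Q with hT
  have hTc : IsClosed T := isClosed_Icc.inter (hQc.preimage hγc)
  have h0T : (0 : ℝ) ∈ T := ⟨by simp, by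
    show γ.extend 0 ∈ Q
    rw [Path.extend_zero]; exact hpQ⟩
  have h1T : (1 : ℝ) ∈ T := ⟨by simp, by
    show γ.extend 1 ∈ Q
    rw [Path.extend_one]; exact hq⟩
  have hhc : Continuous (fun t => f (γ.extend t)) := S.cont.comp hγc
  have hgap : ∀ s ∈ T, ∀ t ∈ T, s < t → (∀ u, s < u → u < t → u ∉ T) →
      f (γ.extend s) = f (γ.extend t) := by
    intro s hs t ht hst hno
    by_contra hne
    obtain ⟨U, V, hU, hV, hsU, htV, hUV⟩ := t2_separation hne
    obtain ⟨ε₁, hε₁, h1⟩ := Metric.mem_nhds_iff.1 (hhc.continuousAt (hU.mem_nhds hsU))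
    obtain ⟨ε₂, hε₂, h2⟩ := Metric.mem_nhds_iff.1 (hhc.continuousAt (hV.mem_nhds htV))
    set ε := min (min ε₁ ε₂) ((t - s) / 2) / 2 with hε
    have hεpos : 0 < ε := by
      have : 0 < min (min ε₁ ε₂) ((t - s) / 2) := lt_min (lt_min hε₁ hε₂) (by linarith)
      linarith
    have hε1 : ε < ε₁ := by
      have : min (min ε₁ ε₂) ((t - s) / 2) ≤ ε₁ := (min_le_left _ _).trans (min_le_left _ _)
      have : 0 < min (min ε₁ ε₂) ((t - s) / 2) := lt_min (lt_min hε₁ hε₂) (by linarith)
      linarith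
    have hε2 : ε < ε₂ := by
      have : min (min ε₁ ε₂) ((t - s) / 2) ≤ ε₂ := (min_le_left _ _).trans (min_le_right _ _)
      have : 0 < min (min ε₁ ε₂) ((t - s) / 2) := lt_min (lt_min hε₁ hε₂) (by linarith)
      linarith
    have hε3 : ε < (t - s) / 2 := by
      have : min (min ε₁ ε₂) ((t - s) / 2) ≤ (t - s) / 2 := min_le_right _ _
      have : 0 < min (min ε₁ ε₂) ((t - s) / 2) := lt_min (lt_min hε₁ hε₂) (by linarith)
      linarith
    have hs01 : 0 ≤ s ∧ s ≤ 1 := hs.1
    have ht01 : 0 ≤ t ∧ t ≤ 1 := ht.1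
    have hO : IsOpen (γ.extend '' Icc (s + ε) (t - ε))ᶜ :=
      (isCompact_Icc.image hγc).isClosed.isOpen_compl
    have hQO : Q ⊆ (γ.extend '' Icc (s + ε) (t - ε))ᶜ := by
      rintro x hx ⟨u, hu, rfl⟩
      have hu' : s + ε ≤ u ∧ u ≤ t - ε := hu
      refine hno u (by linarith) (by linarith) ⟨⟨by linarith, by linarith⟩, hx⟩
    have hz : γ.extend ((s + t) / 2) ∉ (γ.extend '' Icc (s + ε) (t - ε))ᶜ := by
      intro h
      exact h ⟨(s + t) / 2, ⟨by linarith, by linarith⟩, rfl⟩
    obtain ⟨L, hLc, hLO, hLf, _, hLT⟩ := Sep.sep S.cont S.closedC S.rimC hp hO hQO hz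
    have hA : IsPreconnected (γ.extend '' Icc s ((s + t) / 2)) :=
      isPreconnected_Icc.image _ hγc.continuousOn
    have hB : IsPreconnected (γ.extend '' Icc ((s + t) / 2) t) :=
      isPreconnected_Icc.image _ hγc.continuousOn
    obtain ⟨x, ⟨u, hu, rfl⟩, hxL⟩ := hLT _ hA ⟨(s + t) / 2, ⟨by linarith, by linarith⟩, rfl⟩
      ⟨γ.extend s, ⟨s, ⟨by linarith, by linarith⟩, rfl⟩, hs.2⟩
    obtain ⟨y, ⟨v, hv, rfl⟩, hyL⟩ := hLT _ hB ⟨(s + t) / 2, ⟨by linarith, by linarith⟩, rfl⟩
      ⟨γ.extend t, ⟨t, ⟨by linarith, by linarith⟩, rfl⟩, ht.2⟩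
    have hu' : s ≤ u ∧ u ≤ (s + t) / 2 := hu
    have hv' : (s + t) / 2 ≤ v ∧ v ≤ t := hv
    have hu2 : u < s + ε := by
      by_contra h
      push Not at h
      exact hLO hxL ⟨u, ⟨h, by linarith⟩, rfl⟩
    have hv2 : t - ε < v := by
      by_contra h
      push Not at h
      exact hLO hyL ⟨v, ⟨by linarith, h⟩, rfl⟩
    have huU : f (γ.extend u) ∈ U := by
      apply h1
      rw [Metric.mem_ball, Real.dist_eq, abs_lt]
      constructor <;> linarith
    have hvV : f (γ.extend v) ∈ V := by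
      apply h2
      rw [Metric.mem_ball, Real.dist_eq, abs_lt]
      constructor <;> linarith
    have he : f (γ.extend u) = f (γ.extend v) := hLf _ hxL _ hyL
    rw [he] at huU
    exact Set.disjoint_left.1 hUV huU hvV
  have hmain := Gap.gap hTc (b := 1) h0T hhc hgap
  have hmem : ∀ t ∈ Icc (0 : ℝ) 1, sSup (T ∩ Iic t) ∈ T := fun t ht =>
    ((hTc.inter isClosed_Iic).csSup_mem ⟨0, h0T, ht.1⟩ ⟨t, fun x hx => hx.2⟩).1
  let g : C(unitInterval, X) := ⟨fun t => f (γ.extend (sSup (T ∩ Iic (t : ℝ)))), by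
    have := continuousOn_iff_continuous_domRestrict.1 hmain
    exact this⟩
  have hgC : ∀ t, g t ∈ C := by
    intro t
    have h1 : γ.extend (sSup (T ∩ Iic (t : ℝ))) ∈ Q := (hmem t t.2).2
    exact connectedComponentIn_subset (f ⁻¹' C) p h1
  have he := S.path g hgC 1 0
  have h0 : sSup (T ∩ Iic (0 : ℝ)) = 0 := by
    apply le_antisymm
    · exact csSup_le ⟨0, h0T, self_mem_Iic⟩ (fun x hx => hx.2)
    · exact le_csSup ⟨0, fun x hx => hx.2⟩ ⟨h0T, self_mem_Iic⟩
  have h1 : sSup (T ∩ Iic (1 : ℝ)) = 1 := by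
    apply le_antisymm
    · exact csSup_le ⟨1, h1T, self_mem_Iic⟩ (fun x hx => hx.2)
    · exact le_csSup ⟨1, fun x hx => hx.2⟩ ⟨h1T, self_mem_Iic⟩
  have e0 : g 0 = f p := by
    show f (γ.extend (sSup (T ∩ Iic ((0 : unitInterval) : ℝ)))) = f p
    rw [Set.Icc.coe_zero, h0, Path.extend_zero]
  have e1 : g 1 = f q := by
    show f (γ.extend (sSup (T ∩ Iic ((1 : unitInterval) : ℝ)))) = f q
    rw [Set.Icc.coe_one, h1, Path.extend_one]
  rw [e0, e1] at he
  exact he

/-- Distinct fibre components are separated by a third one. -/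
theorem Setup.separate (S : Setup f C) {p p' : Z} (h : p' ∉ fib f p) :
    ∃ l, p ∉ fib f l ∧ p' ∉ fib f l ∧ ¬ J f l p p' := by
  -- a common formulation
  have main : ∃ D : Set X, IsClosed D ∧ f p ∈ D ∧ Sep.RimFin D ∧
      connectedComponentIn (f ⁻¹' D) p = fib f p := by
    by_cases hp : f p ∈ C
    · refine ⟨C, S.closedC, hp, S.rimC, ?_⟩
      apply Subset.antisymm
      · apply isPreconnected_connectedComponentIn.subset_connectedComponentIn
        · exact mem_connectedComponentIn hp
        · intro q hq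
          exact S.const_comp hp hq
      · apply (isPreconnected_fib f p).subset_connectedComponentIn (mem_fib f p)
        intro q hq
        show f q ∈ C
        rw [fib_const hq]
        exact hp
    · exact ⟨{f p}, isClosed_singleton, rfl, S.rimPt hp, rfl⟩
  obtain ⟨D, hD, hpD, hDr, hDQ⟩ := main
  have key : ∃ O : Set Z, IsOpen O ∧ fib f p ⊆ O ∧ p' ∉ O ∧ (f p ≠ f p' → ∀ x ∈ O, f x ≠ f p') := by
    by_cases he : f p = f p'
    · exact ⟨{p'}ᶜ, isClosed_singleton.isOpen_compl, fun x hx hx' => h (by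
        rw [mem_singleton_iff] at hx'
        rwa [← hx']), fun hn => hn rfl, fun hne => absurd he hne⟩
    · refine ⟨(f ⁻¹' {f p'})ᶜ, (isClosed_singleton.preimage S.cont).isOpen_compl, ?_,
        fun hn => hn rfl, fun _ x hx hx' => hx hx'⟩
      intro x hx hx'
      have h1 : f x = f p := fib_const hx
      have h2 : f x = f p' := hx'
      exact he (h1.symm.trans h2)
  obtain ⟨O, hO, hpO, hp'O, hOne⟩ := key
  obtain ⟨L, hLc, hLO, hLf, hLD, hLT⟩ := Sep.sep S.cont hD hDr hpD hO (by rwa [hDQ]) hp'O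
  rw [hDQ] at hLT
  obtain ⟨l, _, hlL⟩ := hLT univ isPreconnected_univ trivial ⟨p, trivial, mem_fib f p⟩
  have hLl : L ⊆ fib f l := by
    apply hLc.subset_connectedComponentIn hlL
    intro x hx
    exact hLf x hx l hlL
  have hpl : p ∉ fib f l := by
    intro hpl
    apply hLD l hlL
    rw [← fib_const hpl]
    exact hpD
  refine ⟨l, hpl, ?_, ?_⟩
  · intro hp'l
    have h1 : f p' = f l := fib_const hp'l
    by_cases he : f p = f p'
    · apply hLD l hlL
      rw [← h1, ← he]
      exact hpD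
    · exact hOne he l (hLO hlL) h1.symm
  · rintro ⟨T, hT, hpT, hp'T, hTl⟩
    obtain ⟨x, hxT, hxL⟩ := hLT T hT hp'T ⟨p, hpT, mem_fib f p⟩
    exact Set.disjoint_left.1 hTl hxT (hLl hxL)

end Pool.Agent.H85.Fib
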