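import Pool.Agent.H85.Crook

/-!
Piecewise linear interpolation of crooked words; crooked maps of the unit interval.
-/

open Set

namespace Pool.Agent.H85.Crook

noncomputable def clamp (x : ℝ) : ℝ := max 0 (min 1 x)

theorem clamp_lip (x y : ℝ) : |clamp x - clamp y| ≤ |x - y| := by
  unfold clamp
  calc |max 0 (min 1 x) - max 0 (min 1 y)| ≤ |min 1 x - min 1 y| := by
        simpa using abs_max_sub_max_le_max 0 (min 1 x) 0 (min 1 y)
    _ ≤ |x - y| := by simpa using abs_min_sub_min_le_max 1 x 1 y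

theorem clamp_one {x : ℝ} (h : 1 ≤ x) : clamp x = 1 := by
  unfold clamp; rw [min_eq_left h]; simp

theorem clamp_zero {x : ℝ} (h : x ≤ 0) : clamp x = 0 := by
  unfold clamp; rw [min_eq_right (h.trans zero_le_one), max_eq_left h]

theorem clamp_id {x : ℝ} (h0 : 0 ≤ x) (h1 : x ≤ 1) : clamp x = x := by
  unfold clamp; rw [min_eq_right h1, max_eq_right h0]

/-- piecewise linear interpolation -/
noncomputable def itp (c : ℕ → ℤ) (l : ℕ) (t : ℝ) : ℝ :=
  c 0 + ∑ i ∈ Finset.range l, ((c (i + 1) : ℝ) - c i) * clamp (t - i)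

theorem itp_lip {c : ℕ → ℤ} {l : ℕ} (hs : St c 0 l) (x y : ℝ) :
    |itp c l x - itp c l y| ≤ l * |x - y| := by
  unfold itp
  rw [add_sub_add_left_eq_sub, ← Finset.sum_sub_distrib]
  calc |∑ i ∈ Finset.range l, (((c (i + 1) : ℝ) - c i) * clamp (x - i) -
          ((c (i + 1) : ℝ) - c i) * clamp (y - i))|
      ≤ ∑ i ∈ Finset.range l, |((c (i + 1) : ℝ) - c i) * clamp (x - i) -
          ((c (i + 1) : ℝ) - c i) * clamp (y - i)| := Finset.abs_sum_le_sum_abs _ _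
    _ ≤ ∑ _i ∈ Finset.range l, |x - y| := by
        apply Finset.sum_le_sum
        intro i hi
        rw [← mul_sub, abs_mul]
        have h1 : |((c (i + 1) : ℝ) - c i)| ≤ 1 := by
          have := hs i (Nat.zero_le _) (Finset.mem_range.1 hi)
          exact_mod_cast this
        have h2 : |clamp (x - i) - clamp (y - i)| ≤ |x - y| := by
          refine (clamp_lip _ _).trans (le_of_eq ?_)
          congr 1; ring
        calc |((c (i + 1) : ℝ) - c i)| * |clamp (x - i) - clamp (y - i)| ≤ 1 * |x - y| :=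
              mul_le_mul h1 h2 (abs_nonneg _) zero_le_one
          _ = |x - y| := one_mul _
    _ = l * |x - y| := by simp

theorem itp_eq {c : ℕ → ℤ} {l k : ℕ} (hk : k < l) {t : ℝ} (h0 : (k : ℝ) ≤ t) (h1 : t ≤ k + 1) :
    itp c l t = c k + ((c (k + 1) : ℝ) - c k) * (t - k) := by
  unfold itp
  obtain ⟨r, rfl⟩ := Nat.exists_eq_add_of_lt hk
  have e : k + r + 1 = k + 1 + r := by ring
  rw [e, Finset.sum_range_add, Finset.sum_range_succ]
  have s1 : ∑ i ∈ Finset.range k, ((c (i + 1) : ℝ) - c i) * clamp (t - i) = c k - c 0 := by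
    rw [← Finset.sum_range_sub (fun i => (c i : ℝ))]
    apply Finset.sum_congr rfl
    intro i hi
    have hi' : (i : ℝ) + 1 ≤ k := by exact_mod_cast Finset.mem_range.1 hi
    rw [clamp_one (by linarith), mul_one]
  have s2 : ∑ x ∈ Finset.range r, ((c (k + 1 + x + 1) : ℝ) - c (k + 1 + x)) *
      clamp (t - ((k + 1 + x : ℕ) : ℝ)) = 0 := by
    apply Finset.sum_eq_zero
    intro i _
    have hi' : (0 : ℝ) ≤ i := Nat.cast_nonneg i
    rw [clamp_zero (by push_cast; linarith), mul_zero]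
  rw [s1, s2, clamp_id (by linarith) (by linarith)]
  ring

theorem itp_nat {c : ℕ → ℤ} {l k : ℕ} (hk : k ≤ l) : itp c l k = c k := by
  rcases hk.lt_or_eq with h | rfl
  · rw [itp_eq h le_rfl (by linarith)]; ring
  · unfold itp
    have s1 : ∑ i ∈ Finset.range k, ((c (i + 1) : ℝ) - c i) * clamp (k - i) = c k - c 0 := by
      rw [← Finset.sum_range_sub (fun i => (c i : ℝ))]
      apply Finset.sum_congr rfl
      intro i hi
      have hi' : (i : ℝ) + 1 ≤ k := by exact_mod_cast Finset.mem_range.1 hi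
      rw [clamp_one (by linarith), mul_one]
    rw [s1]; ring

/-- `itp` at `t` is close to the value at the floor. -/
theorem itp_floor {c : ℕ → ℤ} {l : ℕ} (hs : St c 0 l) {t : ℝ} (h0 : 0 ≤ t) (h1 : t ≤ l) :
    |itp c l t - c ⌊t⌋₊| ≤ 1 := by
  rcases h1.lt_or_eq with h | h
  · have hk : ⌊t⌋₊ < l := by
      rw [Nat.floor_lt h0]; exact h
    have h2 := Nat.floor_le h0
    have h3 := (Nat.lt_floor_add_one t).le
    rw [itp_eq hk h2 h3]
    have h4 : |((c (⌊t⌋₊ + 1) : ℝ) - c ⌊t⌋₊)| ≤ 1 := by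
      have := hs ⌊t⌋₊ (Nat.zero_le _) hk
      exact_mod_cast this
    rw [add_sub_cancel_left, abs_mul]
    calc |((c (⌊t⌋₊ + 1) : ℝ) - c ⌊t⌋₊)| * |t - ⌊t⌋₊| ≤ 1 * 1 := by
          apply mul_le_mul h4 _ (abs_nonneg _) zero_le_one
          rw [abs_le]; constructor <;> linarith
      _ = 1 := one_mul _
  · rw [h, Nat.floor_natCast, itp_nat le_rfl]
    simp

theorem itp_ceil {c : ℕ → ℤ} {l : ℕ} (hs : St c 0 l) {t : ℝ} (h0 : 0 ≤ t) (h1 : t ≤ l) :
    |itp c l t - c ⌈t⌉₊| ≤ 1 := by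
  rcases h0.lt_or_eq with h | h
  · have hpos : 0 < ⌈t⌉₊ := Nat.ceil_pos.2 h
    obtain ⟨k, hk⟩ : ∃ k, ⌈t⌉₊ = k + 1 := ⟨⌈t⌉₊ - 1, by omega⟩
    have hkl : k < l := by
      have : ⌈t⌉₊ ≤ l := Nat.ceil_le.2 h1
      omega
    have h2 : (k : ℝ) ≤ t := by
      have := Nat.ceil_lt_add_one h0
      rw [hk] at this
      push_cast at this
      linarith
    have h3 : t ≤ k + 1 := by
      have := Nat.le_ceil t
      rw [hk] at this
      push_cast at this
      linarith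
    rw [itp_eq hkl h2 h3, hk]
    have h4 : |((c (k + 1) : ℝ) - c k)| ≤ 1 := by
      have := hs k (Nat.zero_le _) hkl
      exact_mod_cast this
    have e : (c k : ℝ) + ((c (k + 1) : ℝ) - c k) * (t - k) - c (k + 1) =
      ((c (k + 1) : ℝ) - c k) * (t - k - 1) := by ring
    rw [e, abs_mul]
    calc |((c (k + 1) : ℝ) - c k)| * |t - k - 1| ≤ 1 * 1 := by
          apply mul_le_mul h4 _ (abs_nonneg _) zero_le_one
          rw [abs_le]; constructor <;> linarith
      _ = 1 := one_mul _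
  · rw [← h]
    have := itp_nat (c := c) (l := l) (k := 0) (Nat.zero_le _)
    simp only [Nat.cast_zero] at this
    rw [this]; simp

theorem itp_range {n l : ℕ} {c : ℕ → ℤ} (w : Word n l c) {t : ℝ} (h0 : 0 ≤ t) (h1 : t ≤ l) :
    0 ≤ itp c l t ∧ itp c l t ≤ n := by
  rcases h1.lt_or_eq with h | h
  · have hk : ⌊t⌋₊ < l := by
      rw [Nat.floor_lt h0]; exact h
    have h2 := Nat.floor_le h0
    have h3 := (Nat.lt_floor_add_one t).le
    rw [itp_eq hk h2 h3]
    have a1 : (0 : ℝ) ≤ c ⌊t⌋₊ := by exact_mod_cast (w.range _ hk.le).1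
    have a2 : (c ⌊t⌋₊ : ℝ) ≤ n := by exact_mod_cast (w.range _ hk.le).2
    have b1 : (0 : ℝ) ≤ c (⌊t⌋₊ + 1) := by exact_mod_cast (w.range _ (by omega)).1
    have b2 : (c (⌊t⌋₊ + 1) : ℝ) ≤ n := by exact_mod_cast (w.range _ (by omega)).2
    have e : (c ⌊t⌋₊ : ℝ) + ((c (⌊t⌋₊ + 1) : ℝ) - c ⌊t⌋₊) * (t - ⌊t⌋₊) =
      (1 - (t - ⌊t⌋₊)) * c ⌊t⌋₊ + (t - ⌊t⌋₊) * c (⌊t⌋₊ + 1) := by ring
    rw [e]
    have p1 : 0 ≤ 1 - (t - ⌊t⌋₊) := by linarith
    have p2 : 0 ≤ t - ⌊t⌋₊ := by linarith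
    constructor
    · positivity
    · nlinarith
  · rw [h, itp_nat le_rfl, w.last]
    constructor
    · exact_mod_cast Nat.zero_le n
    · exact_mod_cast le_rfl

theorem itp_crooked {n l : ℕ} {c : ℕ → ℤ} (w : Word n l c) {s t : ℝ} (h0 : 0 ≤ s) (hst : s ≤ t)
    (h1 : t ≤ l) : ∃ u v : ℝ, s ≤ u ∧ u ≤ v ∧ v ≤ t ∧ |itp c l u - itp c l t| ≤ 2 ∧
      |itp c l v - itp c l s| ≤ 2 := by
  rcases le_or_gt ⌈s⌉₊ ⌊t⌋₊ with h | h
  · have htl : ⌊t⌋₊ ≤ l := by
      have := Nat.floor_le_floor h1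
      simpa using this
    obtain ⟨u, v, a1, a2, a3, a4, a5⟩ := w.crook ⌈s⌉₊ ⌊t⌋₊ (Nat.zero_le _) h htl
    have b1 : s ≤ u := (Nat.le_ceil s).trans (by exact_mod_cast a1)
    have b3 : (v : ℝ) ≤ t := le_trans (by exact_mod_cast a3) (Nat.floor_le (h0.trans hst))
    have f1 := itp_floor w.step (h0.trans hst) h1
    have f2 := itp_ceil w.step h0 (hst.trans h1)
    have a4' : |(c u : ℝ) - c ⌊t⌋₊| ≤ 1 := by exact_mod_cast a4
    have a5' : |(c v : ℝ) - c ⌈s⌉₊| ≤ 1 := by exact_mod_cast a5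
    refine ⟨u, v, b1, by exact_mod_cast a2, b3, ?_, ?_⟩
    · rw [itp_nat (by omega)]
      rw [abs_le] at *
      constructor <;> linarith
    · rw [itp_nat (by omega)]
      rw [abs_le] at *
      constructor <;> linarith
  · -- no integer in `[s, t]`
    have hst2 : |s - t| ≤ 1 := by
      have k1 : (⌊t⌋₊ : ℝ) < s := by
        by_contra hn
        push Not at hn
        have := Nat.ceil_le.2 hn
        omega
      have k2 := Nat.lt_floor_add_one t
      rw [abs_le]; constructor <;> linarith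
    refine ⟨t, t, hst, le_rfl, le_rfl, by simp, ?_⟩
    -- both lie in the same interval
    have k1 : (⌊t⌋₊ : ℝ) < s := by
      by_contra hn
      push Not at hn
      have := Nat.ceil_le.2 hn
      omega
    have k2 := Nat.lt_floor_add_one t
    have hk : ⌊t⌋₊ < l := by
      have : (⌊t⌋₊ : ℝ) < l := by linarith
      exact_mod_cast this
    rw [itp_eq hk (Nat.floor_le (h0.trans hst)) k2.le, itp_eq hk k1.le (by linarith)]
    have h4 : |((c (⌊t⌋₊ + 1) : ℝ) - c ⌊t⌋₊)| ≤ 1 := by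
      have := w.step ⌊t⌋₊ (Nat.zero_le _) hk
      exact_mod_cast this
    have e : (c ⌊t⌋₊ : ℝ) + ((c (⌊t⌋₊ + 1) : ℝ) - c ⌊t⌋₊) * (t - ⌊t⌋₊) -
        ((c ⌊t⌋₊ : ℝ) + ((c (⌊t⌋₊ + 1) : ℝ) - c ⌊t⌋₊) * (s - ⌊t⌋₊)) =
      ((c (⌊t⌋₊ + 1) : ℝ) - c ⌊t⌋₊) * (t - s) := by ring
    rw [e, abs_mul]
    calc |((c (⌊t⌋₊ + 1) : ℝ) - c ⌊t⌋₊)| * |t - s| ≤ 1 * 1 := by
          apply mul_le_mul h4 _ (abs_nonneg _) zero_le_one
          rw [abs_sub_comm]; exact hst2
      _ ≤ 2 := by norm_num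

/-- Crooked maps of the unit interval. -/
theorem exists_crooked (N : ℕ) (hN : 0 < N) : ∃ (L : ℕ) (f : ℝ → ℝ), 1 ≤ L ∧
    (∀ x y, |f x - f y| ≤ L * |x - y|) ∧ f 0 = 0 ∧ f 1 = 1 ∧
    (∀ x, 0 ≤ x → x ≤ 1 → 0 ≤ f x ∧ f x ≤ 1) ∧
    ∀ s t, 0 ≤ s → s ≤ t → t ≤ 1 → ∃ u v, s ≤ u ∧ u ≤ v ∧ v ≤ t ∧
      |f u - f t| ≤ 1 / N ∧ |f v - f s| ≤ 1 / N := by
  obtain ⟨l, c, w⟩ := exists_word (2 * N)
  have hNr : (0 : ℝ) < N := by exact_mod_cast hN
  have hn : (0 : ℝ) < ((2 * N : ℕ) : ℝ) := by push_cast; linarith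
  have hl : 0 < l := by
    rcases Nat.eq_zero_or_pos l with h | h
    · exfalso
      have h1 := w.last
      rw [h, w.zero] at h1
      have : (0 : ℤ) < ((2 * N : ℕ) : ℤ) := by exact_mod_cast (by omega)
      omega
    · exact h
  have hlr : (0 : ℝ) < l := by exact_mod_cast hl
  refine ⟨l * l, fun t => itp c l (l * t) / (2 * N : ℕ), ?_, ?_, ?_, ?_, ?_, ?_⟩
  · exact Nat.one_le_iff_ne_zero.2 (Nat.mul_ne_zero hl.ne' hl.ne')
  · intro x y
    rw [← sub_div, abs_div, abs_of_pos hn, div_le_iff₀ hn]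
    have h1 := itp_lip w.step (l * x) (l * y)
    have h2 : |(l : ℝ) * x - l * y| = l * |x - y| := by
      rw [← mul_sub, abs_mul, abs_of_pos hlr]
    rw [h2] at h1
    have h3 : (1 : ℝ) ≤ ((2 * N : ℕ) : ℝ) := by
      have : 1 ≤ 2 * N := by omega
      exact_mod_cast this
    have h4 : 0 ≤ (l : ℝ) * (l * |x - y|) := by positivity
    calc |itp c l (l * x) - itp c l (l * y)| ≤ l * (l * |x - y|) := h1
      _ ≤ l * (l * |x - y|) * ((2 * N : ℕ) : ℝ) := le_mul_of_one_le_right h4 h3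
      _ = ((l * l : ℕ) : ℝ) * |x - y| * ((2 * N : ℕ) : ℝ) := by push_cast; ring
  · have := itp_nat (c := c) (l := l) (k := 0) (Nat.zero_le _)
    simp only [Nat.cast_zero] at this
    simp only [mul_zero]
    rw [this, w.zero]; simp
  · simp only [mul_one]
    rw [itp_nat le_rfl, w.last]
    rw [Int.cast_natCast]
    exact div_self hn.ne'
  · intro x h0 h1
    have := itp_range w (t := l * x) (by positivity) (by nlinarith)
    constructor
    · exact div_nonneg this.1 hn.le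
    · rw [div_le_one hn]; exact this.2
  · intro s t h0 hst h1
    obtain ⟨u, v, a1, a2, a3, a4, a5⟩ := itp_crooked w (s := l * s) (t := l * t) (by positivity)
      (by nlinarith) (by nlinarith)
    have e : (2 : ℝ) / (2 * N : ℕ) = 1 / N := by push_cast; field_simp
    have eu : (l : ℝ) * (u / l) = u := by field_simp
    have ev : (l : ℝ) * (v / l) = v := by field_simp
    refine ⟨u / l, v / l, ?_, ?_, ?_, ?_, ?_⟩
    · rw [le_div_iff₀ hlr]; linarith
    · gcongr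
    · rw [div_le_iff₀ hlr]; linarith
    · simp only []
      rw [eu, ← sub_div, abs_div, abs_of_pos hn, ← e]
      gcongr
    · simp only []
      rw [ev, ← sub_div, abs_div, abs_of_pos hn, ← e]
      gcongr

end Pool.Agent.H85.Crook
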