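import Pool.Agent.H85.Space
import Pool.Agent.H85.Cube

/-!
The main theorem: an infinite-dimensional Peano continuum all of whose subsets have trivial
higher homotopy groups.
-/

open Set Topology
open scoped Topology.Homotopy

namespace Pool.Agent.H85.PeanoMain

theorem main :
    ∃ (X : Type) (_ : MetricSpace X), CompactSpace X ∧ ConnectedSpace X ∧
      LocallyConnectedSpace X ∧ (∀ n : ℕ, ¬ CovDimLE X n) ∧
      ∀ (M : Set X) (x : M) (m : ℕ), 2 ≤ m → Subsingleton (π_ m M x) := by
  obtain ⟨f, Λ, h⟩ := Pseudo.exists_cseq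
  obtain ⟨Φ, hΦ⟩ := Space.exists_ext h
  refine ⟨Space.XX Φ, TopologicalSpace.metrizableSpaceMetric (Space.XX Φ), ?_⟩
  refine ⟨Space.compact_XX Φ, Space.connected_XX Φ, Space.locallyConnected_XX Φ,
    Space.dim_XX h hΦ, ?_⟩
  intro M x m hm
  exact Cube.trivial_pi (Space.closed_CX Φ) (Space.path_CX h hΦ) (Space.rim_CX Φ) M x hm

end Pool.Agent.H85.PeanoMain
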