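import Pool.Agent.H85.Interp

/-!
The inverse limit of crooked maps: a compact space all of whose paths are constant, in which any
two points `0`, `1` are joined by chains with arbitrarily small steps.
-/

open Set Topology

namespace Pool.Agent.H85.Pseudo

/-- A sequence of more and more crooked maps. -/
structure CSeq (f : ℕ → ℝ → ℝ) (Λ : ℕ → ℕ) : Prop where
  base : Λ 0 = 1
  pos : ∀ n, 1 ≤ Λ n
  le_succ : ∀ n, Λ n ≤ Λ (n + 1)
  lip : ∀ n x y, (Λ n : ℝ) * |f n x - f n y| ≤ Λ (n + 1) * |x - y|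
  zero : ∀ n, f n 0 = 0
  one : ∀ n, f n 1 = 1
  maps : ∀ n x, 0 ≤ x → x ≤ 1 → 0 ≤ f n x ∧ f n x ≤ 1
  crook : ∀ n s t, 0 ≤ s → s ≤ t → t ≤ 1 → ∃ u v, s ≤ u ∧ u ≤ v ∧ v ≤ t ∧
    (Λ n : ℝ) * |f n u - f n t| ≤ 1 / (n + 1) ∧ (Λ n : ℝ) * |f n v - f n s| ≤ 1 / (n + 1)

theorem exists_cseq : ∃ f Λ, CSeq f Λ := by
  have key : ∀ N : ℕ, ∃ (L : ℕ) (f : ℝ → ℝ), 1 ≤ L ∧
    (∀ x y, |f x - f y| ≤ L * |x - y|) ∧ f 0 = 0 ∧ f 1 = 1 ∧
    (∀ x, 0 ≤ x → x ≤ 1 → 0 ≤ f x ∧ f x ≤ 1) ∧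
    ∀ s t, 0 ≤ s → s ≤ t → t ≤ 1 → ∃ u v, s ≤ u ∧ u ≤ v ∧ v ≤ t ∧
      |f u - f t| ≤ 1 / ((N + 1 : ℕ) : ℝ) ∧ |f v - f s| ≤ 1 / ((N + 1 : ℕ) : ℝ) :=
    fun N => Crook.exists_crooked (N + 1) (Nat.succ_pos N)
  choose L f h1 h2 h3 h4 h5 h6 using key
  obtain ⟨Λ, hΛ0, hΛ⟩ : ∃ Λ : ℕ → ℕ, Λ 0 = 1 ∧ ∀ n, Λ (n + 1) = Λ n * L ((n + 1) * Λ n) :=
    ⟨fun n => Nat.rec 1 (fun n a => a * L ((n + 1) * a)) n, rfl, fun n => rfl⟩
  have hpos : ∀ n, 1 ≤ Λ n := by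
    intro n
    induction n with
    | zero => exact hΛ0.ge
    | succ n ih =>
      rw [hΛ]
      exact Nat.one_le_iff_ne_zero.2 (Nat.mul_ne_zero (by omega) (by have := h1 ((n + 1) * Λ n); omega))
  refine ⟨fun n => f ((n + 1) * Λ n), Λ, ⟨hΛ0, hpos, ?_, ?_, fun n => h3 _, fun n => h4 _,
    fun n => h5 _, ?_⟩⟩
  · intro n
    rw [hΛ]
    exact Nat.le_mul_of_pos_right _ (by have := h1 ((n + 1) * Λ n); omega)
  · intro n x y
    rw [hΛ]
    push_cast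
    rw [mul_assoc]
    exact mul_le_mul_of_nonneg_left (h2 _ x y) (Nat.cast_nonneg _)
  · intro n s t hs hst ht
    obtain ⟨u, v, a1, a2, a3, a4, a5⟩ := h6 ((n + 1) * Λ n) s t hs hst ht
    have hL : (0 : ℝ) < Λ n := by exact_mod_cast hpos n
    have e : (Λ n : ℝ) * (1 / (((n + 1) * Λ n + 1 : ℕ) : ℝ)) ≤ 1 / (n + 1) := by
      rw [mul_one_div, div_le_div_iff₀ (by positivity) (by positivity)]
      push_cast
      nlinarith
    refine ⟨u, v, a1, a2, a3, ?_, ?_⟩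
    · exact (mul_le_mul_of_nonneg_left a4 hL.le).trans e
    · exact (mul_le_mul_of_nonneg_left a5 hL.le).trans e

/-- The inverse limit. -/
def P (f : ℕ → ℝ → ℝ) : Set (ℕ → ℝ) := {x | ∀ n, (0 ≤ x n ∧ x n ≤ 1) ∧ x n = f n (x (n + 1))}

variable {f : ℕ → ℝ → ℝ} {Λ : ℕ → ℕ}

theorem CSeq.cont (h : CSeq f Λ) (n : ℕ) : Continuous (f n) := by
  have h1 : (0 : ℝ) < Λ n := by exact_mod_cast h.pos n
  have hlip : ∀ x y, |f n x - f n y| ≤ (Λ (n + 1) / Λ n : ℝ) * |x - y| := by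
    intro x y
    have := h.lip n x y
    rw [div_mul_eq_mul_div, le_div_iff₀ h1]
    linarith
  have h2 : (0 : ℝ) ≤ (Λ (n + 1) / Λ n : ℝ) := by positivity
  have : LipschitzWith (Real.toNNReal (Λ (n + 1) / Λ n : ℝ)) (f n) := by
    apply LipschitzWith.of_dist_le_mul
    intro x y
    rw [Real.dist_eq, Real.dist_eq, Real.coe_toNNReal _ h2]
    exact hlip x y
  exact this.continuous

theorem CSeq.compact (h : CSeq f Λ) : IsCompact (P f) := by
  have h1 : IsCompact (Set.pi univ (fun _ : ℕ => Icc (0 : ℝ) 1)) :=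
    isCompact_univ_pi (fun _ => isCompact_Icc)
  apply h1.of_isClosed_subset
  · have : P f = ⋂ n, ({x : ℕ → ℝ | 0 ≤ x n ∧ x n ≤ 1} ∩ {x : ℕ → ℝ | x n = f n (x (n + 1))}) := by
      ext x; simp [P]
    rw [this]
    apply isClosed_iInter
    intro n
    apply IsClosed.inter
    · exact (isClosed_le continuous_const (continuous_apply n)).inter
        (isClosed_le (continuous_apply n) continuous_const)
    · exact isClosed_eq (continuous_apply n) ((h.cont n).comp (continuous_apply (n + 1)))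
  · intro x hx n _
    exact (hx n).1

theorem CSeq.lipP (h : CSeq f Λ) {x y : ℕ → ℝ} (hx : x ∈ P f) (hy : y ∈ P f) (m : ℕ) :
    ∀ j, j ≤ m → |x j - y j| ≤ Λ m * |x m - y m| := by
  induction m with
  | zero =>
    intro j hj
    obtain rfl : j = 0 := by omega
    rw [h.base]; simp
  | succ m ih =>
    intro j hj
    rcases Nat.lt_or_ge j (m + 1) with hj' | hj'
    · refine (ih j (by omega)).trans ?_
      rw [(hx m).2, (hy m).2]
      exact h.lip m _ _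
    · obtain rfl : j = m + 1 := by omega
      have : (1 : ℝ) ≤ Λ (m + 1) := by exact_mod_cast h.pos (m + 1)
      exact le_mul_of_one_le_left (abs_nonneg _) this

/-- The crooked property, without ordering of the end points. -/
theorem CSeq.crook' (h : CSeq f Λ) (n : ℕ) {σ τ : ℝ} (hσ : 0 ≤ σ ∧ σ ≤ 1) (hτ : 0 ≤ τ ∧ τ ≤ 1) :
    ∃ u ∈ uIcc σ τ, ∃ v ∈ uIcc u τ, (Λ n : ℝ) * |f n u - f n τ| ≤ 1 / (n + 1) ∧
      (Λ n : ℝ) * |f n v - f n σ| ≤ 1 / (n + 1) := by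
  rcases le_total σ τ with hle | hle
  · obtain ⟨u, v, a1, a2, a3, a4, a5⟩ := h.crook n σ τ hσ.1 hle hτ.2
    refine ⟨u, ?_, v, ?_, a4, a5⟩
    · rw [uIcc_of_le hle]; exact ⟨a1, a2.trans a3⟩
    · rw [uIcc_of_le (a2.trans a3)]; exact ⟨a2, a3⟩
  · obtain ⟨u, v, a1, a2, a3, a4, a5⟩ := h.crook n τ σ hτ.1 hle hσ.2
    refine ⟨v, ?_, u, ?_, a5, a4⟩
    · rw [uIcc_of_ge hle]; exact ⟨a1.trans a2, a3⟩
    · rw [uIcc_of_ge (a1.trans a2)]; exact ⟨a1, a2⟩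

/-- All paths in the inverse limit are constant. -/
theorem CSeq.path_const (h : CSeq f Λ) {γ : ℝ → ℕ → ℝ} (hγ : Continuous γ)
    (hP : ∀ t, γ t ∈ P f) (s₀ t₀ : ℝ) : γ s₀ = γ t₀ := by
  by_contra hne
  -- a coordinate where they differ, with `s₀ < t₀`
  wlog hst : s₀ ≤ t₀ generalizing s₀ t₀
  · exact this t₀ s₀ (Ne.symm hne) (le_of_lt (not_le.1 hst))
  obtain ⟨k, hk⟩ := Function.ne_iff.1 hne
  have hγk : ∀ n, Continuous (fun t => γ t n) := fun n => (continuous_apply n).comp hγ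
  -- the minimal pair
  set S : Set (ℝ × ℝ) := (Icc s₀ t₀ ×ˢ Icc s₀ t₀) ∩ {q | q.1 ≤ q.2 ∧ γ q.1 k = γ s₀ k ∧
    γ q.2 k = γ t₀ k} with hS
  have hSc : IsCompact S := by
    apply (isCompact_Icc.prod isCompact_Icc).inter_right
    apply (isClosed_le continuous_fst continuous_snd).inter
    apply IsClosed.inter
    · exact isClosed_eq ((hγk k).comp continuous_fst) continuous_const
    · exact isClosed_eq ((hγk k).comp continuous_snd) continuous_const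
  obtain ⟨⟨s, t⟩, hstS, hmin⟩ := hSc.exists_isMinOn (f := fun q : ℝ × ℝ => q.2 - q.1)
    ⟨(s₀, t₀), ⟨⟨⟨le_rfl, hst⟩, ⟨hst, le_rfl⟩⟩, hst, rfl, rfl⟩⟩ (by fun_prop)
  obtain ⟨⟨⟨hs1, hs2⟩, ⟨ht1, ht2⟩⟩, hst', hsk, htk⟩ := hstS
  simp only at hs1 hs2 ht1 ht2 hst' hsk htk
  -- the compact set of intermediate pairs
  set K : Set (ℝ × ℝ) := (Icc s t ×ˢ Icc s t) ∩ {q | q.1 ≤ q.2} with hK
  have hKc : IsCompact K :=
    (isCompact_Icc.prod isCompact_Icc).inter_right (isClosed_le continuous_fst continuous_snd)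
  set φ : ℝ × ℝ → ℝ := fun q => max |γ q.1 k - γ t₀ k| |γ q.2 k - γ s₀ k| with hφ
  have hφc : Continuous φ := by
    have c1 : Continuous (fun q : ℝ × ℝ => γ q.1 k) := (hγk k).comp continuous_fst
    have c2 : Continuous (fun q : ℝ × ℝ => γ q.2 k) := (hγk k).comp continuous_snd
    fun_prop
  obtain ⟨⟨s', t'⟩, hst'K, hmin'⟩ := hKc.exists_isMinOn (f := φ)
    ⟨(s, t), ⟨⟨⟨le_rfl, hst'⟩, ⟨hst', le_rfl⟩⟩, hst'⟩⟩ hφc.continuousOn
  have hsmall : ∀ n : ℕ, k ≤ n → φ (s', t') ≤ 1 / ((n : ℝ) + 1) := by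
    intro n hn
    obtain ⟨u, hu, v, hv, h1, h2⟩ := h.crook' n (hP s (n + 1)).1 (hP t (n + 1)).1
    obtain ⟨x, hx, hxu⟩ := intermediate_value_uIcc (hγk (n + 1)).continuousOn hu
    simp only at hxu
    rw [← hxu] at hv
    obtain ⟨y, hy, hyv⟩ := intermediate_value_uIcc (hγk (n + 1)).continuousOn hv
    simp only at hyv
    rw [uIcc_of_le hst'] at hx
    rw [uIcc_of_le hx.2] at hy
    have hxy : (x, y) ∈ K := ⟨⟨hx, ⟨hx.1.trans hy.1, hy.2⟩⟩, hy.1⟩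
    refine (hmin' hxy).trans ?_
    apply max_le
    · show |γ x k - γ t₀ k| ≤ _
      rw [← htk]
      refine (h.lipP (hP x) (hP t) n k hn).trans ?_
      rw [(hP x n).2, (hP t n).2, hxu]
      exact h1
    · show |γ y k - γ s₀ k| ≤ _
      rw [← hsk]
      refine (h.lipP (hP y) (hP s) n k hn).trans ?_
      rw [(hP y n).2, (hP s n).2, hyv]
      exact h2
  have hzero : φ (s', t') ≤ 0 := by
    by_contra hpos
    push Not at hpos
    obtain ⟨n, hn⟩ := exists_nat_one_div_lt hpos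
    have h1 := hsmall (max n k) (le_max_right _ _)
    have h2 : (1 : ℝ) / ((max n k : ℕ) + 1) ≤ 1 / (n + 1) := by
      apply one_div_le_one_div_of_le (by positivity)
      have : (n : ℝ) ≤ (max n k : ℕ) := by exact_mod_cast le_max_left n k
      linarith
    linarith
  have hs'k : γ s' k = γ t₀ k := by
    have h1 : |γ s' k - γ t₀ k| ≤ 0 := (le_max_left _ _).trans hzero
    exact sub_eq_zero.1 (abs_nonpos_iff.1 h1)
  have ht'k : γ t' k = γ s₀ k := by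
    have h1 : |γ t' k - γ s₀ k| ≤ 0 := (le_max_right _ _).trans hzero
    exact sub_eq_zero.1 (abs_nonpos_iff.1 h1)
  obtain ⟨⟨⟨p1, p2⟩, ⟨q1, q2⟩⟩, hs't'⟩ := hst'K
  simp only [mem_ofPred_eq] at p1 p2 q1 q2 hs't'
  have hmem : (s, s') ∈ S := by
    refine ⟨⟨⟨hs1, hs2⟩, ⟨hs1.trans p1, p2.trans ht2⟩⟩, p1, hsk, hs'k⟩
  have h3 : t - s ≤ s' - s := hmin hmem
  have h4 : s' = t := le_antisymm p2 (by linarith)
  have h5 : t' = t := le_antisymm q2 (by linarith)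
  apply hk
  rw [← ht'k, h5, htk]

/-- Preimages in the interval. -/
theorem CSeq.surj (h : CSeq f Λ) (n : ℕ) {t : ℝ} (ht : 0 ≤ t ∧ t ≤ 1) :
    ∃ s, (0 ≤ s ∧ s ≤ 1) ∧ f n s = t := by
  have := intermediate_value_Icc (zero_le_one' ℝ) (h.cont n).continuousOn
  rw [h.zero, h.one] at this
  obtain ⟨s, hs, hst⟩ := this ht
  exact ⟨s, hs, hst⟩

theorem CSeq.tail (h : CSeq f Λ) (m : ℕ) {t : ℝ} (ht : 0 ≤ t ∧ t ≤ 1) :
    ∃ z ∈ P (fun n => f (m + n)), z 0 = t := by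
  choose! g hg1 hg2 using fun n t => h.surj (n := n) (t := t)
  let z : ℕ → ℝ := fun n => Nat.rec t (fun n a => g (m + n) a) n
  have hz : ∀ n, z (n + 1) = g (m + n) (z n) := fun n => rfl
  have hz01 : ∀ n, 0 ≤ z n ∧ z n ≤ 1 := by
    intro n
    induction n with
    | zero => exact ht
    | succ n ih => rw [hz]; exact hg1 _ _ ih
  refine ⟨z, fun n => ⟨hz01 n, ?_⟩, rfl⟩
  show z n = f (m + n) (z (n + 1))
  rw [hz, hg2 _ _ (hz01 n)]

theorem CSeq.head (h : CSeq f Λ) (m : ℕ) : ∀ z ∈ P (fun n => f (m + n)),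
    ∃ x ∈ P f, ∀ n, x (m + n) = z n := by
  induction m with
  | zero =>
    intro z hz
    refine ⟨z, ?_, fun n => by rw [Nat.zero_add]⟩
    intro n
    have := hz n
    simpa using this
  | succ m ih =>
    intro z hz
    let z' : ℕ → ℝ := fun n => Nat.casesOn n (f m (z 0)) (fun n => z n)
    have hz' : z' ∈ P (fun n => f (m + n)) := by
      intro n
      cases n with
      | zero => exact ⟨h.maps m _ (hz 0).1.1 (hz 0).1.2, rfl⟩
      | succ n =>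
        have e : m + 1 + n = m + (n + 1) := by ring
        refine ⟨(hz n).1, ?_⟩
        have h2 : z n = f (m + 1 + n) (z (n + 1)) := (hz n).2
        rw [e] at h2
        exact h2
    obtain ⟨x, hx, hxz⟩ := ih z' hz'
    refine ⟨x, hx, fun n => ?_⟩
    have := hxz (n + 1)
    have e : m + 1 + n = m + (n + 1) := by ring
    rw [e, this]

theorem CSeq.lift (h : CSeq f Λ) (m : ℕ) {t : ℝ} (ht : 0 ≤ t ∧ t ≤ 1) : ∃ x ∈ P f, x m = t := by
  obtain ⟨z, hz, hz0⟩ := h.tail m ht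
  obtain ⟨x, hx, hxz⟩ := h.head m z hz
  exact ⟨x, hx, by have := hxz 0; rw [Nat.add_zero] at this; rw [this, hz0]⟩

theorem CSeq.zero_mem (h : CSeq f Λ) : (fun _ => 0) ∈ P f := fun n => ⟨by simp, (h.zero n).symm⟩

theorem CSeq.one_mem (h : CSeq f Λ) : (fun _ => 1) ∈ P f := fun n => ⟨by simp, (h.one n).symm⟩

/-- Chains with small steps between the two end points. -/
theorem CSeq.chain (h : CSeq f Λ) (m : ℕ) {δ : ℝ} (hδ : 0 < δ) :
    ∃ (M : ℕ) (c : ℕ → ℕ → ℝ), 0 < M ∧ c 0 = (fun _ => 0) ∧ c M = (fun _ => 1) ∧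
      (∀ i, c i ∈ P f) ∧ ∀ i, i < M → ∀ j, j ≤ m → |c i j - c (i + 1) j| ≤ δ := by
  obtain ⟨M, hM⟩ := exists_nat_gt ((Λ m : ℝ) / δ)
  have hL : (0 : ℝ) < Λ m := by exact_mod_cast h.pos m
  have hMr : (0 : ℝ) < M := lt_trans (div_pos hL hδ) hM
  have hM0 : 0 < M := by exact_mod_cast hMr
  have key : ∀ i : ℕ, ∃ x ∈ P f, (i ≤ M → x m = (i : ℝ) / M) ∧ (i = 0 → x = fun _ => 0) ∧
      (i = M → x = fun _ => 1) := by
    intro i
    rcases Nat.eq_zero_or_pos i with h0 | h0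
    · refine ⟨fun _ => 0, h.zero_mem, ?_, fun _ => rfl, fun hi => by omega⟩
      intro _; rw [h0]; simp
    rcases Nat.lt_or_ge i M with h1 | h1
    · have hi : (0 : ℝ) ≤ (i : ℝ) / M ∧ (i : ℝ) / M ≤ 1 := by
        constructor
        · positivity
        · rw [div_le_one hMr]; exact_mod_cast h1.le
      obtain ⟨x, hx, hxm⟩ := h.lift m hi
      exact ⟨x, hx, fun _ => hxm, fun h => by omega, fun h => by omega⟩
    · refine ⟨fun _ => 1, h.one_mem, ?_, fun h => by omega, fun _ => rfl⟩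
      intro hi
      have : i = M := by omega
      rw [this, div_self hMr.ne']
  choose c hc1 hc2 hc3 hc4 using key
  refine ⟨M, c, hM0, hc3 0 rfl, hc4 M rfl, hc1, ?_⟩
  intro i hi j hj
  refine (h.lipP (hc1 i) (hc1 (i + 1)) m j hj).trans ?_
  rw [hc2 i hi.le, hc2 (i + 1) hi]
  have e : (i : ℝ) / M - ((i + 1 : ℕ) : ℝ) / M = -(1 / M) := by push_cast; ring
  rw [e, abs_neg, abs_of_pos (by positivity), mul_one_div, div_le_iff₀ hMr]
  rw [div_lt_iff₀ hδ] at hM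
  linarith

end Pool.Agent.H85.Pseudo
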