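import Pool.Agent.H85.Uni

/-!
Separation of components of preimages by connected sets on which the map is constant.
-/

open Set Topology

namespace Pool.Agent.H85.Sep

variable {Z : Type*} [TopologicalSpace Z] {X : Type*} [TopologicalSpace X]

/-- `D` has arbitrarily small open neighbourhoods (off compact sets) with finite frontier. -/
def RimFin (D : Set X) : Prop :=
  ∀ B : Set X, IsCompact B → Disjoint D B →
    ∃ A : Set X, IsOpen A ∧ D ⊆ A ∧ Disjoint A B ∧ (frontier A).Finite

/-- A preconnected set meeting a set and its complement meets the frontier. -/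
theorem inter_frontier_nonempty {T S : Set Z} (hT : IsPreconnected T) (h1 : (T ∩ S).Nonempty)
    (h2 : (T ∩ Sᶜ).Nonempty) : (T ∩ frontier S).Nonempty := by
  by_contra hne
  rw [not_nonempty_iff_eq_empty] at hne
  have hcov : T ⊆ interior S ∪ (closure S)ᶜ := by
    intro x hx
    by_contra hxn
    simp only [mem_union, mem_compl_iff, not_or, not_not] at hxn
    have : x ∈ T ∩ frontier S := ⟨hx, hxn.2, hxn.1⟩
    rw [hne] at this
    exact this
  obtain ⟨x, hxT, hxS⟩ := h1
  obtain ⟨y, hyT, hyS⟩ := h2
  have hx : x ∈ interior S := by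
    rcases hcov hxT with h | h
    · exact h
    · exact absurd (subset_closure hxS) h
  have hy : y ∈ (closure S)ᶜ := by
    rcases hcov hyT with h | h
    · exact absurd (interior_subset h) hyS
    · exact h
  obtain ⟨w, _, hw1, hw2⟩ := hT _ _ isOpen_interior isClosed_closure.isOpen_compl hcov
    ⟨x, hxT, hx⟩ ⟨y, hyT, hy⟩
  exact hw2 (subset_closure (interior_subset hw1))

/-- Components of closed subsets of compact Hausdorff spaces can be separated. -/
theorem exists_clopen_nhd [CompactSpace Z] [T2Space Z] {K : Set Z} (hK : IsClosed K) {p : Z}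
    (hp : p ∈ K) {O : Set Z} (hO : IsOpen O) (hQ : connectedComponentIn K p ⊆ O) :
    ∃ S : Set Z, IsOpen S ∧ connectedComponentIn K p ⊆ S ∧ closure S ⊆ O ∧
      Disjoint (frontier S) K := by
  have : CompactSpace K := isCompact_iff_compactSpace.1 hK.isCompact
  have h1 : connectedComponent (⟨p, hp⟩ : K) =
      ⋂ s : { s : Set K // IsClopen s ∧ (⟨p, hp⟩ : K) ∈ s }, (s : Set K) :=
    connectedComponent_eq_iInter_isClopen _
  have hQeq : connectedComponentIn K p = (↑) '' connectedComponent (⟨p, hp⟩ : K) :=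
    connectedComponentIn_eq_image hp
  have : Nonempty { s : Set K // IsClopen s ∧ (⟨p, hp⟩ : K) ∈ s } :=
    ⟨⟨univ, isClopen_univ, trivial⟩⟩
  obtain ⟨⟨s, hs, hps⟩, hsO⟩ := exists_subset_nhds_of_compactSpace
    (V := fun s : { s : Set K // IsClopen s ∧ (⟨p, hp⟩ : K) ∈ s } => (s : Set K))
    (by
      rintro ⟨s, hs⟩ ⟨t, ht⟩
      exact ⟨⟨s ∩ t, hs.1.inter ht.1, hs.2, ht.2⟩, inter_subset_left, inter_subset_right⟩)
    (fun s => s.2.1.isClosed) (U := (↑) ⁻¹' O) (by
      intro x hx
      rw [← h1] at hx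
      apply (hO.preimage continuous_subtype_val).mem_nhds
      apply hQ
      rw [hQeq]
      exact ⟨x, hx, rfl⟩)
  simp only at hsO
  -- the two closed pieces
  have hc1 : IsClosed ((↑) '' s : Set Z) := hK.isClosedEmbedding_subtypeVal.isClosedMap _ hs.isClosed
  have hc2 : IsClosed ((↑) '' sᶜ : Set Z) :=
    hK.isClosedEmbedding_subtypeVal.isClosedMap _ hs.compl.isClosed
  have hsub : ((↑) '' s : Set Z) ⊆ O ∩ ((↑) '' sᶜ : Set Z)ᶜ := by
    rintro _ ⟨x, hx, rfl⟩
    refine ⟨hsO hx, ?_⟩
    rintro ⟨y, hy, hxy⟩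
    exact hy (by rwa [Subtype.val_injective hxy])
  obtain ⟨S, hSo, hsS, hSO⟩ := normal_exists_closure_subset hc1
    (hO.inter hc2.isOpen_compl) hsub
  refine ⟨S, hSo, ?_, fun x hx => (hSO hx).1, ?_⟩
  · rw [hQeq]
    refine (image_mono ?_).trans hsS
    rw [h1]
    exact iInter_subset (fun s : { s : Set K // IsClopen s ∧ (⟨p, hp⟩ : K) ∈ s } => (s : Set K))
      ⟨s, hs, hps⟩
  · rw [Set.disjoint_left]
    intro x hx hxK
    have hx1 : x ∈ closure S := frontier_subset_closure hx
    by_cases hxs : (⟨x, hxK⟩ : K) ∈ s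
    · have hxS : x ∈ S := hsS ⟨_, hxs, rfl⟩
      rw [hSo.frontier_eq] at hx
      exact hx.2 hxS
    · exact (hSO hx1).2 ⟨_, hxs, rfl⟩

/-- The frontier of a component of an open set is disjoint from the open set. -/
theorem frontier_component_disjoint [LocallyConnectedSpace Z] {U : Set Z} (hU : IsOpen U) {p : Z} :
    Disjoint (frontier (connectedComponentIn U p)) U := by
  rw [Set.disjoint_left]
  intro x hx hxU
  have hVo : IsOpen (connectedComponentIn U p) := hU.connectedComponentIn
  rw [hVo.frontier_eq] at hx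
  have hWo : IsOpen (connectedComponentIn U x) := hU.connectedComponentIn
  obtain ⟨y, hy1, hy2⟩ := mem_closure_iff.1 hx.1 _ hWo (mem_connectedComponentIn hxU)
  apply hx.2
  rw [connectedComponentIn_eq hy2, ← connectedComponentIn_eq hy1]
  exact mem_connectedComponentIn hxU

/-- Main separation lemma. -/
theorem sep [CompactSpace Z] [T2Space Z] [SimplyConnectedSpace Z] [LocallyPathConnectedSpace Z]
    {f : Z → X} (hf : Continuous f) {D : Set X} (hD : IsClosed D) (hr : RimFin D)
    [T2Space X] {p : Z}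
    (hp : f p ∈ D) {O : Set Z} (hO : IsOpen O) (hQ : connectedComponentIn (f ⁻¹' D) p ⊆ O)
    {z : Z} (hz : z ∉ O) :
    ∃ L : Set Z, IsPreconnected L ∧ L ⊆ O ∧ (∀ x ∈ L, ∀ y ∈ L, f x = f y) ∧
      (∀ x ∈ L, f x ∉ D) ∧ ∀ T : Set Z, IsPreconnected T → z ∈ T →
        (T ∩ connectedComponentIn (f ⁻¹' D) p).Nonempty → (T ∩ L).Nonempty := by
  have hK : IsClosed (f ⁻¹' D) := hD.preimage hf
  obtain ⟨S, hSo, hQS, hSO, hSK⟩ := exists_clopen_nhd hK hp hO hQ
  have hpQ : p ∈ connectedComponentIn (f ⁻¹' D) p := mem_connectedComponentIn hp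
  have hB : IsCompact (f '' frontier S) := isClosed_frontier.isCompact.image hf
  have hDB : Disjoint D (f '' frontier S) := by
    rw [Set.disjoint_right]
    rintro _ ⟨x, hx, rfl⟩ hxD
    exact Set.disjoint_left.1 hSK hx hxD
  obtain ⟨A, hAo, hDA, hAB, hfin⟩ := hr _ hB hDB
  have hUo : IsOpen (f ⁻¹' A) := hAo.preimage hf
  set V := connectedComponentIn (f ⁻¹' A) p with hV
  have hVo : IsOpen V := hUo.connectedComponentIn
  have hVc : IsPreconnected V := isPreconnected_connectedComponentIn
  have hpV : p ∈ V := mem_connectedComponentIn (hDA hp)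
  have hVS : V ⊆ S := by
    by_contra hne
    obtain ⟨y, hyV, hyS⟩ := not_subset.1 hne
    have hfr : (V ∩ frontier S).Nonempty := by
      exact inter_frontier_nonempty hVc ⟨p, hpV, hQS hpQ⟩ ⟨y, hyV, hyS⟩
    obtain ⟨x, hxV, hxS⟩ := hfr
    have hxA : x ∈ f ⁻¹' A := connectedComponentIn_subset _ _ hxV
    exact Set.disjoint_left.1 hAB hxA ⟨x, hxS, rfl⟩
  have hVO : closure V ⊆ O := (closure_mono hVS).trans hSO
  have hzV : z ∈ (closure V)ᶜ := fun h => hz (hVO h)
  set W := connectedComponentIn (closure V)ᶜ z with hW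
  have hWo : IsOpen W := isClosed_closure.isOpen_compl.connectedComponentIn
  have hzW : z ∈ W := mem_connectedComponentIn hzV
  have hWV : Disjoint V W := by
    rw [Set.disjoint_right]
    intro x hxW hxV
    exact connectedComponentIn_subset _ _ hxW (subset_closure hxV)
  have hWcl : Disjoint V (closure W) := hWV.closure_right hVo
  have hL : IsPreconnected (frontier W) :=
    Uni.frontier_preconnected hVc ⟨p, hpV⟩ z
  have hLV : frontier W ⊆ closure V := by
    intro x hx
    by_contra hxV
    exact Set.disjoint_left.1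
      (frontier_component_disjoint (isClosed_closure (s := V)).isOpen_compl (p := z)) hx hxV
  have hLfV : frontier W ⊆ frontier V := by
    intro x hx
    rw [hVo.frontier_eq]
    exact ⟨hLV hx, fun hxV => Set.disjoint_left.1 hWcl hxV (frontier_subset_closure hx)⟩
  have hfL : ∀ x ∈ frontier W, f x ∈ frontier A := by
    intro x hx
    have hx1 := hLfV hx
    rw [hAo.frontier_eq]
    constructor
    · have : x ∈ closure (f ⁻¹' A) :=
        closure_mono (connectedComponentIn_subset _ _) (frontier_subset_closure hx1)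
      exact hf.closure_preimage_subset A this
    · intro hxA
      exact Set.disjoint_left.1 (frontier_component_disjoint hUo (p := p)) hx1 hxA
  refine ⟨frontier W, hL, hLV.trans hVO, ?_, ?_, ?_⟩
  · intro x hx y hy
    exact hL.constant_of_mapsTo (T := frontier A) hfin.isDiscrete hf.continuousOn
      (fun w hw => hfL w hw) hx hy
  · intro x hx hxD
    have := hfL x hx
    rw [hAo.frontier_eq] at this
    exact this.2 (hDA hxD)
  · intro T hT hzT ⟨q, hqT, hqQ⟩
    have hqV : q ∈ V := by
      have : connectedComponentIn (f ⁻¹' D) p ⊆ V :=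
        isPreconnected_connectedComponentIn.subset_connectedComponentIn hpQ
          ((connectedComponentIn_subset _ _).trans (preimage_mono hDA))
      exact this hqQ
    exact inter_frontier_nonempty hT ⟨z, hzT, hzW⟩
      ⟨q, hqT, fun h => Set.disjoint_left.1 hWV hqV h⟩

end Pool.Agent.H85.Sep
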