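import Pool.Agent.H85.Pseudo
import Pool.Agent.H85.CoverDim

/-!
The Peano continuum: the unit interval with a Cantor set mapped onto an infinite power of the
inverse limit of crooked maps.
-/

open Set Topology Uniformity

namespace Pool.Agent.H85.Space

open Pseudo

variable {f : ℕ → ℝ → ℝ} {Λ : ℕ → ℕ}

/-- The ambient space. -/
abbrev E : Type := (ℕ → ℕ → ℝ) × (ℝ × ℝ)

/-- The infinite power of the inverse limit. -/
def CC (f : ℕ → ℝ → ℝ) : Set (ℕ → ℕ → ℝ) := {z | ∀ i, z i ∈ P f}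

theorem compact_CC (h : CSeq f Λ) : IsCompact (CC f) := by
  have := isCompact_univ_pi (fun _ : ℕ => h.compact)
  convert this using 1
  ext z
  simp [CC]

theorem nonempty_CC (h : CSeq f Λ) : (CC f).Nonempty := ⟨fun _ _ => 0, fun _ => h.zero_mem⟩

/-- A continuous map of the line to the ambient space of the power, mapping the Cantor set onto
the power. -/
theorem exists_ext (h : CSeq f Λ) : ∃ Φ : C(ℝ, ℕ → ℕ → ℝ), Φ '' cantorSet = CC f := by
  have hcomp : CompactSpace (CC f) := isCompact_iff_compactSpace.1 (compact_CC h)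
  have hne : Nonempty (CC f) := (nonempty_CC h).to_subtype
  let _ : MetricSpace (CC f) := TopologicalSpace.metrizableSpaceMetric (CC f)
  obtain ⟨φ, hφc, hφs⟩ := exists_nat_bool_continuous_surjective_of_compact (CC f)
  let g : C(cantorSet, ℕ → ℕ → ℝ) :=
    ⟨fun k => (φ (cantorSetHomeomorphNatToBool k) : ℕ → ℕ → ℝ), by
      exact continuous_subtype_val.comp (hφc.comp cantorSetHomeomorphNatToBool.continuous)⟩
  obtain ⟨Φ, hΦ⟩ := g.exists_restrict_eq isClosed_cantorSet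
  refine ⟨Φ, ?_⟩
  have hk : ∀ k : cantorSet, Φ k = g k := fun k => by rw [← hΦ]; rfl
  apply Subset.antisymm
  · rintro _ ⟨k, hk', rfl⟩
    rw [hk ⟨k, hk'⟩]
    exact (φ _).2
  · intro z hz
    obtain ⟨b, hb⟩ := hφs ⟨z, hz⟩
    refine ⟨cantorSetHomeomorphNatToBool.symm b, (cantorSetHomeomorphNatToBool.symm b).2, ?_⟩
    rw [hk]
    show ((φ (cantorSetHomeomorphNatToBool (cantorSetHomeomorphNatToBool.symm b))) : ℕ → ℕ → ℝ) = z
    rw [Homeomorph.apply_symm_apply, hb]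

/-- Distance to the Cantor set. -/
noncomputable def d (t : ℝ) : ℝ := Metric.infDist t cantorSet

theorem d_cont : Continuous d := Metric.continuous_infDist_pt _

theorem cantor_ne : (cantorSet : Set ℝ).Nonempty := ⟨_, (cantorSetHomeomorphNatToBool.symm
  (fun _ => true)).2⟩

theorem d_nonneg (t : ℝ) : 0 ≤ d t := Metric.infDist_nonneg

theorem d_zero_iff (t : ℝ) : d t = 0 ↔ t ∈ cantorSet :=
  (isClosed_cantorSet.mem_iff_infDist_zero cantor_ne).symm

/-- The parametrisation. -/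
noncomputable def Psi (Φ : C(ℝ, ℕ → ℕ → ℝ)) (t : unitInterval) : E := (Φ t, (d t, t * d t))

theorem Psi_cont (Φ : C(ℝ, ℕ → ℕ → ℝ)) : Continuous (Psi Φ) := by
  unfold Psi
  have := d_cont
  fun_prop

/-- The space. -/
def XX (Φ : C(ℝ, ℕ → ℕ → ℝ)) : Set E := range (Psi Φ)

/-- The parametrisation onto the space. -/
noncomputable def e (Φ : C(ℝ, ℕ → ℕ → ℝ)) (t : unitInterval) : XX Φ := ⟨Psi Φ t, t, rfl⟩

theorem e_cont (Φ : C(ℝ, ℕ → ℕ → ℝ)) : Continuous (e Φ) := (Psi_cont Φ).subtype_mk _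

theorem e_surj (Φ : C(ℝ, ℕ → ℕ → ℝ)) : Function.Surjective (e Φ) := by
  rintro ⟨_, t, rfl⟩
  exact ⟨t, rfl⟩

theorem compact_XX (Φ : C(ℝ, ℕ → ℕ → ℝ)) : CompactSpace (XX Φ) :=
  isCompact_iff_compactSpace.1 (isCompact_range (Psi_cont Φ))

theorem connected_XX (Φ : C(ℝ, ℕ → ℕ → ℝ)) : ConnectedSpace (XX Φ) :=
  (e_surj Φ).connectedSpace (e_cont Φ)

theorem locallyConnected_XX (Φ : C(ℝ, ℕ → ℕ → ℝ)) : LocallyConnectedSpace (XX Φ) := by
  have h1 : LocallyPathConnectedSpace unitInterval :=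
    (convex_Icc (0 : ℝ) 1).locallyPathConnectedSpace
  have h2 : IsClosedMap (e Φ) := (e_cont Φ).isClosedMap
  have h3 : LocallyPathConnectedSpace (XX Φ) :=
    (h2.isQuotientMap (e_cont Φ) (e_surj Φ)).locallyPathConnectedSpace
  infer_instance

/-- The part of the space which carries no paths. -/
def CX (Φ : C(ℝ, ℕ → ℕ → ℝ)) : Set (XX Φ) := {y | y.1.2.1 = 0}

theorem closed_CX (Φ : C(ℝ, ℕ → ℕ → ℝ)) : IsClosed (CX Φ) :=
  isClosed_eq (by fun_prop) continuous_const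

theorem mem_CX {Φ : C(ℝ, ℕ → ℕ → ℝ)} (hΦ : Φ '' cantorSet = CC f) {y : XX Φ} (hy : y ∈ CX Φ) :
    y.1.1 ∈ CC f ∧ y.1.2 = (0, 0) := by
  obtain ⟨t, rfl⟩ := e_surj Φ y
  have hd : d t = 0 := hy
  refine ⟨?_, ?_⟩
  · rw [← hΦ]
    exact ⟨t, (d_zero_iff t).1 hd, rfl⟩
  · show (d t, (t : ℝ) * d t) = (0, 0)
    rw [hd, mul_zero]

theorem path_CX (h : CSeq f Λ) {Φ : C(ℝ, ℕ → ℕ → ℝ)} (hΦ : Φ '' cantorSet = CC f)
    (γ : C(unitInterval, XX Φ)) (hγ : ∀ t, γ t ∈ CX Φ) (s t : unitInterval) : γ s = γ t := by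
  apply Subtype.ext
  apply Prod.ext
  · funext i
    have hc : Continuous (fun u : ℝ => (γ (Set.projIcc 0 1 zero_le_one u)).1.1 i) := by
      have h1 : Continuous (fun u : ℝ => γ (Set.projIcc 0 1 zero_le_one u)) :=
        γ.continuous.comp continuous_projIcc
      exact (continuous_apply i).comp (continuous_fst.comp (continuous_subtype_val.comp h1))
    have := h.path_const hc (fun u => (mem_CX hΦ (hγ _)).1 i) s t
    simpa using this
  · rw [(mem_CX hΦ (hγ s)).2, (mem_CX hΦ (hγ t)).2]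

theorem rim_CX (Φ : C(ℝ, ℕ → ℕ → ℝ)) (x : XX Φ) (hx : x ∉ CX Φ) (U : Set (XX Φ)) (hU : U ∈ 𝓝 x) :
    ∃ A, IsOpen A ∧ x ∈ A ∧ closure A ⊆ U ∧ (frontier A).Finite := by
  obtain ⟨t₀, rfl⟩ := e_surj Φ x
  have hd0 : 0 < d t₀ := lt_of_le_of_ne (d_nonneg _) (fun h => hx h.symm)
  -- the good radius
  have h1 : (e Φ) ⁻¹' U ∈ 𝓝 t₀ := (e_cont Φ).continuousAt hU
  have h2 : {t : unitInterval | 0 < d t} ∈ 𝓝 t₀ :=
    (isOpen_lt continuous_const (d_cont.comp continuous_subtype_val)).mem_nhds hd0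
  obtain ⟨ε, hε, hεU⟩ := Metric.nhds_basis_closedBall.mem_iff.1 (Filter.inter_mem h1 h2)
  set A : Set (XX Φ) := {y | |y.1.2.2 - t₀ * y.1.2.1| < ε * y.1.2.1} with hA
  have hAe : ∀ t : unitInterval, e Φ t ∈ A ↔ 0 < d t ∧ |(t : ℝ) - t₀| < ε := by
    intro t
    show |(t : ℝ) * d t - t₀ * d t| < ε * d t ↔ _
    rw [← sub_mul, abs_mul, abs_of_nonneg (d_nonneg t)]
    constructor
    · intro h
      have hpos : 0 < d t := by
        rcases (d_nonneg t).lt_or_eq with h' | h'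
        · exact h'
        · rw [← h'] at h; simp at h
      exact ⟨hpos, lt_of_mul_lt_mul_right h hpos.le⟩
    · rintro ⟨h3, h4⟩
      exact mul_lt_mul_of_pos_right h4 h3
  have hball : ∀ t : unitInterval, |(t : ℝ) - t₀| ≤ ε → e Φ t ∈ U ∧ 0 < d t := by
    intro t ht
    have : t ∈ Metric.closedBall t₀ ε := by
      rw [Metric.mem_closedBall, Subtype.dist_eq, Real.dist_eq]
      exact ht
    exact hεU this
  have hcl : closure A ⊆ e Φ '' Metric.closedBall t₀ ε := by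
    apply closure_minimal
    · intro y hy
      obtain ⟨t, rfl⟩ := e_surj Φ y
      refine ⟨t, ?_, rfl⟩
      rw [Metric.mem_closedBall, Subtype.dist_eq, Real.dist_eq]
      exact ((hAe t).1 hy).2.le
    · exact (Metric.isClosed_closedBall.isCompact.image (e_cont Φ)).isClosed
  have hAo : IsOpen A := by
    apply isOpen_lt <;> fun_prop
  refine ⟨A, hAo, ?_, ?_, ?_⟩
  · rw [hAe]; simpa using ⟨hd0, hε⟩
  · intro y hy
    obtain ⟨t, ht, rfl⟩ := hcl hy
    rw [Metric.mem_closedBall, Subtype.dist_eq, Real.dist_eq] at ht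
    exact (hball t ht).1
  · have hsub : frontier A ⊆ e Φ '' {t : unitInterval | (t : ℝ) = t₀ - ε ∨ (t : ℝ) = t₀ + ε} := by
      rw [hAo.frontier_eq]
      rintro y ⟨hy, hyA⟩
      obtain ⟨t, ht, rfl⟩ := hcl hy
      rw [Metric.mem_closedBall, Subtype.dist_eq, Real.dist_eq] at ht
      refine ⟨t, ?_, rfl⟩
      rw [hAe] at hyA
      have h3 : ¬ |(t : ℝ) - t₀| < ε := fun h => hyA ⟨(hball t ht).2, h⟩
      have h4 : |(t : ℝ) - t₀| = ε := le_antisymm ht (not_lt.1 h3)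
      show (t : ℝ) = t₀ - ε ∨ (t : ℝ) = t₀ + ε
      rcases abs_choice ((t : ℝ) - t₀) with h5 | h5
      · right; linarith
      · left; linarith
    apply Set.Finite.subset _ hsub
    apply Set.Finite.image
    have : {t : unitInterval | (t : ℝ) = t₀ - ε ∨ (t : ℝ) = t₀ + ε} =
        Subtype.val ⁻¹' ({(t₀ : ℝ) - ε, (t₀ : ℝ) + ε} : Set ℝ) := by
      ext t; simp
    rw [this]
    exact Set.Finite.preimage Subtype.val_injective.injOn (by simp)

/-- Entourages of countable powers. -/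
theorem pi_unif {α : Type*} [UniformSpace α] {W : Set ((ℕ → α) × (ℕ → α))}
    (hW : W ∈ 𝓤 (ℕ → α)) : ∃ (m : ℕ) (V : Set (α × α)), V ∈ 𝓤 α ∧
      ∀ x y : ℕ → α, (∀ i, i ≤ m → (x i, y i) ∈ V) → (x, y) ∈ W := by
  rw [Pi.uniformity, Filter.mem_iInf] at hW
  obtain ⟨I, hI, V, hV, rfl⟩ := hW
  choose T hT1 hT2 using fun i : I => Filter.mem_comap.1 (hV i)
  obtain ⟨m, hm⟩ := hI.bddAbove
  have : Finite I := hI
  refine ⟨m, ⋂ i, T i, Filter.iInter_mem.2 hT1, ?_⟩
  intro x y hxy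
  rw [mem_iInter]
  intro i
  apply hT2 i
  have := hxy i (hm i.2)
  rw [mem_iInter] at this
  exact this i

/-- The space is infinite dimensional. -/
theorem dim_XX (h : CSeq f Λ) {Φ : C(ℝ, ℕ → ℕ → ℝ)} (hΦ : Φ '' cantorSet = CC f) (n : ℕ) :
    ¬ CovDimLE (XX Φ) n := by
  have hcomp := compact_XX Φ
  -- the embedding of the power
  have hmem : ∀ z ∈ CC f, ((z, (0, 0)) : E) ∈ XX Φ := by
    intro z hz
    rw [← hΦ] at hz
    obtain ⟨t, ht, rfl⟩ := hz
    refine ⟨⟨t, cantorSet_subset_unitInterval ht⟩, ?_⟩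
    unfold Psi
    simp only
    rw [(d_zero_iff t).2 ht, mul_zero]
  apply CoverDim.not_covDimLE (fun i => {y : XX Φ | y.1.1 i 0 = 0})
    (fun i => {y : XX Φ | y.1.1 i 0 = 1})
  · intro i
    exact isClosed_eq (by fun_prop) continuous_const
  · intro i
    exact isClosed_eq (by fun_prop) continuous_const
  · intro i
    rw [Set.disjoint_left]
    intro y (hy : y.1.1 i 0 = 0) (hy' : y.1.1 i 0 = 1)
    rw [hy] at hy'
    exact zero_ne_one hy'
  · intro W hW
    rw [uniformity_subtype, Filter.mem_comap] at hW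
    obtain ⟨W1, hW1, hW1W⟩ := hW
    have hu : UniformContinuous (fun z : ℕ → ℕ → ℝ => ((z, (0, 0)) : E)) :=
      uniformContinuous_id.prodMk uniformContinuous_const
    obtain ⟨m', V', hV', hVW'⟩ := pi_unif (hu hW1)
    obtain ⟨m, V, hV, hVW⟩ := pi_unif hV'
    obtain ⟨δ, hδ, hδV⟩ := Metric.mem_uniformity_dist.1 hV
    obtain ⟨M, c, hM, hc0, hcM, hcP, hcs⟩ := h.chain m (half_pos hδ)
    have hadj : ∀ a b : ℕ, a ≤ M → b ≤ M → a ≤ b + 1 → b ≤ a + 1 → (c a, c b) ∈ V' := by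
      intro a b ha hb hab hba
      apply hVW
      intro j hj
      apply hδV
      rw [Real.dist_eq]
      rcases Nat.lt_trichotomy a b with hlt | heq | hgt
      · have hb' : b = a + 1 := by omega
        subst hb'
        exact (hcs a (by omega) j hj).trans_lt (half_lt_self hδ)
      · rw [heq, sub_self, abs_zero]; exact hδ
      · have ha' : a = b + 1 := by omega
        subst ha'
        rw [abs_sub_comm]
        exact (hcs b (by omega) j hj).trans_lt (half_lt_self hδ)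
    let zz : (Fin (n + 1) → ℕ) → ℕ → ℕ → ℝ := fun x i => if hi : i < n + 1 then c (x ⟨i, hi⟩) else c 0
    have hzz : ∀ x, zz x ∈ CC f := by
      intro x i
      show (if hi : i < n + 1 then c (x ⟨i, hi⟩) else c 0) ∈ P f
      split_ifs
      · exact hcP _
      · exact hcP _
    have hzi : ∀ (x : Fin (n + 1) → ℕ) (i : Fin (n + 1)), zz x i = c (x i) := by
      intro x i
      show (if hi : (i : ℕ) < n + 1 then c (x ⟨i, hi⟩) else c 0) = c (x i)
      rw [dif_pos i.2]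
    refine ⟨M, fun x => ⟨((zz x, (0, 0)) : E), hmem _ (hzz x)⟩, hM, ?_, ?_, ?_⟩
    · intro x _ i hi
      show zz x i 0 = 0
      rw [hzi, hi, hc0]
    · intro x _ i hi
      show zz x i 0 = 1
      rw [hzi, hi, hcM]
    · intro x y hx hy hxy
      apply hW1W
      show ((((zz x, (0, 0)) : E)), ((zz y, (0, 0)) : E)) ∈ W1
      apply hVW' (zz x) (zz y)
      intro i _
      show ((if hi : i < n + 1 then c (x ⟨i, hi⟩) else c 0),
        (if hi : i < n + 1 then c (y ⟨i, hi⟩) else c 0)) ∈ V'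
      split_ifs with hi
      · exact hadj _ _ (hx _) (hy _) (hxy _).1 (hxy _).2
      · exact hadj _ _ (Nat.zero_le _) (Nat.zero_le _) (by omega) (by omega)

end Pool.Agent.H85.Space
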