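import Mathlib

/-!
Unicoherence of simply connected, locally path connected normal spaces, and connectedness of
frontiers of complementary components.
-/

open Set Topology

namespace Pool.Agent.H85.Uni

variable {Z : Type*} [TopologicalSpace Z]

/-- Continuous maps from a simply connected, locally path connected space to the circle lift. -/
theorem lift_circle [SimplyConnectedSpace Z] [LocallyPathConnectedSpace Z]
    (g : C(Z, AddCircle (1 : ℝ))) : ∃ θ : C(Z, ℝ), ∀ z, (θ z : AddCircle (1 : ℝ)) = g z := by
  obtain ⟨a₀⟩ : Nonempty Z := inferInstance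
  obtain ⟨e₀, he⟩ : ∃ e : ℝ, (e : AddCircle (1 : ℝ)) = g a₀ :=
    QuotientAddGroup.mk_surjective (g a₀)
  have cov : IsCoveringMap ((↑) : ℝ → AddCircle (1 : ℝ)) := AddCircle.isCoveringMap_coe 1
  obtain ⟨F, ⟨_, hF⟩, _⟩ := cov.existsUnique_continuousMap_lifts g a₀ e₀ he
  exact ⟨F, fun z => congrFun hF z⟩

theorem coe_eq_iff {a b : ℝ} :
    (a : AddCircle (1 : ℝ)) = (b : AddCircle (1 : ℝ)) ↔ ∃ n : ℤ, a - b = n := by
  rw [← sub_eq_zero, ← AddCircle.coe_sub, AddCircle.coe_eq_zero_iff]
  constructor
  · rintro ⟨n, hn⟩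
    exact ⟨n, by rw [← hn]; simp⟩
  · rintro ⟨n, hn⟩
    exact ⟨n, by rw [hn]; simp⟩

/-- A real function on a preconnected set whose values are integers is constant. -/
theorem const_of_int {A : Set Z} (hA : IsPreconnected A) {h : Z → ℝ} (hc : ContinuousOn h A)
    (hi : ∀ z ∈ A, ∃ n : ℤ, h z = n) {x y : Z} (hx : x ∈ A) (hy : y ∈ A) : h x = h y := by
  refine hA.constant_of_mapsTo (T := Set.range ((↑) : ℤ → ℝ)) ?_ hc ?_ hx hy
  · exact Int.isClosedEmbedding_coe_real.isInducing.isDiscrete_range
  · intro z hz
    obtain ⟨n, hn⟩ := hi z hz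
    exact ⟨n, hn.symm⟩

/-- Unicoherence: if a simply connected, locally path connected normal space is the union of two
closed connected sets, then their intersection is connected. -/
theorem unicoherent [SimplyConnectedSpace Z] [LocallyPathConnectedSpace Z] [NormalSpace Z]
    {A B : Set Z} (hA : IsClosed A) (hB : IsClosed B) (hAc : IsPreconnected A)
    (hBc : IsPreconnected B) (hAB : A ∪ B = univ) : IsPreconnected (A ∩ B) := by
  rw [isPreconnected_closed_iff]
  rintro F G hF hG hFG ⟨x, ⟨hxA, hxB⟩, hxF⟩ ⟨y, ⟨hyA, hyB⟩, hyG⟩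
  by_contra hne
  rw [not_nonempty_iff_eq_empty] at hne
  -- the two disjoint closed pieces
  have hF' : IsClosed ((A ∩ B) ∩ F) := (hA.inter hB).inter hF
  have hG' : IsClosed ((A ∩ B) ∩ G) := (hA.inter hB).inter hG
  have hdisj : Disjoint ((A ∩ B) ∩ F) ((A ∩ B) ∩ G) := by
    rw [Set.disjoint_iff]
    rintro z ⟨⟨hz, hzF⟩, ⟨_, hzG⟩⟩
    have : z ∈ (A ∩ B) ∩ (F ∩ G) := ⟨hz, hzF, hzG⟩
    rw [hne] at this
    exact this
  obtain ⟨u, hu0, hu1, _⟩ := exists_continuous_zero_one_of_isClosed hF' hG' hdisj
  -- the map to the circle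
  classical
  let g : Z → AddCircle (1 : ℝ) := fun z =>
    if z ∈ A then ((u z / 2 : ℝ) : AddCircle (1 : ℝ)) else ((-(u z / 2) : ℝ) : AddCircle (1 : ℝ))
  have hcoe : Continuous ((↑) : ℝ → AddCircle (1 : ℝ)) := AddCircle.continuous_mk' 1
  have hgA : ∀ z ∈ A, g z = ((u z / 2 : ℝ) : AddCircle (1 : ℝ)) := fun z hz => if_pos hz
  have hgB : ∀ z ∈ B, g z = ((-(u z / 2) : ℝ) : AddCircle (1 : ℝ)) := by
    intro z hz
    by_cases hzA : z ∈ A
    · rw [hgA z hzA]
      have hz' : z ∈ F ∪ G := hFG ⟨hzA, hz⟩
      rcases hz' with h | h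
      · have : u z = 0 := hu0 ⟨⟨hzA, hz⟩, h⟩
        rw [this]; simp
      · have : u z = 1 := hu1 ⟨⟨hzA, hz⟩, h⟩
        rw [this]
        rw [coe_eq_iff]
        exact ⟨1, by norm_num⟩
    · exact if_neg hzA
  have hgc : Continuous g := by
    rw [← continuousOn_univ, ← hAB]
    apply ContinuousOn.union_of_isClosed _ _ hA hB
    · exact ContinuousOn.congr (hcoe.comp (by fun_prop)).continuousOn hgA
    · exact ContinuousOn.congr (hcoe.comp (by fun_prop)).continuousOn hgB
  obtain ⟨θ, hθ⟩ := lift_circle ⟨g, hgc⟩
  have hθA : ∀ z ∈ A, ∃ n : ℤ, θ z - u z / 2 = n := by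
    intro z hz
    rw [← coe_eq_iff, hθ z]
    exact hgA z hz
  have hθB : ∀ z ∈ B, ∃ n : ℤ, θ z - -(u z / 2) = n := by
    intro z hz
    rw [← coe_eq_iff, hθ z]
    exact hgB z hz
  have h1 := const_of_int hAc (h := fun z => θ z - u z / 2) (by fun_prop) hθA hxA hyA
  have h2 := const_of_int hBc (h := fun z => θ z - -(u z / 2)) (by fun_prop) hθB hxB hyB
  have hux : u x = 0 := hu0 ⟨⟨hxA, hxB⟩, hxF⟩
  have huy : u y = 1 := hu1 ⟨⟨hyA, hyB⟩, hyG⟩
  simp only [hux, huy] at h1 h2
  linarith

/-- In a locally connected connected unicoherent situation: if `V` is open and connected and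
`W` is a component of the complement of the closure of `V`, then the frontier of `W` is
connected. -/
theorem frontier_preconnected [SimplyConnectedSpace Z] [LocallyPathConnectedSpace Z]
    [NormalSpace Z] {V : Set Z} (hVc : IsPreconnected V) (hVne : V.Nonempty) (z : Z) :
    IsPreconnected (frontier (connectedComponentIn (closure V)ᶜ z)) := by
  set W := connectedComponentIn (closure V)ᶜ z with hW
  have hUo : IsOpen (closure V)ᶜ := isClosed_closure.isOpen_compl
  have hWo : IsOpen W := hUo.connectedComponentIn
  have hWsub : W ⊆ (closure V)ᶜ := connectedComponentIn_subset _ _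
  have hWc : IsPreconnected W := isPreconnected_connectedComponentIn
  obtain ⟨v, hv⟩ := hVne
  have hvW : closure V ⊆ Wᶜ := fun y hy hyW => hWsub hyW hy
  have hcompl : IsPreconnected Wᶜ := by
    apply isPreconnected_of_forall v
    intro y hy
    by_cases hyV : y ∈ closure V
    · exact ⟨closure V, hvW, subset_closure hv, hyV, hVc.closure⟩
    · set W' := connectedComponentIn (closure V)ᶜ y with hW'
      have hyW' : y ∈ W' := mem_connectedComponentIn hyV
      have hdis : Disjoint W' W := by
        rw [Set.disjoint_iff_inter_eq_empty]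
        by_contra hne
        obtain ⟨t, ht', ht⟩ := nonempty_iff_ne_empty.2 hne
        have e1 : W' = connectedComponentIn (closure V)ᶜ t := connectedComponentIn_eq ht'
        have e2 : W = connectedComponentIn (closure V)ᶜ t := connectedComponentIn_eq ht
        apply hy
        rw [e2, ← e1]
        exact hyW'
      have hdis' : Disjoint (closure W') W := hdis.closure_left hWo
      have hmeet : (closure W' ∩ closure V).Nonempty := by
        by_contra hne
        rw [not_nonempty_iff_eq_empty] at hne
        have hsub : closure W' ⊆ (closure V)ᶜ := by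
          intro t ht htV
          have : t ∈ closure W' ∩ closure V := ⟨ht, htV⟩
          rw [hne] at this
          exact this
        have hle : closure W' ⊆ W' :=
          (isPreconnected_connectedComponentIn.closure).subset_connectedComponentIn
            (subset_closure hyW') hsub
        have hclopen : IsClopen W' :=
          ⟨closure_subset_iff_isClosed.1 hle, hUo.connectedComponentIn⟩
        have huniv : W' = univ := hclopen.eq_univ ⟨y, hyW'⟩
        have : v ∈ W' := by rw [huniv]; trivial
        exact connectedComponentIn_subset _ _ this (subset_closure hv)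
      obtain ⟨t, ht1, ht2⟩ := hmeet
      refine ⟨closure V ∪ closure W', ?_, Or.inl (subset_closure hv),
        Or.inr (subset_closure hyW'), ?_⟩
      · apply union_subset hvW
        intro t ht htW
        exact Set.disjoint_left.1 hdis' ht htW
      · exact IsPreconnected.union t ht2 ht1 hVc.closure
          isPreconnected_connectedComponentIn.closure
  have h := unicoherent (A := closure W) (B := Wᶜ) isClosed_closure hWo.isClosed_compl
    hWc.closure hcompl (by
      rw [eq_univ_iff_forall]
      intro t
      by_cases ht : t ∈ W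
      · exact Or.inl (subset_closure ht)
      · exact Or.inr ht)
  have he : frontier W = closure W ∩ Wᶜ := by
    rw [hWo.frontier_eq]; rfl
  rw [he]
  exact h

end Pool.Agent.H85.Uni
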