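import Mathlib

open TopologicalSpace

namespace Pool.Agent.H85

/-- A topological space is zero-dimensional if its clopen subsets form a base of the topology. -/
def ZeroDim (X : Type*) [TopologicalSpace X] : Prop :=
  IsTopologicalBasis {s : Set X | IsClopen s}

/-- The property `Z_m` of a topological group `G`: every closed, zero-dimensional, metrizable
subgroup of `G` is discrete. -/
def PropertyZm (G : Type*) [Group G] [TopologicalSpace G] : Prop :=
  ∀ H : Subgroup G, IsClosed (H : Set G) → ZeroDim H → MetrizableSpace H → DiscreteTopology H

end Pool.Agent.H85
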