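import Mathlib
import Pool.Agent.H85.ZmDefs

open scoped Manifold ContDiff commutatorElement
open TopologicalSpace

namespace Pool.Agent.H85.ZmHeis

/-- The underlying space `ℝ³` of the real Heisenberg group. -/
def Heis : Type := ℝ × ℝ × ℝ

namespace Heis

noncomputable instance : TopologicalSpace Heis := inferInstanceAs (TopologicalSpace (ℝ × ℝ × ℝ))
instance : T2Space Heis := inferInstanceAs (T2Space (ℝ × ℝ × ℝ))
instance : SecondCountableTopology Heis :=
  inferInstanceAs (SecondCountableTopology (ℝ × ℝ × ℝ))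
instance : ConnectedSpace Heis := inferInstanceAs (ConnectedSpace (ℝ × ℝ × ℝ))
noncomputable instance : ChartedSpace (ℝ × ℝ × ℝ) Heis := chartedSpaceSelf (ℝ × ℝ × ℝ)
instance : IsManifold 𝓘(ℝ, ℝ × ℝ × ℝ) ω Heis :=
  instIsManifoldModelSpace (I := 𝓘(ℝ, ℝ × ℝ × ℝ)) (n := ω)

/-- The first coordinate. -/
def cx (a : Heis) : ℝ := Prod.fst (α := ℝ) (β := ℝ × ℝ) a
/-- The second coordinate. -/
def cy (a : Heis) : ℝ := Prod.fst (α := ℝ) (β := ℝ) (Prod.snd (α := ℝ) (β := ℝ × ℝ) a)
/-- The third coordinate. -/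
def cz (a : Heis) : ℝ := Prod.snd (α := ℝ) (β := ℝ) (Prod.snd (α := ℝ) (β := ℝ × ℝ) a)
/-- The element with coordinates `x, y, z`. -/
def mk (x y z : ℝ) : Heis := ((x, y, z) : ℝ × ℝ × ℝ)

@[simp] theorem cx_mk (x y z : ℝ) : cx (mk x y z) = x := rfl
@[simp] theorem cy_mk (x y z : ℝ) : cy (mk x y z) = y := rfl
@[simp] theorem cz_mk (x y z : ℝ) : cz (mk x y z) = z := rfl

theorem ext' {a b : Heis} (h1 : cx a = cx b) (h2 : cy a = cy b) (h3 : cz a = cz b) : a = b := by
  have : ((cx a, cy a, cz a) : ℝ × ℝ × ℝ) = (cx b, cy b, cz b) := by rw [h1, h2, h3]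
  exact this

/-- The Heisenberg multiplication `(x,y,z)(x',y',z') = (x+x', y+y', z+z'+x y')`. -/
noncomputable instance : Mul Heis := ⟨fun a b => mk (cx a + cx b) (cy a + cy b) (cz a + cz b + cx a * cy b)⟩
noncomputable instance : One Heis := ⟨mk 0 0 0⟩
noncomputable instance : Inv Heis := ⟨fun a => mk (-cx a) (-cy a) (-cz a + cx a * cy a)⟩

@[simp] theorem cx_mul (a b : Heis) : cx (a * b) = cx a + cx b := rfl
@[simp] theorem cy_mul (a b : Heis) : cy (a * b) = cy a + cy b := rfl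
@[simp] theorem cz_mul (a b : Heis) : cz (a * b) = cz a + cz b + cx a * cy b := rfl
@[simp] theorem cx_one : cx (1 : Heis) = 0 := rfl
@[simp] theorem cy_one : cy (1 : Heis) = 0 := rfl
@[simp] theorem cz_one : cz (1 : Heis) = 0 := rfl
@[simp] theorem cx_inv (a : Heis) : cx a⁻¹ = -cx a := rfl
@[simp] theorem cy_inv (a : Heis) : cy a⁻¹ = -cy a := rfl
@[simp] theorem cz_inv (a : Heis) : cz a⁻¹ = -cz a + cx a * cy a := rfl

noncomputable instance : Group Heis where
  mul_assoc a b c := by apply ext' <;> simp <;> ring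
  one_mul a := by apply ext' <;> simp
  mul_one a := by apply ext' <;> simp
  inv_mul_cancel a := by apply ext' <;> simp

theorem continuous_cx : Continuous cx := continuous_fst
theorem continuous_cy : Continuous cy := continuous_fst.comp continuous_snd
theorem continuous_cz : Continuous cz := continuous_snd.comp continuous_snd

theorem contMDiff_cx : ContMDiff 𝓘(ℝ, ℝ × ℝ × ℝ) 𝓘(ℝ, ℝ) ω cx :=
  (contDiff_fst (𝕜 := ℝ) (E := ℝ) (F := ℝ × ℝ) (n := ω)).contMDiff
theorem contMDiff_cy : ContMDiff 𝓘(ℝ, ℝ × ℝ × ℝ) 𝓘(ℝ, ℝ) ω cy :=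
  ((contDiff_fst (𝕜 := ℝ) (E := ℝ) (F := ℝ) (n := ω)).comp
    (contDiff_snd (𝕜 := ℝ) (E := ℝ) (F := ℝ × ℝ) (n := ω))).contMDiff
theorem contMDiff_cz : ContMDiff 𝓘(ℝ, ℝ × ℝ × ℝ) 𝓘(ℝ, ℝ) ω cz :=
  ((contDiff_snd (𝕜 := ℝ) (E := ℝ) (F := ℝ) (n := ω)).comp
    (contDiff_snd (𝕜 := ℝ) (E := ℝ) (F := ℝ × ℝ) (n := ω))).contMDiff

instance : LieGroup 𝓘(ℝ, ℝ × ℝ × ℝ) ω Heis where
  contMDiff_mul := by
    have hx1 := contMDiff_cx.comp (contMDiff_fst (I := 𝓘(ℝ, ℝ × ℝ × ℝ)) (J := 𝓘(ℝ, ℝ × ℝ × ℝ))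
      (M := Heis) (N := Heis) (n := ω))
    have hy1 := contMDiff_cy.comp (contMDiff_fst (I := 𝓘(ℝ, ℝ × ℝ × ℝ)) (J := 𝓘(ℝ, ℝ × ℝ × ℝ))
      (M := Heis) (N := Heis) (n := ω))
    have hz1 := contMDiff_cz.comp (contMDiff_fst (I := 𝓘(ℝ, ℝ × ℝ × ℝ)) (J := 𝓘(ℝ, ℝ × ℝ × ℝ))
      (M := Heis) (N := Heis) (n := ω))
    have hx2 := contMDiff_cx.comp (contMDiff_snd (I := 𝓘(ℝ, ℝ × ℝ × ℝ)) (J := 𝓘(ℝ, ℝ × ℝ × ℝ))
      (M := Heis) (N := Heis) (n := ω))
    have hy2 := contMDiff_cy.comp (contMDiff_snd (I := 𝓘(ℝ, ℝ × ℝ × ℝ)) (J := 𝓘(ℝ, ℝ × ℝ × ℝ))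
      (M := Heis) (N := Heis) (n := ω))
    have hz2 := contMDiff_cz.comp (contMDiff_snd (I := 𝓘(ℝ, ℝ × ℝ × ℝ)) (J := 𝓘(ℝ, ℝ × ℝ × ℝ))
      (M := Heis) (N := Heis) (n := ω))
    exact (hx1.add hx2).prodMk_space ((hy1.add hy2).prodMk_space ((hz1.add hz2).add (hx1.mul hy2)))
  contMDiff_inv := by
    exact contMDiff_cx.neg.prodMk_space (contMDiff_cy.neg.prodMk_space
      (contMDiff_cz.neg.add (contMDiff_cx.mul contMDiff_cy)))

end Heis


open Heis

instance : IsTopologicalGroup Heis := topologicalGroup_of_lieGroup 𝓘(ℝ, ℝ × ℝ × ℝ) ω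

theorem continuous_mk00 : Continuous (fun z : ℝ => Heis.mk 0 0 z) := by
  have : Continuous (fun z : ℝ => ((0, 0, z) : ℝ × ℝ × ℝ)) := by fun_prop
  exact this

theorem continuous_mk0 : Continuous (fun p : ℝ × ℝ => Heis.mk p.1 p.2 0) := by
  have : Continuous (fun p : ℝ × ℝ => ((p.1, p.2, 0) : ℝ × ℝ × ℝ)) := by fun_prop
  exact this

/-- `1, √2, √3` are linearly independent over the integers. -/
theorem indep {a b c : ℤ} (h : (a : ℝ) + b * √2 + c * √3 = 0) : a = 0 ∧ b = 0 ∧ c = 0 := by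
  have h2 : Irrational (√2) := irrational_sqrt_two
  have h3 : Irrational (√3) := by
    have := (irrational_sqrt_ofNat_iff (n := 3)).2 (by decide +kernel)
    simpa using this
  have h6 : Irrational (√6) := by
    have := (irrational_sqrt_ofNat_iff (n := 6)).2 (by decide +kernel)
    simpa using this
  have s2 : √2 * √2 = (2 : ℝ) := Real.mul_self_sqrt (by norm_num)
  have s3 : √3 * √3 = (3 : ℝ) := Real.mul_self_sqrt (by norm_num)
  have s6 : √2 * √3 = √6 := by
    rw [← Real.sqrt_mul (by norm_num)]; norm_num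
  have key : (a : ℝ) ^ 2 - 2 * b ^ 2 - 3 * c ^ 2 = 2 * b * c * √6 := by
    have : (a : ℝ) = -(b * √2 + c * √3) := by linarith
    rw [this]
    linear_combination (b : ℝ) ^ 2 * s2 + (c : ℝ) ^ 2 * s3 + 2 * b * c * s6
  have hbc : b * c = 0 := by
    by_contra hne
    apply h6
    refine ⟨((a ^ 2 - 2 * b ^ 2 - 3 * c ^ 2 : ℤ) : ℚ) / ((2 * (b * c) : ℤ) : ℚ), ?_⟩
    have hne' : (2 * b * c : ℝ) ≠ 0 := by
      have : ((b * c : ℤ) : ℝ) ≠ 0 := by exact_mod_cast hne
      push_cast at this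
      intro h0
      apply this
      linarith
    push_cast
    rw [div_eq_iff (by rw [← mul_assoc]; exact hne')]
    rw [key]; ring
  rcases mul_eq_zero.1 hbc with hb | hc
  · subst hb
    have hc : c = 0 := by
      by_contra hne
      apply h3
      refine ⟨(((-a : ℤ)) : ℚ) / ((c : ℤ) : ℚ), ?_⟩
      have hne' : (c : ℝ) ≠ 0 := by exact_mod_cast hne
      push_cast
      rw [div_eq_iff hne']
      push_cast at h
      linarith
    subst hc
    refine ⟨?_, rfl, rfl⟩
    have : (a : ℝ) = 0 := by simpa using h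
    exact_mod_cast this
  · subst hc
    have hb : b = 0 := by
      by_contra hne
      apply h2
      refine ⟨(((-a : ℤ)) : ℚ) / ((b : ℤ) : ℚ), ?_⟩
      have hne' : (b : ℝ) ≠ 0 := by exact_mod_cast hne
      push_cast
      rw [div_eq_iff hne']
      push_cast at h
      linarith
    subst hb
    refine ⟨?_, rfl, rfl⟩
    have : (a : ℝ) = 0 := by simpa using h
    exact_mod_cast this

/-- The subgroup `G` of the Heisenberg group: the preimage of the rank three subgroup
`{(m + k√2, n + k√3) : m, n, k ∈ ℤ}` of `ℝ²`. -/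
noncomputable def G : Subgroup Heis where
  carrier := {g | ∃ m n k : ℤ, cx g = m + k * √2 ∧ cy g = n + k * √3}
  mul_mem' := by
    rintro a b ⟨m, n, k, h1, h2⟩ ⟨m', n', k', h1', h2'⟩
    refine ⟨m + m', n + n', k + k', ?_, ?_⟩
    · rw [cx_mul, h1, h1']; push_cast; ring
    · rw [cy_mul, h2, h2']; push_cast; ring
  one_mem' := ⟨0, 0, 0, by simp, by simp⟩
  inv_mem' := by
    rintro a ⟨m, n, k, h1, h2⟩
    refine ⟨-m, -n, -k, ?_, ?_⟩
    · rw [cx_inv, h1]; push_cast; ring
    · rw [cy_inv, h2]; push_cast; ring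

theorem mem_G {g : Heis} : g ∈ G ↔ ∃ m n k : ℤ, cx g = m + k * √2 ∧ cy g = n + k * √3 := Iff.rfl


theorem commutator_eq (a b : Heis) :
    ⁅a, b⁆ = Heis.mk 0 0 (cx a * cy b - cy a * cx b) := by
  rw [commutatorElement_def]
  apply ext'
  · simp
  · simp
  · simp; ring

theorem class_two (a b c : Heis) : ⁅⁅a, b⁆, c⁆ = 1 := by
  rw [commutator_eq ⁅a, b⁆ c, commutator_eq a b]
  apply ext' <;> simp

instance normal_G : G.Normal := by
  constructor
  intro n hn g
  obtain ⟨m, l, k, h1, h2⟩ := hn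
  refine ⟨m, l, k, ?_, ?_⟩
  · simp [h1]
  · simp [h2]

/-- Discreteness of `G` along lines: nonzero elements of the rank three group that are parallel
to a given nonzero element of it stay away from the origin. -/
theorem line_discrete {u : Heis} (hu : u ∈ G) (hu0 : ¬ (cx u = 0 ∧ cy u = 0)) :
    ∃ δ > 0, ∀ h ∈ G, cx u * cy h - cy u * cx h = 0 → |cx h| < δ → |cy h| < δ →
      cx h = 0 ∧ cy h = 0 := by
  obtain ⟨m, n, k, hx, hy⟩ := hu
  have hs : 0 < max |cx u| |cy u| := by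
    by_contra hle
    apply hu0
    have h1 : |cx u| ≤ 0 := le_trans (le_max_left _ _) (not_lt.1 hle)
    have h2 : |cy u| ≤ 0 := le_trans (le_max_right _ _) (not_lt.1 hle)
    exact ⟨abs_nonpos_iff.1 h1, abs_nonpos_iff.1 h2⟩
  -- a general principle
  have gen : ∀ p : ℤ, p ≠ 0 → ∀ p' : ℤ, ∀ h : Heis, (p : ℝ) * cx h = p' * cx u →
      (p : ℝ) * cy h = p' * cy u → |cx h| < max |cx u| |cy u| / |(p : ℝ)| →
      |cy h| < max |cx u| |cy u| / |(p : ℝ)| → cx h = 0 ∧ cy h = 0 := by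
    intro p hp p' h h1 h2 h3 h4
    have hpR : (p : ℝ) ≠ 0 := by exact_mod_cast hp
    have hpos : 0 < |(p : ℝ)| := abs_pos.2 hpR
    rw [lt_div_iff₀ hpos] at h3 h4
    have e1 : |cx h| * |(p : ℝ)| = |(p' : ℝ)| * |cx u| := by
      rw [← abs_mul, ← abs_mul, mul_comm, h1]
    have e2 : |cy h| * |(p : ℝ)| = |(p' : ℝ)| * |cy u| := by
      rw [← abs_mul, ← abs_mul, mul_comm, h2]
    rw [e1] at h3
    rw [e2] at h4
    have h5 : |(p' : ℝ)| * max |cx u| |cy u| < 1 * max |cx u| |cy u| := by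
      rw [one_mul]
      rcases max_choice |cx u| |cy u| with hm | hm
      · rw [hm] at h3 ⊢; exact h3
      · rw [hm] at h4 ⊢; exact h4
    have h6 : |(p' : ℝ)| < 1 := lt_of_mul_lt_mul_right h5 hs.le
    have h7 : p' = 0 := by
      have : |p'| < 1 := by exact_mod_cast h6
      exact Int.abs_lt_one_iff.1 this
    subst h7
    simp only [Int.cast_zero, zero_mul, mul_eq_zero, hpR, false_or] at h1 h2
    exact ⟨h1, h2⟩
  have minors : ∀ m' n' k' : ℤ, ∀ h : Heis, cx h = m' + k' * √2 → cy h = n' + k' * √3 →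
      cx u * cy h - cy u * cx h = 0 → m * n' = n * m' ∧ k * n' = n * k' ∧ m * k' = k * m' := by
    intro m' n' k' h h1 h2 h3
    rw [h1, h2, hx, hy] at h3
    have := indep (a := m * n' - n * m') (b := k * n' - n * k') (c := m * k' - k * m') (by
      push_cast; linear_combination h3)
    obtain ⟨q1, q2, q3⟩ := this
    exact ⟨by linarith, by linarith, by linarith⟩
  by_cases hm : m = 0
  · by_cases hn : n = 0
    · have hk : k ≠ 0 := by
        rintro rfl
        apply hu0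
        rw [hx, hy, hm, hn]; simp
      refine ⟨max |cx u| |cy u| / |(k : ℝ)|, div_pos hs (abs_pos.2 (by exact_mod_cast hk)), ?_⟩
      rintro h ⟨m', n', k', h1, h2⟩ h3 h4 h5
      obtain ⟨q1, q2, q3⟩ := minors m' n' k' h h1 h2 h3
      have q2' : (k : ℝ) * n' = n * k' := by exact_mod_cast q2
      have q3' : (m : ℝ) * k' = k * m' := by exact_mod_cast q3
      refine gen k hk k' h ?_ ?_ h4 h5
      · rw [h1, hx]; linear_combination -q3'
      · rw [h2, hy]; linear_combination q2'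
    · refine ⟨max |cx u| |cy u| / |(n : ℝ)|, div_pos hs (abs_pos.2 (by exact_mod_cast hn)), ?_⟩
      rintro h ⟨m', n', k', h1, h2⟩ h3 h4 h5
      obtain ⟨q1, q2, q3⟩ := minors m' n' k' h h1 h2 h3
      have q1' : (m : ℝ) * n' = n * m' := by exact_mod_cast q1
      have q2' : (k : ℝ) * n' = n * k' := by exact_mod_cast q2
      refine gen n hn n' h ?_ ?_ h4 h5
      · rw [h1, hx]; linear_combination -q1' - √2 * q2'
      · rw [h2, hy]; linear_combination -√3 * q2'
  · refine ⟨max |cx u| |cy u| / |(m : ℝ)|, div_pos hs (abs_pos.2 (by exact_mod_cast hm)), ?_⟩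
    rintro h ⟨m', n', k', h1, h2⟩ h3 h4 h5
    obtain ⟨q1, q2, q3⟩ := minors m' n' k' h h1 h2 h3
    have q1' : (m : ℝ) * n' = n * m' := by exact_mod_cast q1
    have q3' : (m : ℝ) * k' = k * m' := by exact_mod_cast q3
    refine gen m hm m' h ?_ ?_ h4 h5
    · rw [h1, hx]; linear_combination √2 * q3'
    · rw [h2, hy]; linear_combination q1' + √3 * q3'


theorem mk00_mem_G (z : ℝ) : Heis.mk 0 0 z ∈ G := ⟨0, 0, 0, by simp, by simp⟩

/-- A zero-dimensional Hausdorff space has no nonconstant continuous image of `ℝ`. -/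
theorem const_of_zeroDim {X : Type*} [TopologicalSpace X] [T1Space X] (hX : ZeroDim X)
    {f : ℝ → X} (hf : Continuous f) (s t : ℝ) : f s = f t := by
  by_contra hne
  have ho : IsOpen ({f t}ᶜ : Set X) := isOpen_compl_singleton
  obtain ⟨v, hv, hsv, hvs⟩ := IsTopologicalBasis.exists_subset_of_mem_open hX
    (a := f s) (u := ({f t}ᶜ : Set X)) hne ho
  have hcl : IsClopen (f ⁻¹' v) := hv.preimage hf
  rcases isClopen_iff.1 hcl with h | h
  · have : s ∈ f ⁻¹' v := hsv
    rw [h] at this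
    exact this
  · have : t ∈ f ⁻¹' v := by rw [h]; trivial
    exact hvs this rfl

theorem propertyZm_G : PropertyZm G := by
  intro H hHc hHz _
  -- the image of `H` in the Heisenberg group
  let H' : Subgroup Heis := H.map G.subtype
  have hH'G : ∀ h ∈ H', h ∈ G := by
    rintro _ ⟨g, _, rfl⟩
    exact g.2
  have hH'iff : ∀ h (hG : h ∈ G), h ∈ H' ↔ (⟨h, hG⟩ : G) ∈ H := by
    intro h hG
    constructor
    · rintro ⟨g, hg, hgh⟩
      have : g = ⟨h, hG⟩ := Subtype.ext hgh
      rw [← this]; exact hg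
    · intro hh
      exact ⟨⟨h, hG⟩, hh, rfl⟩
  -- the central part
  let C : AddSubgroup ℝ :=
    { carrier := {z | Heis.mk 0 0 z ∈ H'}
      zero_mem' := H'.one_mem
      add_mem' := by
        intro a b ha hb
        have := H'.mul_mem ha hb
        have e : Heis.mk 0 0 a * Heis.mk 0 0 b = Heis.mk 0 0 (a + b) := by
          apply ext' <;> simp
        rw [e] at this
        exact this
      neg_mem' := by
        intro a ha
        have := H'.inv_mem ha
        have e : (Heis.mk 0 0 a)⁻¹ = Heis.mk 0 0 (-a) := by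
          apply ext' <;> simp
        rw [e] at this
        exact this }
  have hcont : Continuous (fun z : ℝ => (⟨Heis.mk 0 0 z, mk00_mem_G z⟩ : G)) :=
    continuous_mk00.subtype_mk _
  have hCc : IsClosed (C : Set ℝ) := by
    have : (C : Set ℝ) = (fun z : ℝ => (⟨Heis.mk 0 0 z, mk00_mem_G z⟩ : G)) ⁻¹' (H : Set G) := by
      ext z
      exact hH'iff _ (mk00_mem_G z)
    rw [this]
    exact hHc.preimage hcont
  have hCne : ¬ Dense (C : Set ℝ) := by
    intro hd
    have huniv : (C : Set ℝ) = Set.univ := by rw [← hCc.closure_eq, hd.closure_eq]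
    have hmem : ∀ z : ℝ, (⟨Heis.mk 0 0 z, mk00_mem_G z⟩ : G) ∈ H := by
      intro z
      have : z ∈ (C : Set ℝ) := by rw [huniv]; trivial
      exact (hH'iff _ (mk00_mem_G z)).1 this
    have hcont' : Continuous (fun z : ℝ => (⟨⟨Heis.mk 0 0 z, mk00_mem_G z⟩, hmem z⟩ : H)) :=
      hcont.subtype_mk _
    have := const_of_zeroDim hHz hcont' 0 1
    have h2 : cz (Heis.mk 0 0 (0 : ℝ)) = cz (Heis.mk 0 0 (1 : ℝ)) := by
      have := congrArg (fun h : H => cz ((h : G) : Heis)) this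
      exact this
    simp at h2
  obtain ⟨ε, hε, hCε⟩ : ∃ ε > 0, ∀ z ∈ C, |z| < ε → z = 0 := by
    obtain ⟨c, hc⟩ := (AddSubgroup.dense_or_cyclic C).resolve_left hCne
    by_cases hc0 : c = 0
    · refine ⟨1, one_pos, fun z hz _ => ?_⟩
      rw [hc, hc0, AddSubgroup.mem_closure_singleton] at hz
      obtain ⟨n, hn⟩ := hz
      simpa using hn.symm
    · refine ⟨|c|, abs_pos.2 hc0, fun z hz hlt => ?_⟩
      rw [hc, AddSubgroup.mem_closure_singleton] at hz
      obtain ⟨n, rfl⟩ := hz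
      rw [zsmul_eq_mul, abs_mul] at hlt
      have hn : |(n : ℝ)| < 1 := by
        by_contra hge
        rw [not_lt] at hge
        have := mul_le_mul_of_nonneg_right hge (abs_nonneg c)
        linarith
      have : n = 0 := by
        have : |n| < 1 := by exact_mod_cast hn
        exact Int.abs_lt_one_iff.1 this
      simp [this]
  -- commutators
  have hcomm : ∀ u ∈ H', ∀ h ∈ H', cx u * cy h - cy u * cx h ∈ C := by
    intro u hu h hh
    have : ⁅u, h⁆ ∈ H' := by
      rw [commutatorElement_def]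
      exact H'.mul_mem (H'.mul_mem (H'.mul_mem hu hh) (H'.inv_mem hu)) (H'.inv_mem hh)
    rw [commutator_eq] at this
    exact this
  -- the projection of `H'` to the plane is discrete near the origin
  have key : ∃ δ > 0, ∀ h ∈ H', |cx h| < δ → |cy h| < δ → cx h = 0 ∧ cy h = 0 := by
    by_cases hA : ∃ u ∈ H', ∃ v ∈ H', cx u * cy v - cy u * cx v ≠ 0
    · obtain ⟨u, hu, v, hv, huv⟩ := hA
      set M : ℝ := |cx u| + |cy u| + |cx v| + |cy v| + 1 with hM
      have hMpos : 0 < M := by positivity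
      refine ⟨ε / M, div_pos hε hMpos, fun h hh h1 h2 => ?_⟩
      have bound : ∀ w : Heis, w ∈ H' → |cx w| + |cy w| ≤ M - 1 →
          cx w * cy h - cy w * cx h = 0 := by
        intro w hw hwM
        refine hCε _ (hcomm w hw h hh) ?_
        calc |cx w * cy h - cy w * cx h| ≤ |cx w * cy h| + |cy w * cx h| := abs_sub _ _
          _ = |cx w| * |cy h| + |cy w| * |cx h| := by rw [abs_mul, abs_mul]
          _ ≤ |cx w| * (ε / M) + |cy w| * (ε / M) :=
              add_le_add (mul_le_mul_of_nonneg_left h2.le (abs_nonneg _))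
                (mul_le_mul_of_nonneg_left h1.le (abs_nonneg _))
          _ = (|cx w| + |cy w|) * (ε / M) := by ring
          _ ≤ (M - 1) * (ε / M) := mul_le_mul_of_nonneg_right hwM (div_pos hε hMpos).le
          _ < M * (ε / M) := by
              apply mul_lt_mul_of_pos_right _ (div_pos hε hMpos)
              linarith
          _ = ε := by field_simp
      have e1 := bound u hu (by rw [hM]; linarith [abs_nonneg (cx v), abs_nonneg (cy v)])
      have e2 := bound v hv (by rw [hM]; linarith [abs_nonneg (cx u), abs_nonneg (cy u)])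
      constructor
      · have : (cx u * cy v - cy u * cx v) * cx h = 0 := by
          linear_combination (cx v) * e1 - (cx u) * e2
        rcases mul_eq_zero.1 this with h | h
        · exact absurd h huv
        · exact h
      · have : (cx u * cy v - cy u * cx v) * cy h = 0 := by
          linear_combination (cy v) * e1 - (cy u) * e2
        rcases mul_eq_zero.1 this with h | h
        · exact absurd h huv
        · exact h
    · push Not at hA
      by_cases hB : ∃ u ∈ H', ¬ (cx u = 0 ∧ cy u = 0)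
      · obtain ⟨u, hu, hu0⟩ := hB
        obtain ⟨δ, hδ, hδ'⟩ := line_discrete (hH'G u hu) hu0
        exact ⟨δ, hδ, fun h hh h1 h2 => hδ' h (hH'G h hh) (hA u hu h hh) h1 h2⟩
      · push Not at hB
        exact ⟨1, one_pos, fun h hh _ _ => hB h hh⟩
  obtain ⟨δ, hδ, hkey⟩ := key
  -- `{1}` is open in `H`
  apply discreteTopology_of_isOpen_singleton_one
  let U : Set Heis := {h | |cx h| < δ ∧ |cy h| < δ ∧ |cz h| < ε}
  have hU : IsOpen U := by
    apply IsOpen.inter
    · exact isOpen_lt (continuous_cx.abs) continuous_const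
    · apply IsOpen.inter
      · exact isOpen_lt (continuous_cy.abs) continuous_const
      · exact isOpen_lt (continuous_cz.abs) continuous_const
  have : ({1} : Set H) = (fun h : H => ((h : G) : Heis)) ⁻¹' U := by
    ext h
    simp only [Set.mem_singleton_iff, Set.mem_preimage]
    constructor
    · rintro rfl
      simp [U, hδ, hε]
    · rintro ⟨h1, h2, h3⟩
      have hh : ((h : G) : Heis) ∈ H' := (hH'iff _ (h : G).2).2 h.2
      obtain ⟨e1, e2⟩ := hkey _ hh h1 h2
      have e3 : Heis.mk 0 0 (cz ((h : G) : Heis)) = ((h : G) : Heis) := by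
        apply ext' <;> simp [e1, e2]
      have e4 : cz ((h : G) : Heis) ∈ C := by
        show Heis.mk 0 0 (cz ((h : G) : Heis)) ∈ H'
        rw [e3]; exact hh
      have e5 := hCε _ e4 h3
      apply Subtype.ext
      apply Subtype.ext
      rw [← e3, e5]
      rfl
  rw [this]
  exact hU.preimage (continuous_subtype_val.comp continuous_subtype_val)


/-- Arbitrarily small nonzero elements of the rank three group. -/
theorem exists_small (δ : ℝ) (hδ : 0 < δ) :
    ∃ x y : ℝ, (∃ m n k : ℤ, x = m + k * √2 ∧ y = n + k * √3) ∧ x ≠ 0 ∧ |x| < δ ∧ |y| < δ := by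
  let w : ℕ → ℝ × ℝ := fun k => (Int.fract (k * √2), Int.fract (k * √3))
  have hw : ∀ k, w k ∈ Set.Icc (0 : ℝ) 1 ×ˢ Set.Icc (0 : ℝ) 1 := fun k =>
    ⟨⟨Int.fract_nonneg _, (Int.fract_lt_one _).le⟩, ⟨Int.fract_nonneg _, (Int.fract_lt_one _).le⟩⟩
  have hcomp : IsCompact (Set.Icc (0 : ℝ) 1 ×ˢ Set.Icc (0 : ℝ) 1) := isCompact_Icc.prod isCompact_Icc
  obtain ⟨a, _, φ, hφ, hlim⟩ := hcomp.tendsto_subseq hw
  have hcau : CauchySeq (w ∘ φ) := hlim.cauchySeq
  obtain ⟨N, hN⟩ := Metric.cauchySeq_iff.1 hcau δ hδ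
  have hd := hN (N + 1) (by omega) N le_rfl
  have hlt : φ N < φ (N + 1) := hφ (by omega)
  simp only [Function.comp, w, Prod.dist_eq, Real.dist_eq, max_lt_iff] at hd
  set p := φ (N + 1)
  set q := φ N
  refine ⟨Int.fract (p * √2) - Int.fract (q * √2), Int.fract (p * √3) - Int.fract (q * √3),
    ⟨⌊(q : ℝ) * √2⌋ - ⌊(p : ℝ) * √2⌋, ⌊(q : ℝ) * √3⌋ - ⌊(p : ℝ) * √3⌋, (p : ℤ) - (q : ℤ), ?_, ?_⟩,
    ?_, hd.1, hd.2⟩
  · rw [Int.fract, Int.fract]; push_cast; ring
  · rw [Int.fract, Int.fract]; push_cast; ring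
  · intro h0
    have h1 : ((⌊(q : ℝ) * √2⌋ - ⌊(p : ℝ) * √2⌋ : ℤ) : ℝ) + (((p : ℤ) - (q : ℤ) : ℤ) : ℝ) * √2
        + ((0 : ℤ) : ℝ) * √3 = 0 := by
      rw [Int.fract, Int.fract] at h0
      push_cast
      linear_combination h0
    have := (indep h1).2.1
    omega

/-- The rank three subgroup of `ℝ²`. -/
def lat : Set (ℝ × ℝ) := {p | ∃ m n k : ℤ, p.1 = m + k * √2 ∧ p.2 = n + k * √3}

theorem not_isClosed_G : ¬ IsClosed (G : Set Heis) := by
  intro hc
  have hlat : IsClosed lat := by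
    have : lat = (fun p : ℝ × ℝ => Heis.mk p.1 p.2 0) ⁻¹' (G : Set Heis) := by
      ext p
      exact Iff.rfl
    rw [this]
    exact hc.preimage continuous_mk0
  have hcount : lat.Countable := by
    have : lat ⊆ Set.range (fun t : ℤ × ℤ × ℤ =>
        (((t.1 : ℝ) + t.2.2 * √2, (t.2.1 : ℝ) + t.2.2 * √3) : ℝ × ℝ)) := by
      rintro p ⟨m, n, k, h1, h2⟩
      exact ⟨(m, n, k), by ext <;> simp [h1, h2]⟩
    exact (Set.countable_range _).mono this
  have : Countable lat := hcount.to_subtype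
  have : CompleteSpace lat := hlat.completeSpace_coe
  have : Nonempty lat := ⟨⟨(0, 0), 0, 0, 0, by simp, by simp⟩⟩
  obtain ⟨a, ha⟩ := nonempty_interior_of_iUnion_of_closed (f := fun a : lat => ({a} : Set lat))
    (fun a => isClosed_singleton) (Set.iUnion_of_singleton _)
  obtain ⟨b, hb⟩ := ha
  rw [mem_interior_iff_mem_nhds, Metric.mem_nhds_iff] at hb
  obtain ⟨δ, hδ, hball⟩ := hb
  obtain ⟨x, y, ⟨m, n, k, hx, hy⟩, hx0, h1, h2⟩ := exists_small δ hδ
  have hba : b = a := hball (Metric.mem_ball_self hδ)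
  obtain ⟨⟨b1, b2⟩, m', n', k', hb1, hb2⟩ := b
  have hmem : ((b1 + x, b2 + y) : ℝ × ℝ) ∈ lat := by
    refine ⟨m + m', n + n', k + k', ?_, ?_⟩
    · simp only at hb1 ⊢; rw [hb1, hx]; push_cast; ring
    · simp only at hb2 ⊢; rw [hb2, hy]; push_cast; ring
  have hin : (⟨(b1 + x, b2 + y), hmem⟩ : lat) ∈ Metric.ball
      (⟨(b1, b2), m', n', k', hb1, hb2⟩ : lat) δ := by
    rw [Metric.mem_ball, Subtype.dist_eq, Prod.dist_eq, Real.dist_eq, Real.dist_eq]
    simp [h1, h2]
  have heq := hball hin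
  rw [Set.mem_singleton_iff, ← hba] at heq
  have h3 : b1 + x = b1 := congrArg (fun a : lat => a.1.1) heq
  exact hx0 (by linarith)

/-- **Negative answer to Q1.**  There is a (connected, two-step nilpotent, three-dimensional,
real-analytic, Hausdorff, second countable) Lie group `K` with a subgroup `G` (which is even
normal) such that `G` has the property `Z_m` but is not closed in `K`. -/
theorem main :
    ∃ (K : Type) (_ : Group K) (_ : TopologicalSpace K) (_ : ChartedSpace (ℝ × ℝ × ℝ) K)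
      (_ : LieGroup 𝓘(ℝ, ℝ × ℝ × ℝ) ω K) (_ : T2Space K) (_ : SecondCountableTopology K)
      (_ : ConnectedSpace K)
      (_ : ∀ a b c : K, ⁅⁅a, b⁆, c⁆ = 1) (G : Subgroup K),
      G.Normal ∧ PropertyZm G ∧ ¬ IsClosed (G : Set K) :=
  ⟨Heis, inferInstance, inferInstance, inferInstance, inferInstance, inferInstance, inferInstance,
    inferInstance, class_two, G, normal_G, propertyZm_G, not_isClosed_G⟩

end Pool.Agent.H85.ZmHeis
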